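import Pool.Agent.Helper67_Fine.Br

/-!
BR: assembly.
-/

namespace Pool.Agent.H16F.H67

open MeasureTheory Complex Filter Topology Pool.Agent.H16Iso Pool.Agent.H62T
open scoped ENNReal NNReal InnerProductSpace ContDiff

theorem pD_tendsto {D : Set ℂ} (hD : IsOpen D) {t : ℝ} (ht : 0 < t) (x y : ℂ) :
    Tendsto (fun m => Ker D m t x y) atTop (𝓝 (pD D t x y)) := by
  refine tendsto_atTop_ciInf (antitone_nat_of_succ_le fun m => H41.ker_anti D hD m t ht x y) ?_
  refine ⟨0, ?_⟩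
  rintro _ ⟨m, rfl⟩
  exact ((H41.basic D hD m t ht).2.1 x y).1

theorem pD_bd {D : Set ℂ} (hD : IsOpen D) {t : ℝ} (ht : 0 < t) (x y : ℂ) :
    0 ≤ pD D t x y ∧ pD D t x y ≤ G t (x - y) :=
  ⟨ge_of_tendsto' (pD_tendsto hD ht x y) fun m => ((H41.basic D hD m t ht).2.1 x y).1,
    le_of_tendsto' (pD_tendsto hD ht x y) fun m => ((H41.basic D hD m t ht).2.1 x y).2⟩

theorem pD_meas {D : Set ℂ} (hD : IsOpen D) {t : ℝ} (ht : 0 < t) :
    Measurable (Function.uncurry (pD D t)) := by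
  refine measurable_of_tendsto_metrizable (f := fun m => Function.uncurry (Ker D m t))
    (fun m => (H41.basic D hD m t ht).1) ?_
  rw [tendsto_pi_nhds]
  rintro ⟨x, y⟩
  exact pD_tendsto hD ht x y

theorem kbD {D : Set ℂ} (hD : IsOpen D) {t : ℝ} (ht : 0 < t) : KB t (pD D t) where
  meas := pD_meas hD ht
  nn x y := (pD_bd hD ht x y).1
  le x y := (pD_bd hD ht x y).2

theorem S_unique {κ : ℝ} {D : Set ℂ}
    (huniq : ∀ f u v : ℂ → ℝ, MemLp f 2 volume → Sol κ D f u → Sol κ D f v → u =ᵐ[volume] v)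
    {S S' : HH →L[ℂ] HH} (h : ∀ f : HH, Sol κ D (fun x => (f x).re) (fun x => (S f x).re))
    (h' : ∀ f : HH, Sol κ D (fun x => (f x).re) (fun x => (S' f x).re)) : S = S' := by
  ext1 f
  apply Lp.ext
  have h1 := huniq _ _ _ (re_memLp f) (h f) (h' f)
  have h2 := huniq _ _ _ (re_memLp ((-I) • f)) (h ((-I) • f)) (h' ((-I) • f))
  rw [map_smul, map_smul] at h2
  filter_upwards [h1, h2, Lp.coeFn_smul (-I) (S f), Lp.coeFn_smul (-I) (S' f)]
    with x a1 a2 a3 a4
  simp only [a3, a4, Pi.smul_apply, smul_eq_mul] at a2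
  apply Complex.ext
  · exact a1
  · simpa using a2

theorem heat_form {D : Set ℂ} (hD : IsOpen D) {t : ℝ} (ht : 0 < t) {f : ℂ → ℝ}
    (hf : MemLp f 2 volume) :
    Tendsto (fun m => (⟪cx hf, (Fo (PQ D) (fun m => QQ (t / 2 ^ m)) m ^ 2 ^ m) (cx hf)⟫_ℂ).re)
      atTop (𝓝 (∫ x, ∫ y, f x * pD D t x y * f y)) := by
  set F := cx hf with hF
  have hpair : ∀ᵐ p : ℂ × ℂ ∂(volume.prod volume), F p.1 = ((f p.1 : ℝ) : ℂ) ∧
      F p.2 = ((f p.2 : ℝ) : ℂ) := by
    have h1 := cx_coe hf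
    have h2 := Measure.quasiMeasurePreserving_fst (μ := (volume : Measure ℂ))
      (ν := (volume : Measure ℂ)) |>.ae h1
    have h3 := Measure.quasiMeasurePreserving_snd (μ := (volume : Measure ℂ))
      (ν := (volume : Measure ℂ)) |>.ae h1
    filter_upwards [h2, h3] with p a b
    exact ⟨a, b⟩
  have hcf := ofReal_memLp hf
  have hform : ∀ K : ℂ → ℂ → ℝ, KB t K →
      Integrable (fun p : ℂ × ℂ => K p.1 p.2 * (f p.1 * f p.2)) (volume.prod volume) := by
    intro K hK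
    have h1 := (hK.abs_int ht hcf hcf).re
    refine h1.congr (Eventually.of_forall fun p => ?_)
    simp only
    rw [← Complex.ofReal_mul, ← Complex.ofReal_mul]
    simp
  have hval : ∀ m, (⟪F, (Fo (PQ D) (fun m => QQ (t / 2 ^ m)) m ^ 2 ^ m) F⟫_ℂ).re =
      ∫ p : ℂ × ℂ, Ker D m t p.1 p.2 * (f p.1 * f p.2) ∂(volume.prod volume) := by
    intro m
    rw [(Fo_ker hD ht m).inner (kbK hD m ht) ht F F]
    have h1 : ∫ p : ℂ × ℂ, ((Ker D m t p.1 p.2 : ℝ) : ℂ) *
        ((starRingEnd ℂ) (F p.1) * F p.2) ∂(volume.prod volume) =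
        ∫ p : ℂ × ℂ, ((Ker D m t p.1 p.2 * (f p.1 * f p.2) : ℝ) : ℂ)
          ∂(volume.prod volume) := by
      refine integral_congr_ae ?_
      filter_upwards [hpair] with p hp
      rw [hp.1, hp.2, Complex.conj_ofReal]
      push_cast
      ring
    rw [h1, integral_complex_ofReal, Complex.ofReal_re]
  simp_rw [hval]
  have hlim : Tendsto (fun m => ∫ p : ℂ × ℂ, Ker D m t p.1 p.2 * (f p.1 * f p.2)
      ∂(volume.prod volume)) atTop
      (𝓝 (∫ p : ℂ × ℂ, pD D t p.1 p.2 * (f p.1 * f p.2) ∂(volume.prod volume))) := by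
    refine tendsto_integral_of_dominated_convergence
      (fun p => ‖G t (p.1 - p.2) * (f p.1 * f p.2)‖) (fun m => (hform _ (kbK hD m ht)).1)
      (hform _ (kbG ht)).norm (fun m => ?_) ?_
    · refine Eventually.of_forall fun p => ?_
      rw [norm_mul, norm_mul (G t (p.1 - p.2)), Real.norm_of_nonneg ((kbK hD m ht).nn _ _),
        Real.norm_of_nonneg (H8.G_nonneg ht _)]
      exact mul_le_mul_of_nonneg_right ((kbK hD m ht).le _ _) (norm_nonneg _)
    · exact Eventually.of_forall fun p => (pD_tendsto hD ht p.1 p.2).mul_const _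
  have hfub : ∫ x, ∫ y, f x * pD D t x y * f y =
      ∫ p : ℂ × ℂ, pD D t p.1 p.2 * (f p.1 * f p.2) ∂(volume.prod volume) := by
    rw [integral_prod _ (hform _ (kbD hD ht))]
    refine integral_congr_ae (Eventually.of_forall fun x => ?_)
    refine integral_congr_ae (Eventually.of_forall fun y => ?_)
    simp only
    ring
  rw [hfub]
  exact hlim

/-- BR -/
theorem br (hRes : ResStatement) : BrStatement := by
  intro κ D hκ hD hconv hne f u hf hu
  obtain ⟨-, huniq, -⟩ := hRes κ D hκ hD hconv hne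
  obtain ⟨S, hS0, hSn, hS, -⟩ := exists_S hD hκ one_pos
  set F := cx hf with hF
  have hfF : (fun x => (F x).re) =ᵐ[volume] f := by
    filter_upwards [cx_coe hf] with x hx
    rw [hx, Complex.ofReal_re]
  have hu' : Sol κ D (fun x => (F x).re) u := by
    refine ⟨hu.mem, fun φ hφ => ?_⟩
    rw [hu.eq φ hφ]
    refine integral_congr_ae ?_
    filter_upwards [hfF] with x hx
    rw [hx]
  have huS := huniq _ _ _ (re_memLp F) hu' (hS F)
  have h1 : ∫ x, u x * f x = (⟪F, S F⟫_ℂ).re := by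
    rw [cx_inner]
    refine integral_congr_ae ?_
    filter_upwards [huS] with x hx
    rw [hx]
    ring
  rw [h1, laplace hS0 (by positivity) hSn F]
  refine setIntegral_congr_fun measurableSet_Ioi fun t ht => ?_
  have ht' : 0 < t := ht
  obtain ⟨S', hS0', hSn', hS', hlim'⟩ := exists_S hD hκ ht'
  have hSS : S' = S := S_unique huniq hS' hS
  rw [hSS] at hlim'
  have h2 : Tendsto (fun m => (⟪F, (Fo (PQ D) (fun m => QQ (t / 2 ^ m)) m ^ 2 ^ m) F⟫_ℂ).re)
      atTop (𝓝 (⟪F, ((Real.exp (κ ^ 2 * t) : ℝ) : ℂ) • Tev t S F⟫_ℂ).re) :=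
    (Complex.continuous_re.tendsto _).comp (tendsto_const_nhds.inner (hlim' F))
  have h3 := tendsto_nhds_unique h2 (heat_form hD ht' hf)
  rw [inner_smul_right, Complex.re_ofReal_mul] at h3
  rw [← h3, ← mul_assoc, ← Real.exp_add]
  simp

end Pool.Agent.H16F.H67
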