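import Pool.Agent.Helper16_Fine.Stmt2

/-!
# Module MIK: Mikusinski's lemma
-/

set_option autoImplicit false
set_option linter.unusedSectionVars false

namespace Pool.Agent.H16F.H67

open MeasureTheory Filter Topology Set
open scoped ENNReal NNReal

/-- a function all of whose tail integrals vanish is zero almost everywhere -/
theorem ae_zero_of_tail {f : ℝ → ℝ} (hf : Integrable f) (h : ∀ x, ∫ s in Ioi x, f s = 0) :
    f =ᵐ[volume] 0 := by
  have hm1 : AEMeasurable (fun s => ENNReal.ofReal (f s)) volume := hf.1.aemeasurable.ennreal_ofReal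
  have hm2 : AEMeasurable (fun s => ENNReal.ofReal (-f s)) volume :=
    hf.neg.1.aemeasurable.ennreal_ofReal
  have hfin1 : ∫⁻ s, ENNReal.ofReal (f s) ≠ ⊤ := hf.lintegral_lt_top.ne
  have hfin2 : ∫⁻ s, ENNReal.ofReal (-f s) ≠ ⊤ := hf.neg.lintegral_lt_top.ne
  have h1 : IsFiniteMeasure (volume.withDensity fun s => ENNReal.ofReal (f s)) :=
    isFiniteMeasure_withDensity hfin1
  have h2 : IsFiniteMeasure (volume.withDensity fun s => ENNReal.ofReal (-f s)) :=
    isFiniteMeasure_withDensity hfin2
  have hμ : (volume.withDensity fun s => ENNReal.ofReal (f s))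
      = volume.withDensity fun s => ENNReal.ofReal (-f s) := by
    apply Measure.ext_of_Ici
    intro a
    rw [withDensity_apply _ measurableSet_Ici, withDensity_apply _ measurableSet_Ici]
    have h3 : ∫ s in Ici a, f s = 0 := by rw [integral_Ici_eq_integral_Ioi, h a]
    rw [integral_eq_lintegral_pos_part_sub_lintegral_neg_part hf.integrableOn, sub_eq_zero] at h3
    have h4 : ∫⁻ s in Ici a, ENNReal.ofReal (f s) ≠ ⊤ :=
      ne_top_of_le_ne_top hfin1 (setLIntegral_le_lintegral _ _)
    have h5 : ∫⁻ s in Ici a, ENNReal.ofReal (-f s) ≠ ⊤ :=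
      ne_top_of_le_ne_top hfin2 (setLIntegral_le_lintegral _ _)
    exact (ENNReal.toReal_eq_toReal_iff' h4 h5).1 h3
  have h3 := (withDensity_eq_iff hm1 hm2 hfin1).1 hμ
  filter_upwards [h3] with s hs
  rcases le_total 0 (f s) with h4 | h4
  · have h5 : ENNReal.ofReal (-f s) = 0 := ENNReal.ofReal_of_nonpos (by linarith)
    have h6 : ENNReal.ofReal (f s) = 0 := by rw [hs, h5]
    exact le_antisymm (ENNReal.ofReal_eq_zero.1 h6) h4
  · have h5 : ENNReal.ofReal (f s) = 0 := ENNReal.ofReal_of_nonpos h4
    have h6 : ENNReal.ofReal (-f s) = 0 := by rw [← hs, h5]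
    have h7 := ENNReal.ofReal_eq_zero.1 h6
    show f s = 0
    linarith

theorem hasSum_one_sub (y : ℝ) :
    HasSum (fun j : ℕ => (-1) ^ j * y ^ (j + 1) / ((j + 1).factorial : ℝ)) (1 - Real.exp (-y)) := by
  have h1 : HasSum (fun j : ℕ => (-y) ^ j / (j.factorial : ℝ)) (Real.exp (-y)) := by
    rw [Real.exp_eq_exp_ℝ]
    exact NormedSpace.expSeries_div_hasSum_exp (-y)
  have h2 := (hasSum_nat_add_iff' (f := fun j : ℕ => (-y) ^ j / (j.factorial : ℝ)) 1).2 h1
  have h3 := h2.neg
  simp only [Finset.range_one, Finset.sum_singleton, pow_zero, Nat.factorial_zero, Nat.cast_one,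
    div_one, neg_sub] at h3
  have h4 : (fun b : ℕ => -((-y) ^ (b + 1) / ((b + 1).factorial : ℝ)))
      = fun j : ℕ => (-1) ^ j * y ^ (j + 1) / ((j + 1).factorial : ℝ) := by
    funext j
    rw [neg_pow y (j + 1), pow_succ (-1 : ℝ) j]
    ring
  rw [← h4]
  exact h3

theorem mik : MikStatement := by
  intro c F hc hF ⟨C, hC⟩
  set f : ℝ → ℝ := indicator (Ioc 0 c) F with hf
  have hFon : IntegrableOn F (Ioc 0 c) := (intervalIntegrable_iff_integrableOn_Ioc_of_le hc.le).1 hF
  have hfi : Integrable f := hFon.integrable_indicator measurableSet_Ioc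
  have hG : ∀ a : ℝ, ∫ s, Real.exp (a * s) * f s = ∫ s in (0 : ℝ)..c, Real.exp (a * s) * F s := by
    intro a
    rw [intervalIntegral.integral_of_le hc.le, ← integral_indicator measurableSet_Ioc]
    congr 1
    funext s
    by_cases hs : s ∈ Ioc 0 c
    · rw [hf, indicator_of_mem hs, indicator_of_mem hs]
    · rw [hf, indicator_of_notMem hs, indicator_of_notMem hs, mul_zero]
  have hC' : ∀ a : ℝ, 1 ≤ a → |∫ s, Real.exp (a * s) * f s| ≤ C := fun a ha => by
    rw [hG]; exact hC a ha
  have hC0 : 0 ≤ C := (abs_nonneg _).trans (hC' 1 le_rfl)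
  -- the tail integrals at positive points
  have key : ∀ x : ℝ, 0 < x → ∫ s in Ioi x, f s = 0 := by
    intro x hx
    -- first limit
    have hlim1 : Tendsto (fun n : ℕ => ∫ s, (1 - Real.exp (-Real.exp ((n + 1 : ℝ) * (s - x)))) * f s)
        atTop (𝓝 (∫ s, indicator (Ioi x) f s)) := by
      refine tendsto_integral_of_dominated_convergence (fun s => ‖f s‖) ?_ hfi.norm ?_ ?_
      · intro n
        refine AEStronglyMeasurable.mul ?_ hfi.1
        exact (by fun_prop : Continuous fun s : ℝ =>
          1 - Real.exp (-Real.exp ((n + 1 : ℝ) * (s - x)))).aestronglyMeasurable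
      · intro n
        filter_upwards with s
        rw [norm_mul]
        have h1 : 0 < Real.exp (-Real.exp ((n + 1 : ℝ) * (s - x))) := Real.exp_pos _
        have h2 : Real.exp (-Real.exp ((n + 1 : ℝ) * (s - x))) ≤ 1 :=
          Real.exp_le_one_iff.2 (by have := Real.exp_pos ((n + 1 : ℝ) * (s - x)); linarith)
        have h3 : ‖1 - Real.exp (-Real.exp ((n + 1 : ℝ) * (s - x)))‖ ≤ 1 := by
          rw [Real.norm_eq_abs, abs_le]; constructor <;> linarith
        calc _ ≤ 1 * ‖f s‖ := mul_le_mul_of_nonneg_right h3 (norm_nonneg _)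
          _ = ‖f s‖ := one_mul _
      · have hne : ∀ᵐ s : ℝ, s ≠ x := by
          have : volume ({x} : Set ℝ) = 0 := Real.volume_singleton
          rw [ae_iff]
          simpa using this
        filter_upwards [hne] with s hs
        rcases lt_or_gt_of_ne hs with h | h
        · rw [indicator_of_notMem (by simpa using h.le)]
          have h1 : Tendsto (fun n : ℕ => (n + 1 : ℝ) * (s - x)) atTop atBot := by
            refine Tendsto.atTop_mul_const_of_neg (by linarith) ?_
            exact tendsto_atTop_add_const_right _ _ tendsto_natCast_atTop_atTop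
          have h2 : Tendsto (fun n : ℕ => 1 - Real.exp (-Real.exp ((n + 1 : ℝ) * (s - x)))) atTop
              (𝓝 (1 - Real.exp (-0))) :=
            ((Real.continuous_exp.tendsto _).comp
              ((Real.tendsto_exp_atBot.comp h1).neg)).const_sub 1
          have h3 := h2.mul_const (f s)
          simpa using h3
        · rw [indicator_of_mem (by simpa using h)]
          have h1 : Tendsto (fun n : ℕ => (n + 1 : ℝ) * (s - x)) atTop atTop := by
            refine Tendsto.atTop_mul_const (by linarith) ?_
            exact tendsto_atTop_add_const_right _ _ tendsto_natCast_atTop_atTop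
          have h2 : Tendsto (fun n : ℕ => 1 - Real.exp (-Real.exp ((n + 1 : ℝ) * (s - x)))) atTop
              (𝓝 (1 - 0)) := by
            refine Tendsto.const_sub 1 ?_
            exact Real.tendsto_exp_atBot.comp
              (tendsto_neg_atTop_atBot.comp (Real.tendsto_exp_atTop.comp h1))
          have h3 := h2.mul_const (f s)
          simpa using h3
    -- second limit
    have hbd : ∀ n : ℕ, |∫ s, (1 - Real.exp (-Real.exp ((n + 1 : ℝ) * (s - x)))) * f s|
        ≤ C * (Real.exp (Real.exp (-((n + 1 : ℝ) * x))) - 1) := by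
      intro n
      set a : ℝ := n + 1 with ha
      have ha1 : 1 ≤ a := by rw [ha]; have := Nat.cast_nonneg (α := ℝ) n; linarith
      have hsum : ∀ s, HasSum (fun j : ℕ => (-1) ^ j * Real.exp (a * (s - x)) ^ (j + 1) /
          ((j + 1).factorial : ℝ) * f s) ((1 - Real.exp (-Real.exp (a * (s - x)))) * f s) :=
        fun s => (hasSum_one_sub _).mul_right _
      have hterm : ∀ (j : ℕ) (s : ℝ), (-1) ^ j * Real.exp (a * (s - x)) ^ (j + 1) /
          ((j + 1).factorial : ℝ) * f s = ((-1) ^ j * Real.exp (-(a * x)) ^ (j + 1) /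
          ((j + 1).factorial : ℝ)) * (Real.exp (((j + 1 : ℝ) * a) * s) * f s) := by
        intro j s
        rw [← Real.exp_nat_mul, ← Real.exp_nat_mul]
        have : Real.exp (((j + 1 : ℕ) : ℝ) * (a * (s - x)))
            = Real.exp (((j + 1 : ℕ) : ℝ) * -(a * x)) * Real.exp (((j + 1 : ℝ) * a) * s) := by
          rw [← Real.exp_add]; congr 1; push_cast; ring
        rw [this]; ring
      have hint0 : ∀ b : ℝ, 0 ≤ b → Integrable fun s => Real.exp (b * s) * f s := by
        intro b hb
        refine Integrable.mono' (hfi.norm.const_mul (Real.exp (b * c))) ?_ ?_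
        · exact (by fun_prop : Continuous fun s : ℝ => Real.exp (b * s)).aestronglyMeasurable.mul
            hfi.1
        · filter_upwards with s
          by_cases hs : s ∈ Ioc 0 c
          · rw [norm_mul, Real.norm_eq_abs, abs_of_pos (Real.exp_pos _)]
            exact mul_le_mul_of_nonneg_right (Real.exp_le_exp.2
              (mul_le_mul_of_nonneg_left hs.2 hb)) (norm_nonneg _)
          · rw [hf, indicator_of_notMem hs]; simp
      have hnorm : ∀ b : ℝ, 0 ≤ b → ∫ s, ‖Real.exp (b * s) * f s‖
          ≤ Real.exp (b * c) * ∫ s, ‖f s‖ := by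
        intro b hb
        rw [← integral_const_mul]
        refine integral_mono (hint0 b hb).norm (hfi.norm.const_mul _) fun s => ?_
        by_cases hs : s ∈ Ioc 0 c
        · show ‖Real.exp (b * s) * f s‖ ≤ _
          rw [norm_mul, Real.norm_eq_abs, abs_of_pos (Real.exp_pos _)]
          exact mul_le_mul_of_nonneg_right (Real.exp_le_exp.2
            (mul_le_mul_of_nonneg_left hs.2 hb)) (norm_nonneg _)
        · show ‖Real.exp (b * s) * f s‖ ≤ _
          rw [hf, indicator_of_notMem hs]; simp
      have hHS := hasSum_integral_of_summable_integral_norm (μ := volume)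
        (F := fun (j : ℕ) (s : ℝ) => (-1) ^ j * Real.exp (a * (s - x)) ^ (j + 1) /
          ((j + 1).factorial : ℝ) * f s) (fun j => by
            simp only [hterm]
            exact (hint0 _ (by positivity)).const_mul _) (by
            have hs1 : Summable fun j : ℕ => (Real.exp (-(a * x)) * Real.exp (a * c)) ^ (j + 1) /
                ((j + 1).factorial : ℝ) * ∫ s, ‖f s‖ := by
              refine Summable.mul_right _ ?_
              exact (summable_nat_add_iff 1).2 (Real.summable_pow_div_factorial _)
            refine Summable.of_nonneg_of_le (fun j => integral_nonneg fun s => norm_nonneg _)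
              (fun j => ?_) hs1
            simp only [hterm, norm_mul (((-1 : ℝ) ^ j * Real.exp (-(a * x)) ^ (j + 1) /
              ((j + 1).factorial : ℝ)))]
            rw [integral_const_mul]
            have h1 := hnorm ((j + 1 : ℝ) * a) (by positivity)
            have h2 : ‖(-1 : ℝ) ^ j * Real.exp (-(a * x)) ^ (j + 1) / ((j + 1).factorial : ℝ)‖
                = Real.exp (-(a * x)) ^ (j + 1) / ((j + 1).factorial : ℝ) := by
              rw [norm_div, norm_mul, norm_pow, norm_neg, norm_one, one_pow, one_mul,
                Real.norm_of_nonneg (by positivity), Real.norm_of_nonneg (by positivity)]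
            rw [h2]
            calc _ ≤ Real.exp (-(a * x)) ^ (j + 1) / ((j + 1).factorial : ℝ) *
                  (Real.exp ((j + 1 : ℝ) * a * c) * ∫ s, ‖f s‖) :=
                  mul_le_mul_of_nonneg_left h1 (by positivity)
              _ = _ := by
                have : Real.exp ((j + 1 : ℝ) * a * c) = Real.exp (a * c) ^ (j + 1) := by
                  rw [← Real.exp_nat_mul]; congr 1; push_cast; ring
                rw [this, mul_pow]; ring)
      have h5 : ∫ s, ∑' j : ℕ, (-1) ^ j * Real.exp (a * (s - x)) ^ (j + 1) /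
          ((j + 1).factorial : ℝ) * f s = ∫ s, (1 - Real.exp (-Real.exp (a * (s - x)))) * f s := by
        congr 1; funext s; exact (hsum s).tsum_eq
      rw [h5] at hHS
      have hmaj : HasSum (fun j : ℕ => C * (Real.exp (-(a * x)) ^ (j + 1) /
          ((j + 1).factorial : ℝ))) (C * (Real.exp (Real.exp (-(a * x))) - 1)) := by
        refine HasSum.mul_left _ ?_
        have h6 : HasSum (fun j : ℕ => Real.exp (-(a * x)) ^ j / (j.factorial : ℝ))
            (Real.exp (Real.exp (-(a * x)))) := by
          have h6' := NormedSpace.expSeries_div_hasSum_exp (𝔸 := ℝ) (Real.exp (-(a * x)))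
          rwa [← Real.exp_eq_exp_ℝ] at h6'
        have h7 := (hasSum_nat_add_iff' (f := fun j : ℕ => Real.exp (-(a * x)) ^ j /
          (j.factorial : ℝ)) 1).2 h6
        simpa using h7
      rw [← Real.norm_eq_abs]
      refine hHS.norm_le_of_bounded hmaj fun j => ?_
      simp only [hterm]
      rw [integral_const_mul, norm_mul, norm_div, norm_mul, norm_pow, norm_neg, norm_one, one_pow,
        one_mul, Real.norm_of_nonneg (by positivity : (0:ℝ) ≤ Real.exp (-(a * x)) ^ (j + 1)),
        Real.norm_of_nonneg (by positivity : (0:ℝ) ≤ ((j + 1).factorial : ℝ)), mul_comm C]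
      refine mul_le_mul_of_nonneg_left ?_ (by positivity)
      rw [Real.norm_eq_abs]
      refine hC' _ ?_
      have := Nat.cast_nonneg (α := ℝ) j
      nlinarith
    have hlim2 : Tendsto (fun n : ℕ => ∫ s, (1 - Real.exp (-Real.exp ((n + 1 : ℝ) * (s - x)))) * f s)
        atTop (𝓝 0) := by
      rw [tendsto_zero_iff_abs_tendsto_zero]
      refine squeeze_zero (fun n => abs_nonneg _) hbd ?_
      have h1 : Tendsto (fun n : ℕ => -((n + 1 : ℝ) * x)) atTop atBot := by
        refine tendsto_neg_atTop_atBot.comp ?_
        refine Tendsto.atTop_mul_const hx ?_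
        exact tendsto_atTop_add_const_right _ _ tendsto_natCast_atTop_atTop
      have h2 : Tendsto (fun n : ℕ => C * (Real.exp (Real.exp (-((n + 1 : ℝ) * x))) - 1)) atTop
          (𝓝 (C * (Real.exp 0 - 1))) :=
        (((Real.continuous_exp.tendsto _).comp (Real.tendsto_exp_atBot.comp h1)).sub_const 1).const_mul C
      rw [Real.exp_zero, sub_self, mul_zero] at h2
      exact h2
    have h8 := tendsto_nhds_unique hlim1 hlim2
    rwa [integral_indicator measurableSet_Ioi] at h8
  -- all tail integrals
  have key0 : ∫ s in Ioi (0 : ℝ), f s = 0 := by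
    have h1 : Tendsto (fun n : ℕ => ∫ s, indicator (Ioi (1 / (n + 1 : ℝ))) f s) atTop
        (𝓝 (∫ s, indicator (Ioi 0) f s)) := by
      refine tendsto_integral_of_dominated_convergence (fun s => ‖f s‖) ?_ hfi.norm ?_ ?_
      · exact fun n => hfi.1.indicator measurableSet_Ioi
      · exact fun n => Eventually.of_forall fun s => norm_indicator_le_norm_self _ _
      · filter_upwards with s
        by_cases hs : 0 < s
        · rw [indicator_of_mem (show s ∈ Ioi 0 from hs)]
          refine tendsto_const_nhds.congr' ?_
          have h2 := (tendsto_one_div_add_atTop_nhds_zero_nat (𝕜 := ℝ)).eventually (gt_mem_nhds hs)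
          filter_upwards [h2] with n hn
          rw [indicator_of_mem (show s ∈ Ioi (1 / (n + 1 : ℝ)) from hn)]
        · rw [indicator_of_notMem (show s ∉ Ioi 0 from hs)]
          refine tendsto_const_nhds.congr fun n => ?_
          rw [indicator_of_notMem]
          intro h
          have h3 : (0 : ℝ) < 1 / (n + 1 : ℝ) := by positivity
          exact hs (h3.trans h)
    have h2 : ∀ n : ℕ, ∫ s, indicator (Ioi (1 / (n + 1 : ℝ))) f s = 0 := fun n => by
      rw [integral_indicator measurableSet_Ioi]; exact key _ (by positivity)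
    simp only [h2] at h1
    rw [← integral_indicator measurableSet_Ioi]
    exact tendsto_nhds_unique h1 tendsto_const_nhds
  have keyall : ∀ x : ℝ, ∫ s in Ioi x, f s = 0 := by
    intro x
    rcases lt_or_ge 0 x with hx | hx
    · exact key x hx
    · rw [← key0, ← integral_indicator measurableSet_Ioi, ← integral_indicator measurableSet_Ioi]
      congr 1
      funext s
      by_cases hs : 0 < s
      · rw [indicator_of_mem (show s ∈ Ioi x from lt_of_le_of_lt hx hs),
          indicator_of_mem (show s ∈ Ioi 0 from hs)]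
      · rw [indicator_of_notMem (show s ∉ Ioi 0 from hs)]
        by_cases hs' : s ∈ Ioi x
        · rw [indicator_of_mem hs', hf, indicator_of_notMem (fun h => hs h.1)]
        · rw [indicator_of_notMem hs']
  filter_upwards [ae_zero_of_tail hfi keyall] with s hs h0 h1
  have h2 : f s = F s := by rw [hf, indicator_of_mem (show s ∈ Ioc 0 c from ⟨h0, h1.le⟩)]
  rw [← h2]; exact hs

end Pool.Agent.H16F.H67
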