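import Mathlib

/-!
BR, part 2: functional calculus of bounded operators.
-/

namespace Pool.Agent.H16F.H67

open Filter Topology MeasureTheory
open scoped InnerProductSpace

/-! ### The functions `exp (-t / r)` -/

/-- `exp (-t / r)` for positive `r`, and `0` otherwise -/
noncomputable def ev (t r : ℝ) : ℝ := if r ≤ 0 then 0 else Real.exp (-(t / r))

theorem ev_nonneg (t r : ℝ) : 0 ≤ ev t r := by
  unfold ev
  split_ifs
  · exact le_rfl
  · exact (Real.exp_pos _).le

theorem ev_le {t : ℝ} (ht : 0 < t) (r : ℝ) : ev t r ≤ |r| / t := by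
  unfold ev
  split_ifs with h
  · positivity
  · push Not at h
    rw [abs_of_pos h]
    have h1 : t / r + 1 ≤ Real.exp (t / r) := Real.add_one_le_exp _
    have h2 : t / r ≤ Real.exp (t / r) := by linarith
    rw [Real.exp_neg]
    have h3 : 0 < t / r := by positivity
    calc (Real.exp (t / r))⁻¹ ≤ (t / r)⁻¹ := inv_anti₀ h3 h2
      _ = r / t := inv_div t r

theorem ev_cont : ContinuousOn (Function.uncurry ev) (Set.Ioi (0 : ℝ) ×ˢ Set.univ) := by
  intro p hp
  obtain ⟨t, r⟩ := p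
  have ht : 0 < t := hp.1
  rcases lt_trichotomy r 0 with hr | hr | hr
  · have : Function.uncurry ev =ᶠ[𝓝 (t, r)] fun _ => 0 := by
      have h1 : ∀ᶠ p : ℝ × ℝ in 𝓝 (t, r), p.2 < 0 :=
        continuous_snd.continuousAt.eventually_lt continuousAt_const hr
      filter_upwards [h1] with p hp
      simp [Function.uncurry, ev, hp.le]
    exact (this.continuousAt).continuousWithinAt
  · subst hr
    have h1 : Tendsto (fun p : ℝ × ℝ => |p.2| / p.1) (𝓝 (t, 0)) (𝓝 0) := by
      have : ContinuousAt (fun p : ℝ × ℝ => |p.2| / p.1) (t, 0) :=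
        (continuous_snd.abs.continuousAt).div continuous_fst.continuousAt ht.ne'
      have h2 := this.tendsto
      simpa using h2
    have h0 : Function.uncurry ev (t, 0) = 0 := by simp [Function.uncurry, ev]
    have h3 : ContinuousAt (Function.uncurry ev) (t, 0) := by
      rw [ContinuousAt, h0]
      refine squeeze_zero' (Eventually.of_forall fun p => ev_nonneg _ _) ?_ h1
      have h4 : ∀ᶠ p : ℝ × ℝ in 𝓝 (t, 0), 0 < p.1 :=
        continuousAt_const.eventually_lt continuous_fst.continuousAt ht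
      filter_upwards [h4] with p hp
      exact ev_le hp p.2
    exact h3.continuousWithinAt
  · have : Function.uncurry ev =ᶠ[𝓝 (t, r)] fun p => Real.exp (-(p.1 / p.2)) := by
      have h1 : ∀ᶠ p : ℝ × ℝ in 𝓝 (t, r), 0 < p.2 :=
        continuousAt_const.eventually_lt continuous_snd.continuousAt hr
      filter_upwards [h1] with p hp
      simp [Function.uncurry, ev, not_le.2 hp]
    have h2 : ContinuousAt (fun p : ℝ × ℝ => Real.exp (-(p.1 / p.2))) (t, r) :=
      ((continuous_fst.continuousAt.div continuous_snd.continuousAt hr.ne').neg).rexp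
    exact (h2.congr this.symm).continuousWithinAt

theorem ev_cont' {t : ℝ} (ht : 0 < t) (s : Set ℝ) : ContinuousOn (ev t) s := by
  have h1 : ContinuousOn (fun r : ℝ => (t, r)) s := by fun_prop
  exact ev_cont.comp h1 fun r _ => ⟨ht, Set.mem_univ _⟩

theorem ev_integral {r : ℝ} (hr : 0 ≤ r) : ∫ t in Set.Ioi (0 : ℝ), ev t r = r := by
  rcases hr.eq_or_lt with h | h
  · subst h
    simp [ev]
  · have e : ∀ t, ev t r = Real.exp (-(1 / r) * t) := by
      intro t
      simp only [ev, not_le.2 h, if_false]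
      congr 1
      ring
    simp_rw [e]
    rw [integral_exp_mul_Ioi (by rw [neg_lt_zero]; positivity)]
    simp

variable {H : Type*} [NormedAddCommGroup H] [InnerProductSpace ℂ H] [CompleteSpace H]

theorem spec_mem {T : H →L[ℂ] H} (h0 : 0 ≤ T) {c : ℝ} (hc : ‖T‖ ≤ c) {x : ℝ}
    (hx : x ∈ spectrum ℝ T) : x ∈ Set.Icc 0 c := by
  have h1 : 0 ≤ x := spectrum_nonneg_of_nonneg h0 hx
  refine ⟨h1, ?_⟩
  have h2 := spectrum.norm_le_norm_mul_of_mem hx
  rw [Real.norm_of_nonneg h1] at h2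
  have h3 : ‖(1 : H →L[ℂ] H)‖ ≤ 1 := ContinuousLinearMap.norm_id_le
  calc x ≤ ‖T‖ * ‖(1 : H →L[ℂ] H)‖ := h2
    _ ≤ ‖T‖ * 1 := mul_le_mul_of_nonneg_left h3 (norm_nonneg _)
    _ ≤ c := by rw [mul_one]; exact hc

theorem sa_of_nonneg {T : H →L[ℂ] H} (h0 : 0 ≤ T) : IsSelfAdjoint T := IsSelfAdjoint.of_nonneg h0

/-- Cauchy-Schwarz for a positive operator -/
theorem pos_cs {T : H →L[ℂ] H} (h0 : 0 ≤ T) {c : ℝ} (hc : ‖T‖ ≤ c) (f : H) :
    ‖T f‖ ^ 2 ≤ c * (⟪f, T f⟫_ℂ).re := by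
  have hsa := sa_of_nonneg h0
  have h1 : T * T ≤ c • T := by
    have e1 : T * T = cfc (fun x : ℝ => x * x) T := by
      rw [cfc_mul (fun x : ℝ => x) (fun x : ℝ => x) T, cfc_id' ℝ T]
    have e2 : c • T = cfc (fun x : ℝ => c * x) T := by
      rw [cfc_const_mul c (fun x : ℝ => x) T, cfc_id' ℝ T]
    rw [e1, e2]
    refine cfc_mono (fun x hx => ?_)
    have := spec_mem h0 hc hx
    exact mul_le_mul_of_nonneg_right this.2 this.1
  rw [ContinuousLinearMap.le_def] at h1
  have h2 := h1.re_inner_nonneg_right f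
  rw [sub_apply, inner_sub_right, map_sub] at h2
  have e3 : ⟪f, (T * T) f⟫_ℂ = ⟪T f, T f⟫_ℂ := by
    have := (ContinuousLinearMap.isSelfAdjoint_iff_isSymmetric.1 hsa) f (T f)
    exact this.symm
  have e4 : RCLike.re ⟪f, (c • T) f⟫_ℂ = c * (⟪f, T f⟫_ℂ).re := by
    rw [smul_apply, ← Complex.coe_smul, inner_smul_right]
    simp
  rw [e3, e4, inner_self_eq_norm_sq] at h2
  linarith

theorem re_mono {T S : H →L[ℂ] H} (h : T ≤ S) (f : H) : (⟪f, T f⟫_ℂ).re ≤ (⟪f, S f⟫_ℂ).re := by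
  rw [ContinuousLinearMap.le_def] at h
  have h2 := h.re_inner_nonneg_right f
  rw [sub_apply, inner_sub_right, map_sub] at h2
  simpa using h2

theorem isPos_of_tendsto {T : ℕ → H →L[ℂ] H} {S : H →L[ℂ] H} (h0 : ∀ m, 0 ≤ T m)
    (h : ∀ f, Tendsto (fun m => T m f) atTop (𝓝 (S f))) : 0 ≤ S := by
  rw [ContinuousLinearMap.nonneg_iff_isPositive, ContinuousLinearMap.isPositive_def']
  constructor
  · rw [ContinuousLinearMap.isSelfAdjoint_iff_isSymmetric]
    intro f g
    show ⟪S f, g⟫_ℂ = ⟪f, S g⟫_ℂ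
    have h1 : Tendsto (fun m => ⟪T m f, g⟫_ℂ) atTop (𝓝 ⟪S f, g⟫_ℂ) :=
      (h f).inner tendsto_const_nhds
    have h2 : Tendsto (fun m => ⟪f, T m g⟫_ℂ) atTop (𝓝 ⟪f, S g⟫_ℂ) :=
      tendsto_const_nhds.inner (h g)
    refine tendsto_nhds_unique h1 (h2.congr fun m => ?_)
    exact ((ContinuousLinearMap.isSelfAdjoint_iff_isSymmetric.1 (sa_of_nonneg (h0 m))) f g).symm
  · intro f
    have h1 : Tendsto (fun m => (T m).reApplyInnerSelf f) atTop (𝓝 (S.reApplyInnerSelf f)) := by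
      simp only [ContinuousLinearMap.reApplyInnerSelf_apply]
      exact (RCLike.continuous_re.tendsto _).comp ((h f).inner tendsto_const_nhds)
    refine ge_of_tendsto' h1 fun m => ?_
    exact ((ContinuousLinearMap.nonneg_iff_isPositive _).1 (h0 m)).re_inner_nonneg_left f

theorem norm_of_tendsto {T : ℕ → H →L[ℂ] H} {S : H →L[ℂ] H} {c : ℝ} (hc0 : 0 ≤ c)
    (hc : ∀ m, ‖T m‖ ≤ c) (h : ∀ f, Tendsto (fun m => T m f) atTop (𝓝 (S f))) : ‖S‖ ≤ c := by
  refine ContinuousLinearMap.opNorm_le_bound _ hc0 fun f => ?_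
  refine le_of_tendsto' (h f).norm fun m => ?_
  exact ((T m).le_opNorm f).trans (mul_le_mul_of_nonneg_right (hc m) (norm_nonneg _))

/-- decreasing sequences of positive operators converge strongly -/
theorem strong_limit {R : ℕ → H →L[ℂ] H} {c : ℝ} (h0 : ∀ m, 0 ≤ R m)
    (hle : ∀ m, R (m + 1) ≤ R m) (hc : ∀ m, ‖R m‖ ≤ c) :
    ∃ S : H →L[ℂ] H, (∀ f, Tendsto (fun m => R m f) atTop (𝓝 (S f))) ∧ 0 ≤ S ∧ ‖S‖ ≤ c := by
  have hc0 : 0 ≤ c := (norm_nonneg _).trans (hc 0)
  have hanti : Antitone R := antitone_nat_of_succ_le hle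
  have hlim : ∀ f, ∃ g, Tendsto (fun m => R m f) atTop (𝓝 g) := by
    intro f
    let a : ℕ → ℝ := fun m => (⟪f, R m f⟫_ℂ).re
    have ha : Antitone a := fun m n hmn => re_mono (hanti hmn) f
    have hb : BddBelow (Set.range a) := by
      refine ⟨0, ?_⟩
      rintro _ ⟨m, rfl⟩
      exact ((ContinuousLinearMap.nonneg_iff_isPositive _).1 (h0 m)).re_inner_nonneg_right f
    have hta := tendsto_atTop_ciInf ha hb
    have hge : ∀ m, (⨅ n, a n) ≤ a m := fun m => ciInf_le hb m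
    have hcs : CauchySeq fun m => R m f := by
      refine cauchySeq_of_le_tendsto_0' (fun m => Real.sqrt (c * (a m - ⨅ n, a n))) ?_ ?_
      · intro m n hmn
        rw [dist_eq_norm]
        apply Real.le_sqrt_of_sq_le
        have hd : 0 ≤ R m - R n := sub_nonneg.2 (hanti hmn)
        have hdn : ‖R m - R n‖ ≤ c := by
          refine (CStarAlgebra.norm_le_norm_of_nonneg_of_le hd ?_).trans (hc m)
          exact sub_le_self _ (h0 n)
        have h1 := pos_cs hd hdn f
        have h2 : (R m - R n) f = R m f - R n f := rfl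
        rw [h2, inner_sub_right, Complex.sub_re] at h1
        refine h1.trans (mul_le_mul_of_nonneg_left ?_ hc0)
        have := hge n
        simp only [a] at *
        linarith
      · have h1 : Tendsto (fun m => Real.sqrt (c * (a m - ⨅ n, a n))) atTop
            (𝓝 (Real.sqrt (c * ((⨅ n, a n) - ⨅ n, a n)))) :=
          (Real.continuous_sqrt.tendsto _).comp ((hta.sub_const _).const_mul c)
        simpa using h1
    exact cauchySeq_tendsto_of_complete hcs
  choose g hg using hlim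
  have hpi : Tendsto (fun m f => R m f) atTop (𝓝 g) := tendsto_pi_nhds.2 hg
  refine ⟨continuousLinearMapOfTendsto R hpi, hg, ?_, ?_⟩
  · exact isPos_of_tendsto h0 hg
  · exact norm_of_tendsto hc0 hc hg

/-- strong convergence of the powers -/
theorem pow_tendsto {T : ℕ → H →L[ℂ] H} {S : H →L[ℂ] H} {c : ℝ}
    (hc : ∀ m, ‖T m‖ ≤ c) (h : ∀ f, Tendsto (fun m => T m f) atTop (𝓝 (S f))) (k : ℕ) :
    ∀ f, Tendsto (fun m => (T m ^ k) f) atTop (𝓝 ((S ^ k) f)) := by
  induction k with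
  | zero => intro f; simpa using tendsto_const_nhds
  | succ k ih =>
    intro f
    have h1 : ∀ U : H →L[ℂ] H, (U ^ (k + 1)) f = U ((U ^ k) f) := fun U => by
      rw [pow_succ']; rfl
    simp_rw [h1]
    have h2 : Tendsto (fun m => T m ((T m ^ k) f - (S ^ k) f)) atTop (𝓝 0) := by
      have h3 : Tendsto (fun m => c * ‖(T m ^ k) f - (S ^ k) f‖) atTop (𝓝 0) := by
        have h4 := ((ih f).sub_const ((S ^ k) f)).norm.const_mul c
        simpa using h4
      refine squeeze_zero_norm (fun m => ?_) h3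
      exact ((T m).le_opNorm _).trans (mul_le_mul_of_nonneg_right (hc m) (norm_nonneg _))
    have h5 := h2.add (h ((S ^ k) f))
    rw [zero_add] at h5
    refine h5.congr fun m => ?_
    rw [map_sub]
    abel

theorem poly_tendsto {T : ℕ → H →L[ℂ] H} {S : H →L[ℂ] H} {c : ℝ}
    (hc : ∀ m, ‖T m‖ ≤ c) (h : ∀ f, Tendsto (fun m => T m f) atTop (𝓝 (S f)))
    (p : Polynomial ℝ) (f : H) :
    Tendsto (fun m => (Polynomial.aeval (T m) p) f) atTop (𝓝 ((Polynomial.aeval S p) f)) := by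
  have h1 : ∀ U : H →L[ℂ] H, (Polynomial.aeval U p) f =
      ∑ i ∈ Finset.range (p.natDegree + 1), p.coeff i • (U ^ i) f := by
    intro U
    rw [Polynomial.aeval_eq_sum_range]
    simp
  simp_rw [h1]
  exact tendsto_finsetSum _ fun i _ => (pow_tendsto hc h i f).const_smul _

/-- strong convergence of the functional calculus -/
theorem cfc_tendsto {T : ℕ → H →L[ℂ] H} {S : H →L[ℂ] H} {c : ℝ} (h0 : ∀ m, 0 ≤ T m)
    (hc : ∀ m, ‖T m‖ ≤ c) (h : ∀ f, Tendsto (fun m => T m f) atTop (𝓝 (S f)))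
    {g : ℝ → ℝ} (hg : ContinuousOn g (Set.Icc 0 c)) (f : H) :
    Tendsto (fun m => cfc g (T m) f) atTop (𝓝 (cfc g S f)) := by
  have hc0 : 0 ≤ c := (norm_nonneg _).trans (hc 0)
  have hS0 : 0 ≤ S := isPos_of_tendsto h0 h
  have hSc : ‖S‖ ≤ c := norm_of_tendsto hc0 hc h
  have key : ∀ (ε : ℝ), 0 < ε → ∃ p : Polynomial ℝ, ∀ U : H →L[ℂ] H, 0 ≤ U → ‖U‖ ≤ c →
      ‖cfc g U - Polynomial.aeval U p‖ ≤ ε := by
    intro ε hε
    obtain ⟨p, hp⟩ := exists_polynomial_near_of_continuousOn 0 c g hg ε hε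
    refine ⟨p, fun U hU0 hUc => ?_⟩
    have hsa := sa_of_nonneg hU0
    have hgc : ContinuousOn g (spectrum ℝ U) := hg.mono fun x hx => spec_mem hU0 hUc hx
    rw [← cfc_polynomial p U hsa, ← cfc_sub g p.eval U hgc (by fun_prop)]
    refine norm_cfc_le hε.le fun x hx => ?_
    rw [Real.norm_eq_abs, abs_sub_comm]
    exact (hp x (spec_mem hU0 hUc hx)).le
  rw [Metric.tendsto_atTop]
  intro ε hε
  obtain ⟨p, hp⟩ := key (ε / (4 * (‖f‖ + 1))) (by positivity)
  have h1 := Metric.tendsto_atTop.1 (poly_tendsto hc h p f) (ε / 4) (by positivity)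
  obtain ⟨N, hN⟩ := h1
  refine ⟨N, fun m hm => ?_⟩
  have hb : ∀ U : H →L[ℂ] H, 0 ≤ U → ‖U‖ ≤ c →
      ‖cfc g U f - Polynomial.aeval U p f‖ ≤ ε / 4 := by
    intro U hU0 hUc
    have h2 : cfc g U f - Polynomial.aeval U p f = (cfc g U - Polynomial.aeval U p) f := rfl
    rw [h2]
    refine ((cfc g U - Polynomial.aeval U p).le_opNorm f).trans ?_
    refine (mul_le_mul_of_nonneg_right (hp U hU0 hUc) (norm_nonneg _)).trans ?_
    rw [div_mul_eq_mul_div, div_le_div_iff₀ (by positivity) (by norm_num)]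
    linarith only [hε, norm_nonneg f]
  have e1 := hb (T m) (h0 m) (hc m)
  have e2 := hb S hS0 hSc
  have e3 := hN m hm
  rw [dist_eq_norm] at e3 ⊢
  have e4 : cfc g (T m) f - cfc g S f =
      (cfc g (T m) f - Polynomial.aeval (T m) p f) +
      (Polynomial.aeval (T m) p f - Polynomial.aeval S p f) -
      (cfc g S f - Polynomial.aeval S p f) := by abel
  rw [e4]
  refine (norm_sub_le _ _).trans_lt ?_
  have e5 := norm_add_le (cfc g (T m) f - Polynomial.aeval (T m) p f)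
    (Polynomial.aeval (T m) p f - Polynomial.aeval S p f)
  linarith

/-! ### Powers and exponentials -/

theorem pow_sub_pow_le' {a x : ℝ} (hx : 0 ≤ x) (hxa : x ≤ a) (n : ℕ) :
    a ^ (n + 1) - x ^ (n + 1) ≤ (n + 1) * a ^ n * (a - x) := by
  induction n with
  | zero => simp
  | succ n ih =>
    have ha : 0 ≤ a := hx.trans hxa
    have h1 : x ^ (n + 1) ≤ a ^ (n + 1) := pow_le_pow_left₀ hx hxa _
    have h2 : a * (a ^ (n + 1) - x ^ (n + 1)) ≤ a * ((n + 1) * a ^ n * (a - x)) :=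
      mul_le_mul_of_nonneg_left ih ha
    have h3 : (a - x) * x ^ (n + 1) ≤ (a - x) * a ^ (n + 1) :=
      mul_le_mul_of_nonneg_left h1 (by linarith)
    push_cast
    calc a ^ (n + 1 + 1) - x ^ (n + 1 + 1)
        = a * (a ^ (n + 1) - x ^ (n + 1)) + (a - x) * x ^ (n + 1) := by ring
      _ ≤ a * ((n + 1) * a ^ n * (a - x)) + (a - x) * a ^ (n + 1) := add_le_add h2 h3
      _ = _ := by ring

theorem exp_sub_pow {x : ℝ} (h0 : 0 ≤ x) (h1 : x ≤ 1) (n : ℕ) :
    |x ^ (n + 2) - Real.exp (-((n + 2 : ℕ) * (1 - x)))| ≤ (n + 2) / (n + 1) ^ 2 := by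
  set y := 1 - x with hy
  have hy0 : 0 ≤ y := by linarith
  have hy1 : y ≤ 1 := by linarith
  have hxy : x = 1 - y := by linarith
  set a := Real.exp (-y) with ha
  have ha1 : x ≤ a := by
    have := Real.add_one_le_exp (-y)
    rw [hxy]; linarith
  have ha0 : 0 < a := Real.exp_pos _
  have hale : a ≤ 1 := Real.exp_le_one_iff.2 (by linarith)
  have hdiff : a - x ≤ y ^ 2 / 2 := by
    have h2 := Real.quadratic_le_exp_of_nonneg hy0
    have h3 : a ≤ (1 + y + y ^ 2 / 2)⁻¹ := by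
      rw [ha, Real.exp_neg]
      exact inv_anti₀ (by positivity) h2
    have h4 : (1 + y + y ^ 2 / 2)⁻¹ ≤ 1 - y + y ^ 2 / 2 := by
      rw [inv_le_iff_one_le_mul₀ (by positivity)]
      linarith only [sq_nonneg (y ^ 2)]
    linarith only [h3, h4]
  have e1 : Real.exp (-((n + 2 : ℕ) * y)) = a ^ (n + 2) := by
    rw [ha, ← Real.exp_nat_mul]
    congr 1
    ring
  rw [e1, abs_sub_comm, abs_of_nonneg (sub_nonneg.2 (pow_le_pow_left₀ h0 ha1 _))]
  have e2 : a ^ (n + 2) - x ^ (n + 2) ≤ (n + 2) * a ^ (n + 1) * (a - x) := by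
    have := pow_sub_pow_le' h0 ha1 (n + 1)
    push_cast at this
    linarith
  have e3 : a ^ (n + 1) * y ^ 2 ≤ 2 / (n + 1) ^ 2 := by
    have h5 : 0 ≤ ((n : ℝ) + 1) * y := by positivity
    have h2 := Real.quadratic_le_exp_of_nonneg h5
    have h3 : a ^ (n + 1) = (Real.exp (((n : ℝ) + 1) * y))⁻¹ := by
      rw [ha, ← Real.exp_nat_mul, ← Real.exp_neg]
      congr 1
      push_cast
      ring
    rw [h3, inv_mul_eq_div, div_le_div_iff₀ (Real.exp_pos _) (by positivity)]
    linarith only [h5, h2]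
  calc a ^ (n + 2) - x ^ (n + 2) ≤ (n + 2) * a ^ (n + 1) * (a - x) := e2
    _ ≤ (n + 2) * a ^ (n + 1) * (y ^ 2 / 2) := by gcongr
    _ = (n + 2) / 2 * (a ^ (n + 1) * y ^ 2) := by ring
    _ ≤ (n + 2) / 2 * (2 / (n + 1) ^ 2) := by gcongr
    _ = _ := by ring


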