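import Pool.Agent.Helper67_Fine.Abs

/-!
BR, part 3: resolvents of the forms given by a sequence of contractions, and their limit.
-/

namespace Pool.Agent.H16F.H67

open Filter Topology MeasureTheory
open scoped InnerProductSpace

variable {H : Type*} [NormedAddCommGroup H] [InnerProductSpace ℂ H] [CompleteSpace H]

/-- a projection and a sequence of iterated square roots -/
structure Sys (P : H →L[ℂ] H) (Q : ℕ → H →L[ℂ] H) : Prop where
  saP : IsSelfAdjoint P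
  idP : P * P = P
  saQ : ∀ m, IsSelfAdjoint (Q m)
  sq : ∀ m, Q (m + 1) * Q (m + 1) = Q m
  nm : ∀ m, ‖Q m‖ ≤ 1

section
variable {P : H →L[ℂ] H} {Q : ℕ → H →L[ℂ] H}

theorem one_sub_P (h : Sys P Q) : 0 ≤ 1 - P := by
  have e : 1 - P = star (1 - P) * (1 - P) := by
    rw [star_sub, star_one, h.saP.star_eq, mul_sub, sub_mul, sub_mul, one_mul, mul_one, h.idP]
    simp
  rw [e]
  exact star_mul_self_nonneg _

theorem Q_nonneg (h : Sys P Q) (m : ℕ) : 0 ≤ Q m := by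
  rw [← h.sq m]
  nth_rewrite 1 [← (h.saQ (m + 1)).star_eq]
  exact star_mul_self_nonneg _

theorem Q_le (h : Sys P Q) (m : ℕ) : Q m ≤ 1 :=
  (CStarAlgebra.norm_le_one_iff_of_nonneg (Q m) (Q_nonneg h m)).1 (h.nm m)

/-- the compressed operators -/
def Fo (P : H →L[ℂ] H) (Q : ℕ → H →L[ℂ] H) (m : ℕ) : H →L[ℂ] H := P * Q m * P

theorem F_nonneg (h : Sys P Q) (m : ℕ) : 0 ≤ Fo P Q m := h.saP.conjugate_nonneg (Q_nonneg h m)

theorem F_le (h : Sys P Q) (m : ℕ) : Fo P Q m ≤ 1 := by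
  have h1 : P * Q m * P ≤ P * 1 * P := h.saP.conjugate_le_conjugate (Q_le h m)
  rw [mul_one, h.idP] at h1
  exact h1.trans (sub_nonneg.1 (one_sub_P h))

theorem F_norm (h : Sys P Q) (m : ℕ) : ‖Fo P Q m‖ ≤ 1 :=
  (CStarAlgebra.norm_le_one_iff_of_nonneg _ (F_nonneg h m)).2 (F_le h m)

theorem F_step (h : Sys P Q) (m : ℕ) : Fo P Q (m + 1) + Fo P Q (m + 1) ≤ 1 + Fo P Q m := by
  rw [← sub_nonneg]
  have e : 1 + Fo P Q m - (Fo P Q (m + 1) + Fo P Q (m + 1)) =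
      (1 - P) + star ((1 - Q (m + 1)) * P) * ((1 - Q (m + 1)) * P) := by
    rw [star_mul, star_sub, star_one, h.saP.star_eq, (h.saQ (m + 1)).star_eq]
    unfold Fo
    rw [← h.sq m]
    have e1 : P * (1 - Q (m + 1)) * ((1 - Q (m + 1)) * P) =
        P * P - P * Q (m + 1) * P - P * Q (m + 1) * P + P * (Q (m + 1) * Q (m + 1)) * P := by
      noncomm_ring
    rw [e1, h.idP]
    abel
  rw [e]
  exact add_nonneg (one_sub_P h) (star_mul_self_nonneg _)

/-- the form at level `m` -/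
noncomputable def Ao (P : H →L[ℂ] H) (Q : ℕ → H →L[ℂ] H) (t : ℝ) (m : ℕ) : H →L[ℂ] H :=
  (2 ^ m / t : ℝ) • (1 - Fo P Q m)

theorem A_nonneg (h : Sys P Q) {t : ℝ} (ht : 0 < t) (m : ℕ) : 0 ≤ Ao P Q t m :=
  smul_nonneg (by positivity) (sub_nonneg.2 (F_le h m))

theorem A_mono (h : Sys P Q) {t : ℝ} (ht : 0 < t) : Monotone (Ao P Q t) := by
  refine monotone_nat_of_le_succ fun m => ?_
  unfold Ao
  have h1 := F_step h m
  have e : (2 ^ (m + 1) / t : ℝ) • (1 - Fo P Q (m + 1)) =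
      (2 ^ m / t : ℝ) • ((1 - Fo P Q (m + 1)) + (1 - Fo P Q (m + 1))) := by
    rw [← two_smul ℝ (1 - Fo P Q (m + 1)), smul_smul]
    congr 1
    rw [pow_succ]
    ring
  rw [e]
  refine smul_le_smul_of_nonneg_left ?_ (by positivity)
  rw [← sub_nonneg] at h1 ⊢
  refine h1.trans (le_of_eq ?_)
  abel

/-- the function which maps `F` to the resolvent -/
noncomputable def rf (k n x : ℝ) : ℝ := 1 / (k + n * (1 - x))

theorem den_pos {k n x : ℝ} (hk : 0 < k) (hn : 0 ≤ n) (hx : x ∈ Set.Icc (0 : ℝ) 1) :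
    0 < k + n * (1 - x) := by
  have : 0 ≤ n * (1 - x) := mul_nonneg hn (by linarith [hx.2])
  linarith

theorem rf_cont {k n : ℝ} (hk : 0 < k) (hn : 0 ≤ n) : ContinuousOn (rf k n) (Set.Icc 0 1) := by
  unfold rf
  refine continuousOn_const.div (by fun_prop) fun x hx => (den_pos hk hn hx).ne'

/-- the resolvents -/
noncomputable def Ro (P : H →L[ℂ] H) (Q : ℕ → H →L[ℂ] H) (k t : ℝ) (m : ℕ) : H →L[ℂ] H :=
  cfc (rf k (2 ^ m / t)) (Fo P Q m)

theorem spF (h : Sys P Q) (m : ℕ) {x : ℝ} (hx : x ∈ spectrum ℝ (Fo P Q m)) :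
    x ∈ Set.Icc (0 : ℝ) 1 := spec_mem (F_nonneg h m) (F_norm h m) hx

theorem X_eq (h : Sys P Q) {k t : ℝ} (m : ℕ) :
    cfc (fun x : ℝ => k + 2 ^ m / t * (1 - x)) (Fo P Q m) = k • 1 + Ao P Q t m := by
  have hsa : IsSelfAdjoint (Fo P Q m) := sa_of_nonneg (F_nonneg h m)
  rw [cfc_add (Fo P Q m) (fun _ : ℝ => k) (fun x : ℝ => 2 ^ m / t * (1 - x)),
    cfc_const k (Fo P Q m), cfc_const_mul (2 ^ m / t : ℝ) (fun x : ℝ => 1 - x) (Fo P Q m),
    cfc_sub (fun _ : ℝ => (1 : ℝ)) (fun x : ℝ => x) (Fo P Q m), cfc_const (1 : ℝ) (Fo P Q m),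
    cfc_id' ℝ (Fo P Q m), Algebra.algebraMap_eq_smul_one, map_one]
  rfl

theorem R_mul_X (h : Sys P Q) {k t : ℝ} (hk : 0 < k) (ht : 0 < t) (m : ℕ) :
    Ro P Q k t m * (k • 1 + Ao P Q t m) = 1 ∧ (k • 1 + Ao P Q t m) * Ro P Q k t m = 1 := by
  have hsa : IsSelfAdjoint (Fo P Q m) := sa_of_nonneg (F_nonneg h m)
  have hn : (0 : ℝ) ≤ 2 ^ m / t := by positivity
  have hc1 : ContinuousOn (rf k (2 ^ m / t)) (spectrum ℝ (Fo P Q m)) :=
    (rf_cont hk hn).mono fun x hx => spF h m hx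
  have hc2 : ContinuousOn (fun x : ℝ => k + 2 ^ m / t * (1 - x)) (spectrum ℝ (Fo P Q m)) := by
    fun_prop
  rw [← X_eq h m]
  unfold Ro
  rw [← cfc_mul _ _ _ hc1 hc2, ← cfc_mul _ _ _ hc2 hc1]
  have e1 : cfc (fun x : ℝ => (1 : ℝ)) (Fo P Q m) = 1 := cfc_const_one ℝ _
  constructor
  · rw [← e1]
    refine cfc_congr fun x hx => ?_
    have := den_pos hk hn (spF h m hx)
    simp only [rf]
    exact one_div_mul_cancel this.ne'
  · rw [← e1]
    refine cfc_congr fun x hx => ?_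
    have := den_pos hk hn (spF h m hx)
    simp only [rf]
    exact mul_one_div_cancel this.ne'

theorem rf_bd {k n x : ℝ} (hk : 0 < k) (hn : 0 ≤ n) (hx : x ∈ Set.Icc (0 : ℝ) 1) :
    0 < rf k n x ∧ rf k n x ≤ 1 / k := by
  have h1 := den_pos hk hn hx
  unfold rf
  refine ⟨by positivity, ?_⟩
  have : 0 ≤ n * (1 - x) := mul_nonneg hn (by linarith [hx.2])
  exact one_div_le_one_div_of_le hk (by linarith)

theorem R_nonneg (h : Sys P Q) {k t : ℝ} (hk : 0 < k) (ht : 0 < t) (m : ℕ) : 0 ≤ Ro P Q k t m :=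
  cfc_nonneg fun _ hx => (rf_bd hk (by positivity) (spF h m hx)).1.le

theorem R_norm (h : Sys P Q) {k t : ℝ} (hk : 0 < k) (ht : 0 < t) (m : ℕ) :
    ‖Ro P Q k t m‖ ≤ 1 / k := by
  refine norm_cfc_le (by positivity) fun x hx => ?_
  have := rf_bd hk (by positivity) (spF h m hx) (n := 2 ^ m / t)
  rw [Real.norm_of_nonneg this.1.le]
  exact this.2

theorem R_anti (h : Sys P Q) {k t : ℝ} (hk : 0 < k) (ht : 0 < t) (m : ℕ) :
    Ro P Q k t (m + 1) ≤ Ro P Q k t m := by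
  let a : (H →L[ℂ] H)ˣ := ⟨k • 1 + Ao P Q t m, Ro P Q k t m, (R_mul_X h hk ht m).2,
    (R_mul_X h hk ht m).1⟩
  let b : (H →L[ℂ] H)ˣ := ⟨k • 1 + Ao P Q t (m + 1), Ro P Q k t (m + 1),
    (R_mul_X h hk ht (m + 1)).2, (R_mul_X h hk ht (m + 1)).1⟩
  have h1 : (0 : H →L[ℂ] H) ≤ a :=
    add_nonneg (smul_nonneg hk.le zero_le_one) (A_nonneg h ht m)
  have h2 : (a : H →L[ℂ] H) ≤ b := by
    show k • 1 + Ao P Q t m ≤ k • 1 + Ao P Q t (m + 1)
    gcongr
    exact A_mono h ht (Nat.le_succ m)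
  exact CStarAlgebra.inv_le_inv h1 h2

theorem Ao_apply (t : ℝ) (m : ℕ) (f : H) :
    Ao P Q t m f = ((2 ^ m / t : ℝ) : ℂ) • (f - P (Q m (P f))) := by
  rw [Complex.coe_smul]
  rfl

theorem R_eq (h : Sys P Q) {k t : ℝ} (hk : 0 < k) (ht : 0 < t) (m : ℕ) (f : H) :
    (k : ℂ) • Ro P Q k t m f + Ao P Q t m (Ro P Q k t m f) = f := by
  have := congrArg (fun T : H →L[ℂ] H => T f) (R_mul_X h hk ht m).2
  simpa using this

/-- the energies of the approximations are bounded -/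
theorem energy_le (h : Sys P Q) {k t : ℝ} (hk : 0 < k) (ht : 0 < t) {j m : ℕ} (hjm : j ≤ m)
    (f : H) : (⟪Ro P Q k t m f, Ao P Q t j (Ro P Q k t m f)⟫_ℂ).re ≤ 1 / k * ‖f‖ ^ 2 := by
  refine (re_mono (A_mono h ht hjm) _).trans ?_
  have h1 := congrArg (fun g => (⟪Ro P Q k t m f, g⟫_ℂ).re) (R_eq h hk ht m f)
  simp only [inner_add_right, Complex.add_re] at h1
  have h2 : (⟪Ro P Q k t m f, (k : ℂ) • Ro P Q k t m f⟫_ℂ).re = k * ‖Ro P Q k t m f‖ ^ 2 := by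
    rw [inner_smul_right, inner_self_eq_norm_sq_to_K]
    simp [← Complex.ofReal_pow]
  rw [h2] at h1
  have h3 : (⟪Ro P Q k t m f, f⟫_ℂ).re ≤ ‖Ro P Q k t m f‖ * ‖f‖ := by
    exact (Complex.re_le_norm _).trans (norm_inner_le_norm _ _)
  have h4 : ‖Ro P Q k t m f‖ ≤ 1 / k * ‖f‖ :=
    ((Ro P Q k t m).le_opNorm f).trans
      (mul_le_mul_of_nonneg_right (R_norm h hk ht m) (norm_nonneg _))
  have h5 : 0 ≤ k * ‖Ro P Q k t m f‖ ^ 2 := by positivity
  have h6 : ‖Ro P Q k t m f‖ * ‖f‖ ≤ 1 / k * ‖f‖ * ‖f‖ :=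
    mul_le_mul_of_nonneg_right h4 (norm_nonneg _)
  linarith only [h1, h3, h5, h6]

/-- powers of the compressed operators as functions of the resolvents -/
theorem F_pow (h : Sys P Q) {k t : ℝ} (hk : 0 < k) (ht : 0 < t) {m : ℕ} (hm : 1 ≤ m) (f : H) :
    ‖(Fo P Q m ^ 2 ^ m) f - Real.exp (k * t) • cfc (ev t) (Ro P Q k t m) f‖ ≤
      (2 ^ m / (2 ^ m - 1) ^ 2) * ‖f‖ := by
  have hsa : IsSelfAdjoint (Fo P Q m) := sa_of_nonneg (F_nonneg h m)
  have hn : (0 : ℝ) ≤ 2 ^ m / t := by positivity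
  have hc1 : ContinuousOn (rf k (2 ^ m / t)) (spectrum ℝ (Fo P Q m)) :=
    (rf_cont hk hn).mono fun x hx => spF h m hx
  obtain ⟨N, hN⟩ : ∃ N : ℕ, 2 ^ m = N + 2 := by
    have : 2 ≤ 2 ^ m := by
      calc 2 = 2 ^ 1 := by norm_num
        _ ≤ 2 ^ m := Nat.pow_le_pow_right (by norm_num) hm
    exact ⟨2 ^ m - 2, by omega⟩
  have hNr : (2 : ℝ) ^ m = N + 2 := by exact_mod_cast hN
  have e1 : Real.exp (k * t) • cfc (ev t) (Ro P Q k t m) =
      cfc (fun x => Real.exp (-((N + 2 : ℕ) * (1 - x)))) (Fo P Q m) := by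
    unfold Ro
    have hco : ContinuousOn (ev t) (rf k (2 ^ m / t) '' spectrum ℝ (Fo P Q m)) := ev_cont' ht _
    rw [← cfc_comp (ev t) (rf k (2 ^ m / t)) (Fo P Q m) hsa hco hc1,
      ← cfc_const_mul (Real.exp (k * t)) (ev t ∘ rf k (2 ^ m / t)) (Fo P Q m)
        (hco.comp hc1 (Set.mapsTo_image _ _))]
    refine cfc_congr fun x hx => ?_
    have h1 := rf_bd hk hn (spF h m hx)
    have h2 := den_pos hk hn (spF h m hx)
    simp only [Function.comp_apply, ev, not_le.2 h1.1, if_false]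
    rw [← Real.exp_add]
    congr 1
    unfold rf
    rw [← hN, div_div_eq_mul_div, div_one]
    push_cast
    field_simp
    ring
  have e2 : Fo P Q m ^ 2 ^ m = cfc (fun x : ℝ => x ^ (N + 2)) (Fo P Q m) := by
    rw [cfc_pow_id (Fo P Q m) (N + 2), hN]
  have e3 : (Fo P Q m ^ 2 ^ m) f - Real.exp (k * t) • cfc (ev t) (Ro P Q k t m) f =
      (Fo P Q m ^ 2 ^ m - Real.exp (k * t) • cfc (ev t) (Ro P Q k t m)) f := by
    simp
  rw [e3, e1, e2, ← cfc_sub _ _ _ (by fun_prop) (by fun_prop)]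
  refine (ContinuousLinearMap.le_opNorm _ f).trans
    (mul_le_mul_of_nonneg_right ?_ (norm_nonneg _))
  refine norm_cfc_le (by positivity) fun x hx => ?_
  have hx' := spF h m hx
  rw [Real.norm_eq_abs]
  refine (exp_sub_pow hx'.1 hx'.2 N).trans (le_of_eq ?_)
  rw [hNr]
  congr 2
  ring

/-- functional calculus for `ev` -/
noncomputable def Tev (t : ℝ) (S : H →L[ℂ] H) : H →L[ℂ] H := cfc (ev t) S

/-- the main abstract result -/
theorem main_abs (h : Sys P Q) {k t : ℝ} (hk : 0 < k) (ht : 0 < t) :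
    ∃ S : H →L[ℂ] H, 0 ≤ S ∧ ‖S‖ ≤ 1 / k ∧
      (∀ f, Tendsto (fun m => Ro P Q k t m f) atTop (𝓝 (S f))) ∧
      (∀ f j, (⟪S f, Ao P Q t j (S f)⟫_ℂ).re ≤ 1 / k * ‖f‖ ^ 2) ∧
      ∀ f, Tendsto (fun m => (Fo P Q m ^ 2 ^ m) f) atTop
        (𝓝 (((Real.exp (k * t) : ℝ) : ℂ) • Tev t S f)) := by
  obtain ⟨S, hS, hS0, hSn⟩ := strong_limit (R_nonneg h hk ht) (R_anti h hk ht) (R_norm h hk ht)
  refine ⟨S, hS0, hSn, hS, ?_, ?_⟩
  · intro f j
    have h1 : Tendsto (fun m => (⟪Ro P Q k t m f, Ao P Q t j (Ro P Q k t m f)⟫_ℂ).re) atTop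
        (𝓝 (⟪S f, Ao P Q t j (S f)⟫_ℂ).re) :=
      (Complex.continuous_re.tendsto _).comp
        ((hS f).inner (((Ao P Q t j).continuous.tendsto _).comp (hS f)))
    refine le_of_tendsto h1 ?_
    filter_upwards [eventually_ge_atTop j] with m hm
    exact energy_le h hk ht hm f
  · intro f
    rw [Complex.coe_smul]
    unfold Tev
    have h1 := (cfc_tendsto (R_nonneg h hk ht) (R_norm h hk ht) hS
      (ev_cont' ht (Set.Icc 0 (1 / k))) f).const_smul (Real.exp (k * t))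
    have h2 : Tendsto (fun m => (Fo P Q m ^ 2 ^ m) f -
        Real.exp (k * t) • cfc (ev t) (Ro P Q k t m) f) atTop (𝓝 0) := by
      have h3 : Tendsto (fun m : ℕ => ((2 : ℝ) ^ m / (2 ^ m - 1) ^ 2) * ‖f‖) atTop (𝓝 0) := by
        have h4 : Tendsto (fun m : ℕ => 4 * ((1 / 2 : ℝ) ^ m) * ‖f‖) atTop (𝓝 0) := by
          have := ((tendsto_pow_atTop_nhds_zero_of_lt_one (r := (1 / 2 : ℝ)) (by norm_num)
            (by norm_num)).const_mul 4).mul_const ‖f‖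
          simpa using this
        refine squeeze_zero' ?_ ?_ h4
        · exact Eventually.of_forall fun m => by positivity
        · filter_upwards [eventually_ge_atTop 1] with m hm
          refine mul_le_mul_of_nonneg_right ?_ (norm_nonneg _)
          have h5 : (2 : ℝ) ≤ 2 ^ m := by
            calc (2 : ℝ) = 2 ^ 1 := by norm_num
              _ ≤ 2 ^ m := pow_le_pow_right₀ (by norm_num) hm
          rw [one_div, inv_pow, div_le_iff₀ (by nlinarith only [h5])]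
          have h6 : (0 : ℝ) < 2 ^ m := by positivity
          have h7 : (2 : ℝ) ^ m / 2 ≤ 2 ^ m - 1 := by linarith only [h5]
          have h8 : ((2 : ℝ) ^ m / 2) ^ 2 ≤ (2 ^ m - 1) ^ 2 :=
            pow_le_pow_left₀ (by positivity) h7 2
          calc (2 : ℝ) ^ m = 4 * (2 ^ m)⁻¹ * ((2 : ℝ) ^ m / 2) ^ 2 := by field_simp; ring
            _ ≤ _ := by gcongr
      refine squeeze_zero_norm' ?_ h3
      filter_upwards [eventually_ge_atTop 1] with m hm
      exact F_pow h hk ht hm f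
    have h9 := h2.add h1
    rw [zero_add] at h9
    refine h9.congr fun m => ?_
    abel

end

/-- the Laplace transform -/
theorem laplace {S : H →L[ℂ] H} (h0 : 0 ≤ S) {k : ℝ} (hk : 0 < k) (hS : ‖S‖ ≤ 1 / k) (f : H) :
    (⟪f, S f⟫_ℂ).re = ∫ t in Set.Ioi (0 : ℝ), (⟪f, Tev t S f⟫_ℂ).re := by
  have hsa := sa_of_nonneg h0
  have hsp : ∀ x ∈ spectrum ℝ S, x ∈ Set.Icc (0 : ℝ) (1 / k) := fun x hx => spec_mem h0 hS hx
  have hb : ∀ᵐ t ∂(volume.restrict (Set.Ioi (0 : ℝ))), ∀ z ∈ spectrum ℝ S,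
      ‖ev t z‖ ≤ Real.exp (-k * t) := by
    refine (ae_restrict_iff' measurableSet_Ioi).2 (Eventually.of_forall fun t ht z hz => ?_)
    have ht' : 0 < t := ht
    rw [Real.norm_of_nonneg (ev_nonneg t z)]
    unfold ev
    split_ifs with h
    · exact (Real.exp_pos _).le
    · push Not at h
      apply Real.exp_le_exp.2
      have h1 := (hsp z hz).2
      rw [le_div_iff₀ hk] at h1
      have h2 : k * t ≤ t / z := by
        rw [le_div_iff₀ h]
        nlinarith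
      linarith
  have hfin : HasFiniteIntegral (fun t : ℝ => Real.exp (-k * t))
      (volume.restrict (Set.Ioi (0 : ℝ))) := (exp_neg_integrableOn_Ioi 0 hk).2
  have hcont : ContinuousOn (Function.uncurry ev) (Set.Ioi (0 : ℝ) ×ˢ spectrum ℝ S) :=
    ev_cont.mono fun p hp => ⟨hp.1, Set.mem_univ _⟩
  have h1 := cfc_setIntegral (μ := volume) measurableSet_Ioi ev (fun t => Real.exp (-k * t)) S
    hcont hb hfin hsa
  have h2 := integrableOn_cfc (μ := volume) measurableSet_Ioi ev (fun t => Real.exp (-k * t)) S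
    hcont hb hfin hsa
  have h3 : cfc (fun r => ∫ t in Set.Ioi (0 : ℝ), ev t r) S = S := by
    rw [cfc_congr (g := fun x => x) fun x hx => ev_integral (hsp x hx).1, cfc_id' ℝ S]
  rw [h3] at h1
  let L : (H →L[ℂ] H) →L[ℝ] ℝ :=
    Complex.reCLM.comp (((innerSL ℂ f).restrictScalars ℝ).comp
      ((ContinuousLinearMap.apply ℂ H f).restrictScalars ℝ))
  have h4 := L.integral_comp_comm h2
  rw [← h1] at h4
  exact h4.symm

end Pool.Agent.H16F.H67
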