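import Pool.Agent.Helper67_Fine.Hone

/-!
BR: the resolvent is the Laplace transform of the heat semigroup.
-/

namespace Pool.Agent.H16F.H67

open MeasureTheory Complex Filter Topology Pool.Agent.H16Iso Pool.Agent.H62T
open scoped ENNReal NNReal InnerProductSpace ContDiff

/-! ### Weak gradients -/

theorem riesz_factor {V E : Type*} [AddCommGroup V] [Module ℝ V] [NormedAddCommGroup E]
    [InnerProductSpace ℝ E] [CompleteSpace E] (T : V →ₗ[ℝ] E) (Λ : V →ₗ[ℝ] ℝ) {C : ℝ}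
    (h : ∀ x, |Λ x| ≤ C * ‖T x‖) : ∃ g : E, ∀ x, Λ x = ⟪g, T x⟫_ℝ := by
  have hker : LinearMap.ker T ≤ LinearMap.ker Λ := by
    intro x hx
    rw [LinearMap.mem_ker] at hx ⊢
    have := h x
    rw [hx, norm_zero, mul_zero] at this
    exact abs_nonpos_iff.1 this
  let f : LinearMap.range T →ₗ[ℝ] ℝ :=
    ((LinearMap.ker T).liftQ Λ hker).comp T.quotKerEquivRange.symm.toLinearMap
  have hf : ∀ x, f ⟨T x, LinearMap.mem_range_self T x⟩ = Λ x := by
    intro x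
    simp only [f, LinearMap.comp_apply, LinearEquiv.coe_coe]
    have : T.quotKerEquivRange.symm ⟨T x, LinearMap.mem_range_self T x⟩ =
        (LinearMap.ker T).mkQ x := by
      rw [LinearEquiv.symm_apply_eq]
      rfl
    rw [this]
    simp
  have hb : ∀ y : LinearMap.range T, ‖f y‖ ≤ C * ‖y‖ := by
    rintro ⟨_, x, rfl⟩
    have h1 := hf x
    rw [h1]
    exact h x
  obtain ⟨g, hg, -⟩ := exists_extension_norm_eq (LinearMap.range T) (f.mkContinuous C hb)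
  refine ⟨(InnerProductSpace.toDual ℝ E).symm g, fun x => ?_⟩
  rw [InnerProductSpace.toDual_symm_apply]
  have h1 := hg ⟨T x, LinearMap.mem_range_self T x⟩
  rw [h1]
  exact (hf x).symm

theorem dv_test {D : Set ℂ} {ψ : ℂ → ℝ} (hψ : ψ ∈ Test D) (v : ℂ) :
    (fun y => fderiv ℝ ψ y v) ∈ Test D := by
  obtain ⟨k1, k2, k3⟩ := hψ
  refine ⟨(k1.fderiv_right (m := ∞) (by simp)).clm_apply contDiff_const, ?_, ?_⟩
  · exact (k2.fderiv ℝ).comp_left (g := fun L : ℂ →L[ℝ] ℝ => L v) (by simp)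
  · refine (closure_mono ?_).trans ((tsupport_fderiv_subset ℝ (f := ψ)).trans k3)
    intro x hx hx'
    apply hx
    simp [hx']

theorem exists_dir {w : ℂ → ℝ} (hw : MemLp w 2 volume) {C : ℝ} (hC : 0 ≤ C) (v : ℂ)
    (h : ∀ ψ ∈ Test Set.univ, (∫ x, w x * fderiv ℝ ψ x v) ^ 2 ≤ C * ∫ x, ψ x ^ 2) :
    ∃ g : ℂ → ℝ, MemLp g 2 volume ∧
      ∀ ψ ∈ Test Set.univ, ∫ x, w x * fderiv ℝ ψ x v = -∫ x, g x * ψ x := by
  let T : Test Set.univ →ₗ[ℝ] Lp ℝ 2 (volume : Measure ℂ) :=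
    { toFun := fun ψ => (test_memLp ψ.2).toLp
      map_add' := fun ψ χ => MemLp.toLp_add (test_memLp ψ.2) (test_memLp χ.2)
      map_smul' := fun c ψ => MemLp.toLp_const_smul c (test_memLp ψ.2) }
  have hint : ∀ ψ : Test Set.univ, Integrable fun x => w x * fderiv ℝ (ψ : ℂ → ℝ) x v := fun ψ =>
    MemLp.integrable_mul hw (test_memLp (dv_test ψ.2 v))
  have hdiff : ∀ (ψ : Test Set.univ) (x : ℂ), DifferentiableAt ℝ (ψ : ℂ → ℝ) x := fun ψ x =>
    (ψ.2.1.differentiable (by simp)) x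
  let Λ : Test Set.univ →ₗ[ℝ] ℝ :=
    { toFun := fun ψ => -∫ x, w x * fderiv ℝ (ψ : ℂ → ℝ) x v
      map_add' := fun ψ χ => by
        rw [← neg_add, ← integral_add (hint ψ) (hint χ)]
        congr 1
        refine integral_congr_ae (Eventually.of_forall fun x => ?_)
        simp only [Submodule.coe_add]
        rw [fderiv_add (hdiff ψ x) (hdiff χ x)]
        simp
        ring
      map_smul' := fun c ψ => by
        simp only [RingHom.id_apply, smul_eq_mul]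
        rw [mul_neg, ← integral_const_mul]
        congr 1
        refine integral_congr_ae (Eventually.of_forall fun x => ?_)
        simp only [Submodule.coe_smul]
        rw [fderiv_const_smul (hdiff ψ x)]
        simp
        ring }
  have hT : ∀ ψ : Test Set.univ, ‖T ψ‖ ^ 2 = ∫ x, (ψ : ℂ → ℝ) x ^ 2 := by
    intro ψ
    rw [← real_inner_self_eq_norm_sq, L2.inner_def]
    refine integral_congr_ae ?_
    filter_upwards [(test_memLp ψ.2).coeFn_toLp] with x hx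
    have h1 : (T ψ : ℂ → ℝ) x = (ψ : ℂ → ℝ) x := hx
    rw [h1]
    simp [sq]
  have hb : ∀ ψ, |Λ ψ| ≤ Real.sqrt C * ‖T ψ‖ := by
    intro ψ
    refine abs_le_of_sq_le_sq ?_ (by positivity)
    rw [mul_pow, Real.sq_sqrt hC, hT]
    show (-∫ x, w x * fderiv ℝ (ψ : ℂ → ℝ) x v) ^ 2 ≤ _
    rw [neg_sq]
    exact h ψ ψ.2
  obtain ⟨g, hg⟩ := riesz_factor T Λ hb
  refine ⟨g, Lp.memLp g, fun ψ hψ => ?_⟩
  have h1 := hg ⟨ψ, hψ⟩
  have h2 : Λ ⟨ψ, hψ⟩ = -∫ x, w x * fderiv ℝ ψ x v := rfl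
  have h3 : ⟪g, T ⟨ψ, hψ⟩⟫_ℝ = ∫ x, g x * ψ x := by
    rw [L2.inner_def]
    refine integral_congr_ae ?_
    filter_upwards [(test_memLp hψ).coeFn_toLp] with x hx
    have h1 : (T ⟨ψ, hψ⟩ : ℂ → ℝ) x = ψ x := hx
    rw [h1]
    simp [mul_comm]
  rw [h2, h3] at h1
  linarith

theorem exists_grad {w : ℂ → ℝ} (hw : MemLp w 2 volume) {C : ℝ} (hC : 0 ≤ C)
    (h : ∀ ψ ∈ Test Set.univ, ∀ v : ℂ, (∫ x, w x * fderiv ℝ ψ x v) ^ 2 ≤
      C * ‖v‖ ^ 2 * ∫ x, ψ x ^ 2) : ∃ g, Grad w g := by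
  obtain ⟨g1, m1, e1⟩ := exists_dir hw hC 1 fun ψ hψ => by simpa using h ψ hψ 1
  obtain ⟨g2, m2, e2⟩ := exists_dir hw hC I fun ψ hψ => by simpa using h ψ hψ I
  refine ⟨fun x => ((g1 x : ℝ) : ℂ) + ((g2 x : ℝ) : ℂ) * I, hw, ?_, ?_⟩
  · have h1 : MemLp (fun x => ((g1 x : ℝ) : ℂ)) 2 volume := m1.ofReal
    have h2 : MemLp (fun x => ((g2 x : ℝ) : ℂ) * I) 2 volume := by
      have : (fun x => ((g2 x : ℝ) : ℂ) * I) = fun x => I • ((g2 x : ℝ) : ℂ) := by
        funext x; rw [smul_eq_mul, mul_comm]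
      rw [this]
      exact (m2.ofReal (K := ℂ)).const_smul I
    exact h1.add h2
  · intro φ hφ v
    have e3 : ∀ x, w x * fderiv ℝ φ x v =
        v.re * (w x * fderiv ℝ φ x 1) + v.im * (w x * fderiv ℝ φ x I) := by
      intro x
      have e4 : v = v.re • (1 : ℂ) + v.im • I := by
        apply Complex.ext <;> simp
      have e5 : fderiv ℝ φ x v = v.re * fderiv ℝ φ x 1 + v.im * fderiv ℝ φ x I := by
        conv_lhs => rw [e4]
        rw [map_add, map_smul, map_smul, smul_eq_mul, smul_eq_mul]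
      rw [e5]
      ring
    have e6 : ∀ x, ip (((g1 x : ℝ) : ℂ) + ((g2 x : ℝ) : ℂ) * I) v * φ x =
        v.re * (g1 x * φ x) + v.im * (g2 x * φ x) := by
      intro x
      simp [ip]
      ring
    have i1 : Integrable fun x => w x * fderiv ℝ φ x 1 :=
      MemLp.integrable_mul hw (test_memLp (dv_test hφ 1))
    have i2 : Integrable fun x => w x * fderiv ℝ φ x I :=
      MemLp.integrable_mul hw (test_memLp (dv_test hφ I))
    have i3 : Integrable fun x => g1 x * φ x := MemLp.integrable_mul m1 (test_memLp hφ)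
    have i4 : Integrable fun x => g2 x * φ x := MemLp.integrable_mul m2 (test_memLp hφ)
    simp_rw [e3, e6]
    rw [integral_add (i1.const_mul _) (i2.const_mul _), integral_add (i3.const_mul _)
      (i4.const_mul _), integral_const_mul, integral_const_mul, integral_const_mul,
      integral_const_mul, e1 φ hφ, e2 φ hφ]
    ring

/-! ### The limit of the resolvents -/

theorem Ao_inner {D : Set ℂ} {t : ℝ} (j : ℕ) (w : HH) :
    (⟪w, Ao (PQ D) (fun m => QQ (t / 2 ^ m)) t j w⟫_ℂ).re =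
      2 ^ j / t * (⟪w, w - PQ D (QQ (t / 2 ^ j) (PQ D w))⟫_ℂ).re := by
  rw [Ao_apply, inner_smul_right, Complex.re_ofReal_mul]

theorem supp_of_energy {D : Set ℂ} (hD : MeasurableSet D) {t C : ℝ} (ht : 0 < t) {w : HH}
    (h : ∀ j, (⟪w, Ao (PQ D) (fun m => QQ (t / 2 ^ m)) t j w⟫_ℂ).re ≤ C) : PQ D w = w := by
  have hsys := sysD hD ht
  have hlim : Tendsto (fun m : ℕ => t / 2 ^ m * C) atTop (𝓝 0) := by
    have h1 : Tendsto (fun n : ℕ => t * (1 / 2) ^ n * C) atTop (𝓝 (t * 0 * C)) :=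
      (Tendsto.const_mul _ (tendsto_pow_atTop_nhds_zero_of_lt_one (by norm_num)
        (by norm_num))).mul_const _
    rw [mul_zero, zero_mul] at h1
    refine h1.congr fun n => ?_
    rw [one_div, inv_pow]; rfl
  have h1 : (⟪w, (1 - PQ D) w⟫_ℂ).re ≤ 0 := by
    refine ge_of_tendsto' hlim fun j => ?_
    have h2 := h j
    rw [Ao_inner] at h2
    have h3 : (1 - PQ D) ≤ 1 - Fo (PQ D) (fun m => QQ (t / 2 ^ m)) j := by
      have h4 : PQ D * QQ (t / 2 ^ j) * PQ D ≤ PQ D * 1 * PQ D :=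
        hsys.saP.conjugate_le_conjugate (Q_le hsys j)
      rw [mul_one, hsys.idP] at h4
      exact sub_le_sub_left h4 1
    have h5 := re_mono h3 w
    have h6 : (1 - Fo (PQ D) (fun m => QQ (t / 2 ^ m)) j) w =
        w - PQ D (QQ (t / 2 ^ j) (PQ D w)) := rfl
    rw [h6] at h5
    refine h5.trans ?_
    have h7 : (0 : ℝ) < 2 ^ j / t := by positivity
    have h8 : (⟪w, w - PQ D (QQ (t / 2 ^ j) (PQ D w))⟫_ℂ).re =
        t / 2 ^ j * (2 ^ j / t * (⟪w, w - PQ D (QQ (t / 2 ^ j) (PQ D w))⟫_ℂ).re) := by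
      field_simp
    rw [h8]
    exact mul_le_mul_of_nonneg_left h2 (by positivity)
  have h2 : ‖(1 - PQ D) w‖ ^ 2 ≤ 1 * (⟪w, (1 - PQ D) w⟫_ℂ).re := by
    refine pos_cs (one_sub_P hsys) ?_ w
    refine (CStarAlgebra.norm_le_one_iff_of_nonneg _ (one_sub_P hsys)).2 ?_
    have h3 : 0 ≤ PQ D := by
      rw [← hsys.idP]
      nth_rewrite 1 [← hsys.saP.star_eq]
      exact star_mul_self_nonneg _
    exact sub_le_self _ h3
  have h3 : ‖(1 - PQ D) w‖ ^ 2 ≤ 0 := by linarith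
  have h4 : (1 - PQ D) w = 0 := by
    have : ‖(1 - PQ D) w‖ = 0 := by
      have := sq_nonneg ‖(1 - PQ D) w‖
      have h5 : ‖(1 - PQ D) w‖ ^ 2 = 0 := le_antisymm h3 this
      simpa using h5
    simpa using this
  have h5 : (1 - PQ D) w = w - PQ D w := rfl
  rw [h5, sub_eq_zero] at h4
  exact h4.symm

theorem grad_of_energy {D : Set ℂ} (hD : MeasurableSet D) {t C : ℝ} (ht : 0 < t) (hC : 0 ≤ C)
    {w : HH} (h : ∀ j, (⟪w, Ao (PQ D) (fun m => QQ (t / 2 ^ m)) t j w⟫_ℂ).re ≤ C) :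
    InV D (fun x => (w x).re) := by
  have hP := supp_of_energy hD ht h
  refine ⟨?_, ?_⟩
  · refine exists_grad (re_memLp w) (C := 2 * C) (by positivity) fun ψ hψ v => ?_
    have hd := dv_test hψ v
    have h1 := (gen_tendsto hd ht).2
    have h2 : Tendsto (fun m : ℕ => (⟪w, QQ (t / 2 ^ m) (cx (test_memLp hd))⟫_ℂ).re ^ 2) atTop
        (𝓝 ((⟪w, cx (test_memLp hd)⟫_ℂ).re ^ 2)) :=
      ((Complex.continuous_re.tendsto _).comp (tendsto_const_nhds.inner h1)).pow 2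
    have h3 : (⟪w, cx (test_memLp hd)⟫_ℂ).re = ∫ x, (w x).re * fderiv ℝ ψ x v := by
      rw [← inner_conj_symm, Complex.conj_re, cx_inner]
      refine integral_congr_ae (Eventually.of_forall fun x => ?_)
      simp only
      ring
    rw [← h3]
    refine le_of_tendsto' h2 fun j => ?_
    have hs : 0 < t / 2 ^ j := by positivity
    refine (energy_bound hs w hψ v (test_memLp hd)).trans ?_
    have h4 := h j
    rw [Ao_inner] at h4
    have h5 : (⟪w, w - PQ D (QQ (t / 2 ^ j) (PQ D w))⟫_ℂ).re =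
        (⟪w, w - QQ (t / 2 ^ j) w⟫_ℂ).re := by
      rw [inner_sub_right, inner_sub_right]
      have h6 : ⟪w, PQ D (QQ (t / 2 ^ j) (PQ D w))⟫_ℂ = ⟪PQ D w, QQ (t / 2 ^ j) (PQ D w)⟫_ℂ :=
        ((ContinuousLinearMap.isSelfAdjoint_iff_isSymmetric.1 (PQ_sa hD)) w _).symm
      rw [h6, hP]
    rw [h5] at h4
    have hI : 0 ≤ ∫ y, ψ y ^ 2 := integral_nonneg fun y => sq_nonneg _
    have e1 : 2 * (⟪w, w - QQ (t / 2 ^ j) w⟫_ℂ).re * (‖v‖ ^ 2 / (t / 2 ^ j) * ∫ y, ψ y ^ 2) =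
        (2 ^ j / t * (⟪w, w - QQ (t / 2 ^ j) w⟫_ℂ).re) * (2 * ‖v‖ ^ 2 * ∫ y, ψ y ^ 2) := by
      field_simp
    rw [e1]
    calc _ ≤ C * (2 * ‖v‖ ^ 2 * ∫ y, ψ y ^ 2) := by
          refine mul_le_mul_of_nonneg_right h4 (by positivity)
      _ = _ := by ring
  · have h1 := PQ_spec hD w
    rw [hP] at h1
    filter_upwards [h1] with x hx hxD
    rw [hx, Set.indicator_of_notMem hxD]
    simp

theorem PQ_test {D : Set ℂ} (hD : MeasurableSet D) {φ : ℂ → ℝ} (hφ : φ ∈ Test D) :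
    PQ D (cx (test_memLp hφ)) = cx (test_memLp hφ) := by
  apply Lp.ext
  filter_upwards [PQ_spec hD (cx (test_memLp hφ)), cx_coe (test_memLp hφ)] with x h1 h2
  rw [h1]
  by_cases hx : x ∈ D
  · rw [Set.indicator_of_mem hx]
  · rw [Set.indicator_of_notMem hx, h2]
    have : x ∉ tsupport φ := fun h => hx (hφ.2.2 h)
    rw [image_eq_zero_of_notMem_tsupport this]
    simp

theorem test_univ {D : Set ℂ} {φ : ℂ → ℝ} (hφ : φ ∈ Test D) : φ ∈ Test Set.univ :=
  ⟨hφ.1, hφ.2.1, Set.subset_univ _⟩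

theorem weak_eq {D : Set ℂ} (hD : MeasurableSet D) {k t : ℝ} (hk : 0 < k) (ht : 0 < t)
    {f w : HH} (hw : Tendsto (fun m => Ro (PQ D) (fun m => QQ (t / 2 ^ m)) k t m f) atTop (𝓝 w))
    {φ : ℂ → ℝ} (hφ : φ ∈ Test D) :
    ∫ x, (w x).re * (k * φ x - lap φ x) = ∫ x, (f x).re * φ x := by
  have hsys := sysD hD ht
  have hφu := test_univ hφ
  set φH := cx (test_memLp hφ) with hφH
  set ΔH := cx (test_memLp (lap_test hφ)) with hΔH
  have hA : Tendsto (fun m => Ao (PQ D) (fun m => QQ (t / 2 ^ m)) t m φH) atTop (𝓝 (-ΔH)) := by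
    have h1 := (gen_tendsto hφu ht).1
    have h2 := (((PQ D).continuous.tendsto _).comp h1).neg
    have h3 : PQ D (cx (test_memLp (lap_test hφu))) = ΔH := PQ_test hD (lap_test hφ)
    rw [h3] at h2
    refine h2.congr fun m => ?_
    rw [Ao_apply, hφH, PQ_test hD hφ]
    simp only [Function.comp_apply]
    rw [map_smul, map_sub]
    have h5 : PQ D (cx (test_memLp hφu)) = cx (test_memLp hφu) := PQ_test hD hφ
    rw [h5, ← smul_neg, neg_sub]
  have h1 : Tendsto (fun m => ⟪Ro (PQ D) (fun m => QQ (t / 2 ^ m)) k t m f,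
      (k : ℂ) • φH + Ao (PQ D) (fun m => QQ (t / 2 ^ m)) t m φH⟫_ℂ) atTop
      (𝓝 ⟪w, (k : ℂ) • φH + -ΔH⟫_ℂ) := hw.inner (tendsto_const_nhds.add hA)
  have h2 : ∀ m, ⟪Ro (PQ D) (fun m => QQ (t / 2 ^ m)) k t m f,
      (k : ℂ) • φH + Ao (PQ D) (fun m => QQ (t / 2 ^ m)) t m φH⟫_ℂ = ⟪f, φH⟫_ℂ := by
    intro m
    have hsa := ContinuousLinearMap.isSelfAdjoint_iff_isSymmetric.1
      (sa_of_nonneg (A_nonneg hsys ht m))
    have h3 := R_eq hsys hk ht m f
    conv_rhs => rw [← h3]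
    rw [inner_add_right, inner_add_left]
    congr 1
    · rw [inner_smul_left, inner_smul_right]
      simp
    · exact (hsa _ _).symm
  simp_rw [h2] at h1
  have h3 := tendsto_nhds_unique h1 tendsto_const_nhds
  have h4 := congrArg Complex.re h3
  have e1 : (⟪f, φH⟫_ℂ).re = ∫ x, (f x).re * φ x := by
    rw [← inner_conj_symm, Complex.conj_re, cx_inner]
    refine integral_congr_ae (Eventually.of_forall fun x => ?_)
    simp only
    ring
  have e2 : (⟪w, (k : ℂ) • φH + -ΔH⟫_ℂ).re = ∫ x, (w x).re * (k * φ x - lap φ x) := by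
    rw [inner_add_right, inner_neg_right, Complex.add_re, Complex.neg_re,
      inner_smul_right, Complex.re_ofReal_mul]
    have e3 : (⟪w, φH⟫_ℂ).re = ∫ x, φ x * (w x).re := by
      rw [← inner_conj_symm, Complex.conj_re, cx_inner]
    have e4 : (⟪w, ΔH⟫_ℂ).re = ∫ x, lap φ x * (w x).re := by
      rw [← inner_conj_symm, Complex.conj_re, cx_inner]
    have i1 : Integrable fun x => φ x * (w x).re :=
      MemLp.integrable_mul (test_memLp hφ) (re_memLp w)
    have i2 : Integrable fun x => lap φ x * (w x).re :=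
      MemLp.integrable_mul (test_memLp (lap_test hφ)) (re_memLp w)
    rw [e3, e4, ← integral_const_mul, ← sub_eq_add_neg, ← integral_sub (i1.const_mul k) i2]
    refine integral_congr_ae (Eventually.of_forall fun x => ?_)
    simp only
    ring
  rw [e1, e2] at h4
  exact h4

/-- the operator of the resolvent, constructed at time `t` -/
theorem exists_S {D : Set ℂ} (hD : IsOpen D) {κ t : ℝ} (hκ : 0 < κ) (ht : 0 < t) :
    ∃ S : HH →L[ℂ] HH, 0 ≤ S ∧ ‖S‖ ≤ 1 / κ ^ 2 ∧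
      (∀ f : HH, Sol κ D (fun x => (f x).re) (fun x => (S f x).re)) ∧
      ∀ f, Tendsto (fun m => (Fo (PQ D) (fun m => QQ (t / 2 ^ m)) m ^ 2 ^ m) f) atTop
        (𝓝 (((Real.exp (κ ^ 2 * t) : ℝ) : ℂ) • Tev t S f)) := by
  have hDm := hD.measurableSet
  obtain ⟨S, hS0, hSn, hSl, hSe, hSp⟩ := main_abs (sysD hDm ht) (k := κ ^ 2) (by positivity) ht
  refine ⟨S, hS0, hSn, fun f => ⟨?_, fun φ hφ => ?_⟩, hSp⟩
  · exact grad_of_energy hDm ht (by positivity) (hSe f)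
  · exact weak_eq hDm (by positivity) ht (hSl f) hφ

end Pool.Agent.H16F.H67
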