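import Pool.Agent.Helper67_Fine.Ops
import Pool.Agent.Helper67_Fine.Abs2

/-!
BR, part 4: the heat operators of the plane and their compressions.
-/

namespace Pool.Agent.H16F.H67

open MeasureTheory Complex Filter Topology Pool.Agent.H16Iso Pool.Agent.H62T
open scoped ENNReal NNReal InnerProductSpace

theorem HasKer.unique {T S : HH →L[ℂ] HH} {K : ℂ → ℂ → ℝ} (hT : HasKer T K) (hS : HasKer S K) :
    T = S := by
  ext1 f
  apply Lp.ext
  filter_upwards [hT f, hS f] with x h1 h2
  rw [h1, h2]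

theorem kbG {s : ℝ} (hs : 0 < s) : KB s (fun x y => G s (x - y)) where
  meas := (H8.G_meas s).comp (measurable_fst.sub measurable_snd)
  nn x y := H8.G_nonneg hs _
  le x y := le_rfl

open Classical in
/-- the heat operator -/
noncomputable def QQ (s : ℝ) : HH →L[ℂ] HH :=
  if h : 0 < s then ((kbG h).exists_op h).choose else 0

theorem QQ_spec {s : ℝ} (hs : 0 < s) : ‖QQ s‖ ≤ 1 ∧ HasKer (QQ s) (fun x y => G s (x - y)) := by
  unfold QQ
  rw [dif_pos hs]
  exact ((kbG hs).exists_op hs).choose_spec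

theorem QQ_sa {s : ℝ} (hs : 0 < s) : IsSelfAdjoint (QQ s) :=
  (QQ_spec hs).2.selfAdjoint (kbG hs) hs fun x y => H8.G_sub_comm s x y

theorem QQ_sq {s : ℝ} (hs : 0 < s) : QQ (s / 2) * QQ (s / 2) = QQ s := by
  have hs2 : 0 < s / 2 := by positivity
  have h1 := (QQ_spec hs2).2.comp (QQ_spec hs2).2 (kbG hs2) (kbG hs2) hs2
  refine h1.unique ?_
  have h2 : (fun x y => ∫ z, G (s / 2) (x - z) * G (s / 2) (z - y)) = fun x y => G s (x - y) := by
    funext x y
    exact H41.G_conv s hs x y
  rw [h2]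
  exact (QQ_spec hs).2

/-- restriction to a set -/
theorem exists_proj {D : Set ℂ} (hD : MeasurableSet D) :
    ∃ P : HH →L[ℂ] HH, ∀ f : HH, P f =ᵐ[volume] D.indicator f := by
  have hm : ∀ f : HH, MemLp (D.indicator f) 2 volume := fun f => (Lp.memLp f).indicator hD
  let L : HH →ₗ[ℂ] HH :=
    { toFun := fun f => (hm f).toLp
      map_add' := fun f g => by
        apply Lp.ext
        filter_upwards [(hm (f + g)).coeFn_toLp, (hm f).coeFn_toLp, (hm g).coeFn_toLp,
          Lp.coeFn_add ((hm f).toLp) ((hm g).toLp), Lp.coeFn_add f g] with x h1 h2 h3 h4 h5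
        rw [h1, h4, Pi.add_apply, h2, h3]
        by_cases hx : x ∈ D
        · simp only [Set.indicator_of_mem hx]
          rw [h5, Pi.add_apply]
        · simp [Set.indicator_of_notMem hx]
      map_smul' := fun c f => by
        apply Lp.ext
        filter_upwards [(hm (c • f)).coeFn_toLp, (hm f).coeFn_toLp,
          Lp.coeFn_smul c ((hm f).toLp), Lp.coeFn_smul c f] with x h1 h2 h3 h4
        simp only [RingHom.id_apply]
        rw [h1, h3, Pi.smul_apply, h2]
        by_cases hx : x ∈ D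
        · simp only [Set.indicator_of_mem hx]
          rw [h4, Pi.smul_apply]
        · simp [Set.indicator_of_notMem hx] }
  have hb : ∀ f : HH, ‖L f‖ ≤ 1 * ‖f‖ := by
    intro f
    rw [one_mul]
    show ‖(hm f).toLp‖ ≤ ‖f‖
    rw [Lp.norm_toLp, Lp.norm_def]
    exact ENNReal.toReal_mono (Lp.memLp f).2.ne (eLpNorm_indicator_le _)
  refine ⟨L.mkContinuous 1 hb, fun f => ?_⟩
  exact (hm f).coeFn_toLp

open Classical in
/-- restriction to a set -/
noncomputable def PQ (D : Set ℂ) : HH →L[ℂ] HH :=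
  if h : MeasurableSet D then (exists_proj h).choose else 0

section
variable {D : Set ℂ}

theorem PQ_spec (hD : MeasurableSet D) (f : HH) : PQ D f =ᵐ[volume] D.indicator f := by
  unfold PQ
  rw [dif_pos hD]
  exact (exists_proj hD).choose_spec f

theorem PQ_sa (hD : MeasurableSet D) : IsSelfAdjoint (PQ D) := by
  rw [ContinuousLinearMap.isSelfAdjoint_iff_isSymmetric]
  intro f g
  show ⟪PQ D f, g⟫_ℂ = ⟪f, PQ D g⟫_ℂ
  rw [L2.inner_def, L2.inner_def]
  refine integral_congr_ae ?_
  filter_upwards [PQ_spec hD f, PQ_spec hD g] with x h1 h2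
  rw [h1, h2]
  by_cases hx : x ∈ D
  · simp [Set.indicator_of_mem hx]
  · simp [Set.indicator_of_notMem hx]

theorem PQ_id (hD : MeasurableSet D) : PQ D * PQ D = PQ D := by
  ext1 f
  apply Lp.ext
  show PQ D (PQ D f) =ᵐ[volume] PQ D f
  filter_upwards [PQ_spec hD f, PQ_spec hD (PQ D f)] with x h1 h2
  rw [h2]
  by_cases hx : x ∈ D
  · rw [Set.indicator_of_mem hx]
  · rw [Set.indicator_of_notMem hx, h1, Set.indicator_of_notMem hx]

/-- the operators of the approximation -/
theorem sysD (hD : MeasurableSet D) {t : ℝ} (ht : 0 < t) :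
    Sys (PQ D) (fun m => QQ (t / 2 ^ m)) where
  saP := PQ_sa hD
  idP := PQ_id hD
  saQ m := QQ_sa (by positivity)
  sq m := by
    have h : t / 2 ^ (m + 1) = t / 2 ^ m / 2 := by rw [pow_succ]; field_simp
    rw [h]
    exact QQ_sq (by positivity)
  nm m := (QQ_spec (by positivity)).1

theorem kbK (hD : IsOpen D) (m : ℕ) {t : ℝ} (ht : 0 < t) : KB t (Ker D m t) where
  meas := (H41.basic D hD m t ht).1
  nn x y := ((H41.basic D hD m t ht).2.1 x y).1
  le x y := ((H41.basic D hD m t ht).2.1 x y).2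

theorem comp_ker (hD : IsOpen D) {s : ℝ} (hs : 0 < s) :
    HasKer (PQ D * QQ s * PQ D) (Ker D 0 s) := by
  intro f
  have hDm := hD.measurableSet
  show PQ D (QQ s (PQ D f)) =ᵐ[volume] _
  filter_upwards [PQ_spec hDm (QQ s (PQ D f)), (QQ_spec hs).2 (PQ D f)] with x h1 h2
  rw [h1]
  by_cases hx : x ∈ D
  · rw [Set.indicator_of_mem hx, h2]
    refine integral_congr_ae ?_
    filter_upwards [PQ_spec hDm f] with y hy
    rw [hy]
    simp only [Ker]
    by_cases hy' : y ∈ D
    · simp [Set.indicator_of_mem hx, Set.indicator_of_mem hy']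
    · simp [Set.indicator_of_notMem hy']
  · rw [Set.indicator_of_notMem hx]
    symm
    apply integral_eq_zero_of_ae
    refine Eventually.of_forall fun y => ?_
    simp [Ker, Set.indicator_of_notMem hx]

theorem pow_ker (hD : IsOpen D) (m : ℕ) : ∀ t : ℝ, 0 < t → ∀ F : HH →L[ℂ] HH,
    HasKer F (Ker D 0 (t / 2 ^ m)) → HasKer (F ^ 2 ^ m) (Ker D m t) := by
  induction m with
  | zero =>
    intro t ht F hF
    simpa using hF
  | succ m ih =>
    intro t ht F hF
    have h : t / 2 ^ (m + 1) = t / 2 / 2 ^ m := by rw [pow_succ]; field_simp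
    rw [h] at hF
    have ht2 : 0 < t / 2 := by positivity
    have h1 := ih (t / 2) ht2 F hF
    have h2 := h1.comp h1 (kbK hD m ht2) (kbK hD m ht2) ht2
    have h3 : F ^ 2 ^ (m + 1) = F ^ 2 ^ m * F ^ 2 ^ m := by
      rw [← pow_add]
      congr 1
      ring
    rw [h3]
    exact h2

theorem Fo_ker (hD : IsOpen D) {t : ℝ} (ht : 0 < t) (m : ℕ) :
    HasKer (Fo (PQ D) (fun m => QQ (t / 2 ^ m)) m ^ 2 ^ m) (Ker D m t) :=
  pow_ker hD m t ht _ (comp_ker hD (by positivity))

end

/-- real functions as elements of the complex space -/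
theorem ofReal_memLp {f : ℂ → ℝ} (hf : MemLp f 2 volume) :
    MemLp (fun x => ((f x : ℝ) : ℂ)) 2 volume := hf.ofReal

/-- the complex version of a real function -/
noncomputable def cx {f : ℂ → ℝ} (hf : MemLp f 2 volume) : HH := (ofReal_memLp hf).toLp

theorem cx_coe {f : ℂ → ℝ} (hf : MemLp f 2 volume) : cx hf =ᵐ[volume] fun x => ((f x : ℝ) : ℂ) :=
  (ofReal_memLp hf).coeFn_toLp

theorem re_memLp (w : HH) : MemLp (fun x => (w x).re) 2 volume := (Lp.memLp w).re

theorem cx_inner {f : ℂ → ℝ} (hf : MemLp f 2 volume) (w : HH) :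
    (⟪cx hf, w⟫_ℂ).re = ∫ x, f x * (w x).re := by
  rw [L2.inner_def]
  have h1 : Integrable (fun x => ⟪(cx hf) x, w x⟫_ℂ) volume := L2.integrable_inner _ _
  have h2 := Complex.reCLM.integral_comp_comm h1
  simp only [Complex.reCLM_apply] at h2
  rw [← h2]
  refine integral_congr_ae ?_
  filter_upwards [cx_coe hf] with x hx
  rw [hx]
  simp [RCLike.inner_apply, mul_comm]

end Pool.Agent.H16F.H67
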