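import Pool.Agent.Helper67_Fine.Tay

/-!
BR, part 6: bounded energies imply weak differentiability.
-/

namespace Pool.Agent.H16F.H67

open MeasureTheory Complex Filter Topology Pool.Agent.H16Iso Pool.Agent.H62T
open scoped ENNReal NNReal InnerProductSpace ContDiff

theorem ip_le (z v : ℂ) : |ip z v| ≤ ‖z‖ * ‖v‖ := by
  have h : ip z v = ⟪z, v⟫_ℝ := by
    rw [Complex.inner]
    simp [ip]
    ring
  rw [h]
  exact abs_real_inner_le_norm z v

theorem G_fderiv {s : ℝ} (hs : 0 < s) (x y v : ℂ) :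
    DifferentiableAt ℝ (fun y => G s (x - y)) y ∧
    fderiv ℝ (fun y => G s (x - y)) y v = G s (x - y) * (ip (x - y) v / (2 * s)) := by
  have h1 : HasFDerivAt (fun y : ℂ => x - y) (-ContinuousLinearMap.id ℝ ℂ) y := by
    simpa using (hasFDerivAt_id y).const_sub x
  have h2 := h1.norm_sq
  have h3 := (h2.const_mul (-(4 * s)⁻¹)).exp.const_mul ((4 * Real.pi * s)⁻¹)
  have e : (fun y => G s (x - y)) = fun y =>
      (4 * Real.pi * s)⁻¹ * Real.exp (-(4 * s)⁻¹ * ‖x - y‖ ^ 2) := by
    funext y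
    exact H8.G_eq hs _
  rw [e]
  refine ⟨h3.differentiableAt, ?_⟩
  rw [h3.fderiv, H8.G_eq hs]
  have h4 : ip (x - y) v = ⟪x - y, v⟫_ℝ := by
    rw [Complex.inner]
    simp [ip]
    ring
  rw [h4]
  simp
  field_simp
  ring

theorem G_ibp {s : ℝ} (hs : 0 < s) {ψ : ℂ → ℝ} (hψ : ψ ∈ Test Set.univ) (x v : ℂ) :
    ∫ y, G s (x - y) * (ip (x - y) v / (2 * s)) * ψ y = -∫ y, G s (x - y) * fderiv ℝ ψ y v := by
  obtain ⟨h1, h2, h3⟩ := hψ
  have hc : Continuous fun y => G s (x - y) := (H8.G_cont s).comp (by fun_prop)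
  have hip : Continuous fun y => ip (x - y) v := by unfold ip; fun_prop
  have hd : Continuous fun y => fderiv ℝ ψ y v :=
    (h1.continuous_fderiv (by simp)).clm_apply continuous_const
  have hdc : HasCompactSupport fun y => fderiv ℝ ψ y v :=
    (h2.fderiv ℝ).comp_left (g := fun L : ℂ →L[ℝ] ℝ => L v) (by simp)
  have h4 := integral_mul_fderiv_eq_neg_fderiv_mul_of_integrable (μ := (volume : Measure ℂ))
    (f := fun y => G s (x - y)) (g := ψ) (v := v)
    (by
      have : (fun y => fderiv ℝ (fun y => G s (x - y)) y v * ψ y) =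
          fun y => G s (x - y) * (ip (x - y) v / (2 * s)) * ψ y := by
        funext y
        rw [(G_fderiv hs x y v).2]
      rw [this]
      exact ((hc.mul (hip.div_const _)).mul h1.continuous).integrable_of_hasCompactSupport
        (h2.mul_left))
    ((hc.mul hd).integrable_of_hasCompactSupport hdc.mul_left)
    ((hc.mul h1.continuous).integrable_of_hasCompactSupport h2.mul_left)
    (fun y _ => (G_fderiv hs x y v).1) (fun y _ => (h1.differentiable (by simp)) y)
  rw [h4, neg_neg]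
  refine integral_congr_ae (Eventually.of_forall fun y => ?_)
  simp only
  rw [(G_fderiv hs x y v).2]

/-- products with translates -/
theorem conv_int {k f : ℂ → ℝ} (hk : Integrable k) (hf : Integrable f) :
    Integrable (fun p : ℂ × ℂ => k (p.1 - p.2) * f p.2) (volume.prod volume) ∧
    ∫ p : ℂ × ℂ, k (p.1 - p.2) * f p.2 ∂(volume.prod volume) = (∫ z, k z) * ∫ y, f y := by
  have h1 : Integrable (fun p : ℂ × ℂ => k (p.1 - p.2) * f p.2) (volume.prod volume) := by
    have h := Integrable.convolution_integrand (ContinuousLinearMap.mul ℝ ℝ) hf hk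
      (μ := (volume : Measure ℂ)) (ν := (volume : Measure ℂ))
    refine h.congr (Eventually.of_forall fun p => ?_)
    simp only [ContinuousLinearMap.mul_apply']
    ring
  refine ⟨h1, ?_⟩
  rw [integral_prod_symm _ h1]
  simp only
  have e : ∀ y, ∫ x, k (x - y) * f y = (∫ z, k z) * f y := by
    intro y
    rw [integral_mul_const, integral_sub_right_eq_self]
  simp_rw [e]
  rw [integral_const_mul]

theorem disc {A B C : ℝ} (h : ∀ l : ℝ, 0 ≤ A * (l * l) + B * l + C) : B ^ 2 ≤ 4 * A * C := by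
  have := discrim_le_zero h
  unfold discrim at this
  linarith

theorem re_inner_Q {s : ℝ} (hs : 0 < s) (w u : HH) :
    Integrable (fun p : ℂ × ℂ => G s (p.1 - p.2) * ((starRingEnd ℂ) (u p.1) * w p.2).re)
      (volume.prod volume) ∧
    (⟪u, QQ s w⟫_ℂ).re = ∫ p : ℂ × ℂ, G s (p.1 - p.2) * ((starRingEnd ℂ) (u p.1) * w p.2).re
      ∂(volume.prod volume) := by
  have hu : MemLp (fun x => (starRingEnd ℂ) (u x)) 2 volume := by
    refine (Lp.memLp u).mono ?_ (Eventually.of_forall fun y => ?_)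
    · exact Complex.continuous_conj.comp_aestronglyMeasurable (Lp.memLp u).1
    · simp
  have h1 := (kbG hs).abs_int hs (Lp.memLp w) hu
  have h2 := (QQ_spec hs).2.inner (kbG hs) hs w u
  have e : ∀ p : ℂ × ℂ, (((G s (p.1 - p.2) : ℝ) : ℂ) *
      ((starRingEnd ℂ) (u p.1) * w p.2)).re =
      G s (p.1 - p.2) * ((starRingEnd ℂ) (u p.1) * w p.2).re := fun p => by
    rw [Complex.re_ofReal_mul]
  constructor
  · refine h1.re.congr (Eventually.of_forall fun p => ?_)
    exact e p
  · rw [h2]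
    have h3 := Complex.reCLM.integral_comp_comm h1
    simp only [Complex.reCLM_apply] at h3
    rw [← h3]
    exact integral_congr_ae (Eventually.of_forall e)

theorem fst_int {k f : ℂ → ℝ} (hk : Integrable k) (hks : ∀ z, k (-z) = k z) (hf : Integrable f) :
    Integrable (fun p : ℂ × ℂ => k (p.1 - p.2) * f p.1) (volume.prod volume) ∧
    ∫ p : ℂ × ℂ, k (p.1 - p.2) * f p.1 ∂(volume.prod volume) = (∫ z, k z) * ∫ y, f y := by
  obtain ⟨h1, h2⟩ := conv_int hk hf
  have e : (fun p : ℂ × ℂ => k (p.1 - p.2) * f p.1) =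
      (fun p : ℂ × ℂ => k (p.1 - p.2) * f p.2) ∘ Prod.swap := by
    funext p
    simp only [Function.comp_apply, Prod.fst_swap, Prod.snd_swap]
    rw [← hks (p.1 - p.2), neg_sub]
  constructor
  · rw [e]; exact h1.swap
  · rw [← h2, ← integral_prod_swap]
    refine integral_congr_ae (Eventually.of_forall fun p => ?_)
    simp only [Prod.fst_swap, Prod.snd_swap]
    rw [← hks (p.2 - p.1), neg_sub]

/-- the energy as a double integral -/
theorem energy_eq {s : ℝ} (hs : 0 < s) (w : HH) :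
    Integrable (fun p : ℂ × ℂ => G s (p.1 - p.2) * ‖w p.1 - w p.2‖ ^ 2) (volume.prod volume) ∧
    ∫ p : ℂ × ℂ, G s (p.1 - p.2) * ‖w p.1 - w p.2‖ ^ 2 ∂(volume.prod volume) =
      2 * (⟪w, w - QQ s w⟫_ℂ).re := by
  have hN : Integrable (fun x => ‖w x‖ ^ 2) volume := (Lp.memLp w).integrable_norm_pow (by simp)
  obtain ⟨a1, a2⟩ := conv_int (H8.G_integrable hs) hN
  obtain ⟨b1, b2⟩ := fst_int (H8.G_integrable hs) (H8.G_neg s) hN
  obtain ⟨c1, c2⟩ := re_inner_Q hs w w
  rw [H8.G_integral hs, one_mul] at a2 b2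
  have e : ∀ p : ℂ × ℂ, G s (p.1 - p.2) * ‖w p.1 - w p.2‖ ^ 2 =
      G s (p.1 - p.2) * ‖w p.1‖ ^ 2 + G s (p.1 - p.2) * ‖w p.2‖ ^ 2 -
      2 * (G s (p.1 - p.2) * ((starRingEnd ℂ) (w p.1) * w p.2).re) := by
    intro p
    have h1 : ‖w p.1 - w p.2‖ ^ 2 = ‖w p.1‖ ^ 2 + ‖w p.2‖ ^ 2 -
        2 * ((starRingEnd ℂ) (w p.1) * w p.2).re := by
      simp only [← Complex.normSq_eq_norm_sq, Complex.normSq_apply, Complex.sub_re,
        Complex.sub_im, Complex.mul_re, Complex.conj_re, Complex.conj_im]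
      ring
    rw [h1]
    ring
  simp_rw [e]
  refine ⟨(b1.add a1).sub (c1.const_mul 2), ?_⟩
  have h1 : Integrable (fun p : ℂ × ℂ => G s (p.1 - p.2) * ‖w p.1‖ ^ 2 +
      G s (p.1 - p.2) * ‖w p.2‖ ^ 2) (volume.prod volume) := b1.add a1
  rw [integral_sub h1 (c1.const_mul 2), integral_add b1 a1, integral_const_mul, a2, b2, ← c2,
    inner_sub_right, Complex.sub_re]
  have h2 : (⟪w, w⟫_ℂ).re = ∫ x, ‖w x‖ ^ 2 := by
    rw [L2.inner_def]
    have h3 : Integrable (fun x => ⟪w x, w x⟫_ℂ) volume := L2.integrable_inner _ _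
    have h4 := Complex.reCLM.integral_comp_comm h3
    simp only [Complex.reCLM_apply] at h4
    rw [← h4]
    refine integral_congr_ae (Eventually.of_forall fun x => ?_)
    simp only
    rw [inner_self_eq_norm_sq_to_K]
    norm_cast
  rw [h2]
  ring

/-- the energy at time `s` -/
theorem energy_bound {s : ℝ} (hs : 0 < s) (w : HH) {ψ : ℂ → ℝ} (hψ : ψ ∈ Test Set.univ) (v : ℂ)
    (hd : MemLp (fun y => fderiv ℝ ψ y v) 2 volume) :
    (⟪w, QQ s (cx hd)⟫_ℂ).re ^ 2 ≤
      (2 * (⟪w, w - QQ s w⟫_ℂ).re) * (‖v‖ ^ 2 / s * ∫ y, ψ y ^ 2) := by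
  obtain ⟨hE1, hE2⟩ := energy_eq hs w
  set w1 : ℂ → ℝ := fun x => (w x).re with hw1
  have hw1m : AEStronglyMeasurable w1 volume := (re_memLp w).1
  let a : ℂ × ℂ → ℝ := fun p => w1 p.1 - w1 p.2
  let b : ℂ × ℂ → ℝ := fun p => ip (p.1 - p.2) v / (2 * s) * ψ p.2
  let g : ℂ × ℂ → ℝ := fun p => G s (p.1 - p.2)
  have hg0 : ∀ p, 0 ≤ g p := fun p => H8.G_nonneg hs _
  have hgm : Continuous g := (H8.G_cont s).comp (continuous_fst.sub continuous_snd)
  have hbm : Continuous b := by
    have := hψ.1.continuous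
    simp only [b, ip]
    fun_prop
  have ham : AEStronglyMeasurable a (volume.prod volume) := hw1m.comp_fst.sub hw1m.comp_snd
  -- squares
  have haa : Integrable (fun p => g p * a p ^ 2) (volume.prod volume) := by
    refine hE1.mono' (hgm.aestronglyMeasurable.mul (ham.pow 2)) (Eventually.of_forall fun p => ?_)
    rw [norm_mul, Real.norm_of_nonneg (hg0 p), Real.norm_of_nonneg (sq_nonneg _)]
    refine mul_le_mul_of_nonneg_left ?_ (hg0 p)
    rw [← sq_abs]
    refine pow_le_pow_left₀ (abs_nonneg _) ?_ 2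
    have : a p = (w p.1 - w p.2).re := by simp [a, hw1]
    rw [this]
    exact Complex.abs_re_le_norm _
  have haI : ∫ p, g p * a p ^ 2 ∂(volume.prod volume) ≤ 2 * (⟪w, w - QQ s w⟫_ℂ).re := by
    rw [← hE2]
    refine integral_mono haa hE1 fun p => ?_
    refine mul_le_mul_of_nonneg_left ?_ (hg0 p)
    rw [← sq_abs]
    refine pow_le_pow_left₀ (abs_nonneg _) ?_ 2
    have : a p = (w p.1 - w p.2).re := by simp [a, hw1]
    rw [this]
    exact Complex.abs_re_le_norm _
  have hψ2 : Integrable (fun y => ψ y ^ 2) volume := (test_memLp hψ).integrable_sq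
  obtain ⟨c1, c2⟩ := conv_int (H8.G_norm_sq_integrable hs) hψ2
  have hble : ∀ p, g p * b p ^ 2 ≤ ‖v‖ ^ 2 / (4 * s ^ 2) *
      (G s (p.1 - p.2) * ‖p.1 - p.2‖ ^ 2 * ψ p.2 ^ 2) := by
    intro p
    have h1 : (ip (p.1 - p.2) v) ^ 2 ≤ ‖p.1 - p.2‖ ^ 2 * ‖v‖ ^ 2 := by
      rw [← sq_abs, ← mul_pow]
      exact pow_le_pow_left₀ (abs_nonneg _) (ip_le _ _) 2
    have h2 : g p * b p ^ 2 = (1 / (4 * s ^ 2)) * (g p * ψ p.2 ^ 2) *
        (ip (p.1 - p.2) v) ^ 2 := by
      simp only [b]
      field_simp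
      ring
    rw [h2]
    have h3 : 0 ≤ (1 / (4 * s ^ 2)) * (g p * ψ p.2 ^ 2) := by
      have := hg0 p
      positivity
    refine (mul_le_mul_of_nonneg_left h1 h3).trans (le_of_eq ?_)
    simp only [g]
    ring
  have hbb : Integrable (fun p => g p * b p ^ 2) (volume.prod volume) := by
    refine (c1.const_mul (‖v‖ ^ 2 / (4 * s ^ 2))).mono'
      (hgm.aestronglyMeasurable.mul (hbm.aestronglyMeasurable.pow 2))
      (Eventually.of_forall fun p => ?_)
    rw [norm_mul, Real.norm_of_nonneg (hg0 p), Real.norm_of_nonneg (sq_nonneg _)]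
    exact hble p
  have hbI : ∫ p, g p * b p ^ 2 ∂(volume.prod volume) ≤ ‖v‖ ^ 2 / s * ∫ y, ψ y ^ 2 := by
    refine (integral_mono hbb (c1.const_mul (‖v‖ ^ 2 / (4 * s ^ 2))) hble).trans (le_of_eq ?_)
    rw [integral_const_mul, c2, H8.G_norm_sq hs]
    field_simp
  have hprod : ∀ {u : ℂ × ℂ → ℝ}, AEStronglyMeasurable u (volume.prod volume) →
      Integrable (fun p => g p * u p ^ 2) (volume.prod volume) →
      Integrable (fun p => g p * (u p * b p)) (volume.prod volume) := by
    intro u hu huu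
    refine (huu.add hbb).mono' (hgm.aestronglyMeasurable.mul
      (hu.mul hbm.aestronglyMeasurable)) (Eventually.of_forall fun p => ?_)
    rw [norm_mul, Real.norm_of_nonneg (hg0 p), Real.norm_eq_abs, Pi.add_apply, ← mul_add]
    refine mul_le_mul_of_nonneg_left ?_ (hg0 p)
    rw [abs_mul]
    nlinarith [sq_nonneg (|u p| - |b p|), sq_abs (u p), sq_abs (b p), sq_nonneg (|u p|),
      sq_nonneg (|b p|)]
  have hab : Integrable (fun p => g p * (a p * b p)) (volume.prod volume) := hprod ham haa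
  -- Cauchy-Schwarz
  have hcs : (∫ p, g p * (a p * b p) ∂(volume.prod volume)) ^ 2 ≤
      (∫ p, g p * a p ^ 2 ∂(volume.prod volume)) * ∫ p, g p * b p ^ 2 ∂(volume.prod volume) := by
    have h1 : ∀ l : ℝ, 0 ≤ (∫ p, g p * b p ^ 2 ∂(volume.prod volume)) * (l * l) +
        (2 * ∫ p, g p * (a p * b p) ∂(volume.prod volume)) * l +
        ∫ p, g p * a p ^ 2 ∂(volume.prod volume) := by
      intro l
      have h2 : 0 ≤ ∫ p, g p * (a p + l * b p) ^ 2 ∂(volume.prod volume) :=
        integral_nonneg fun p => mul_nonneg (hg0 p) (sq_nonneg _)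
      have h3 : ∀ p, g p * (a p + l * b p) ^ 2 =
          g p * a p ^ 2 + 2 * l * (g p * (a p * b p)) + l * l * (g p * b p ^ 2) := fun p => by
        ring
      simp_rw [h3] at h2
      have h4 : Integrable (fun p => g p * a p ^ 2 + 2 * l * (g p * (a p * b p)))
          (volume.prod volume) := haa.add (hab.const_mul _)
      rw [integral_add h4 (hbb.const_mul _), integral_add haa (hab.const_mul _),
        integral_const_mul, integral_const_mul] at h2
      linarith
    have h5 := disc h1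
    linarith
  -- the product term
  have hN1 : Integrable (fun x => w1 x ^ 2) volume := (re_memLp w).integrable_sq
  have i1 := (fst_int (H8.G_integrable hs) (H8.G_neg s) hN1).1
  have i2 := (conv_int (H8.G_integrable hs) hN1).1
  have j1 : Integrable (fun p => g p * (w1 p.1 * b p)) (volume.prod volume) :=
    hprod (u := fun p => w1 p.1) hw1m.comp_fst i1
  have j2 : Integrable (fun p => g p * (w1 p.2 * b p)) (volume.prod volume) :=
    hprod (u := fun p => w1 p.2) hw1m.comp_snd i2
  have hz : ∫ p, g p * (w1 p.2 * b p) ∂(volume.prod volume) = 0 := by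
    rw [integral_prod_symm _ j2]
    apply integral_eq_zero_of_ae
    refine Eventually.of_forall fun y => ?_
    simp only [g, b, Pi.zero_apply]
    let L : ℂ →L[ℝ] ℝ := (innerSL ℝ v)
    have hL : ∀ z, L z = ip z v := by
      intro z
      simp only [L, innerSL_apply_apply, Complex.inner, ip]
      simp
    have h1 : ∀ x, G s (x - y) * (w1 y * (ip (x - y) v / (2 * s) * ψ y)) =
        (w1 y * ψ y / (2 * s)) * (G s (x - y) * L (x - y)) := by
      intro x
      rw [hL]
      ring
    simp_rw [h1]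
    rw [integral_const_mul, integral_sub_right_eq_self (fun z => G s z * L z), (G_mom1 hs L).2,
      mul_zero]
  have hmain : ∫ p, g p * (a p * b p) ∂(volume.prod volume) =
      -(⟪w, QQ s (cx hd)⟫_ℂ).re := by
    have h1 : ∀ p, g p * (a p * b p) = g p * (w1 p.1 * b p) - g p * (w1 p.2 * b p) := fun p => by
      simp only [a]; ring
    simp_rw [h1]
    rw [integral_sub j1 j2, hz, sub_zero, integral_prod _ j1]
    obtain ⟨k1, k2⟩ := re_inner_Q hs (cx hd) w
    rw [k2, integral_prod _ k1, ← integral_neg]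
    refine integral_congr_ae (Eventually.of_forall fun x => ?_)
    simp only [g, b]
    have h2 : ∫ y, G s (x - y) * (w1 x * (ip (x - y) v / (2 * s) * ψ y)) =
        w1 x * ∫ y, G s (x - y) * (ip (x - y) v / (2 * s)) * ψ y := by
      rw [← integral_const_mul]
      refine integral_congr_ae (Eventually.of_forall fun y => ?_)
      simp only
      ring
    have h3 : ∫ y, G s (x - y) * ((starRingEnd ℂ) (w x) * (cx hd) y).re =
        w1 x * ∫ y, G s (x - y) * fderiv ℝ ψ y v := by
      rw [← integral_const_mul]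
      refine integral_congr_ae ?_
      filter_upwards [cx_coe hd] with y hy
      rw [hy]
      simp [hw1]
      ring
    rw [h2, h3, G_ibp hs hψ x v]
    ring
  rw [hmain, neg_sq] at hcs
  refine hcs.trans ?_
  have h0 : 0 ≤ ∫ p, g p * b p ^ 2 ∂(volume.prod volume) :=
    integral_nonneg fun p => mul_nonneg (hg0 p) (sq_nonneg _)
  have h0' : 0 ≤ ∫ p, g p * a p ^ 2 ∂(volume.prod volume) :=
    integral_nonneg fun p => mul_nonneg (hg0 p) (sq_nonneg _)
  exact mul_le_mul haI hbI h0 (h0'.trans haI)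

end Pool.Agent.H16F.H67
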