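import Pool.Agent.Helper16_Fine.Stmt2
import Pool.Agent.Helper41_TRI.Ker
import Pool.Agent.Helper8_TRI.LowA

/-!
BR, part 1: integral operators on the complex `L²` of the plane whose kernels are dominated by the
heat kernel.
-/

namespace Pool.Agent.H16F.H67

open MeasureTheory Complex Filter Topology Pool.Agent.H16Iso Pool.Agent.H62T
open scoped ENNReal NNReal InnerProductSpace

/-- the complex `L²` space of the plane -/
abbrev HH : Type := Lp ℂ 2 (volume : Measure ℂ)

/-- a kernel dominated by the heat kernel -/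
structure KB (s : ℝ) (K : ℂ → ℂ → ℝ) : Prop where
  meas : Measurable (Function.uncurry K)
  nn : ∀ x y, 0 ≤ K x y
  le : ∀ x y, K x y ≤ G s (x - y)

theorem sq_lint {k h : ℂ → ℝ≥0∞} (hk : Measurable k) (hh : AEMeasurable h) :
    (∫⁻ y, k y * h y) ^ 2 ≤ (∫⁻ y, k y) * ∫⁻ y, k y * h y ^ 2 := by
  have h1 := ENNReal.lintegral_mul_le_Lp_mul_Lq volume (p := 2) (q := 2)
    (by rw [Real.holderConjugate_iff]; norm_num)
    (f := fun y => k y ^ (1 / 2 : ℝ)) (g := fun y => k y ^ (1 / 2 : ℝ) * h y)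
    (hk.pow_const _).aemeasurable ((hk.pow_const _).aemeasurable.mul hh)
  have e1 : ∀ y, k y ^ (1 / 2 : ℝ) * (k y ^ (1 / 2 : ℝ) * h y) = k y * h y := by
    intro y
    rw [← mul_assoc, ← ENNReal.rpow_add_of_nonneg _ _ (by norm_num) (by norm_num)]
    norm_num
  have e2 : ∀ y, (k y ^ (1 / 2 : ℝ)) ^ (2 : ℝ) = k y := by
    intro y
    rw [← ENNReal.rpow_mul]
    norm_num
  have e3 : ∀ y, (k y ^ (1 / 2 : ℝ) * h y) ^ (2 : ℝ) = k y * h y ^ 2 := by
    intro y
    rw [ENNReal.mul_rpow_of_nonneg _ _ (by norm_num), e2]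
    norm_num
  simp only [Pi.mul_apply] at h1
  simp_rw [e1, e2, e3] at h1
  calc (∫⁻ y, k y * h y) ^ 2 ≤ ((∫⁻ y, k y) ^ (1 / 2 : ℝ) *
        (∫⁻ y, k y * h y ^ 2) ^ (1 / 2 : ℝ)) ^ 2 := by gcongr
    _ = _ := by
        rw [mul_pow]
        congr 1
        · rw [← ENNReal.rpow_natCast, ← ENNReal.rpow_mul]; norm_num
        · rw [← ENNReal.rpow_natCast, ← ENNReal.rpow_mul]; norm_num

theorem lint_G {s : ℝ} (hs : 0 < s) : ∫⁻ z, ENNReal.ofReal (G s z) = 1 := by
  rw [← ofReal_integral_eq_lintegral_ofReal (H8.G_integrable hs)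
    (Eventually.of_forall fun z => H8.G_nonneg hs z), H8.G_integral hs, ENNReal.ofReal_one]

theorem lint_G' {s : ℝ} (hs : 0 < s) (x : ℂ) : ∫⁻ y, ENNReal.ofReal (G s (x - y)) = 1 := by
  rw [lintegral_sub_left_eq_self (fun z => ENNReal.ofReal (G s z)) x, lint_G hs]

theorem lint_G'' {s : ℝ} (hs : 0 < s) (y : ℂ) : ∫⁻ x, ENNReal.ofReal (G s (x - y)) = 1 := by
  rw [lintegral_sub_right_eq_self (fun z => ENNReal.ofReal (G s z)) y, lint_G hs]

theorem meas_G (s : ℝ) : Measurable fun p : ℂ × ℂ => ENNReal.ofReal (G s (p.1 - p.2)) :=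
  ((H8.G_meas s).comp (measurable_fst.sub measurable_snd)).ennreal_ofReal

theorem meas_Gl (s : ℝ) (x : ℂ) : Measurable fun y : ℂ => ENNReal.ofReal (G s (x - y)) :=
  ((H8.G_meas s).comp (measurable_const.sub measurable_id)).ennreal_ofReal

theorem meas_Gr (s : ℝ) (y : ℂ) : Measurable fun x : ℂ => ENNReal.ofReal (G s (x - y)) :=
  ((H8.G_meas s).comp (measurable_id.sub measurable_const)).ennreal_ofReal

/-- Jensen inequality for the heat kernel -/
theorem jen {s : ℝ} (hs : 0 < s) {h : ℂ → ℂ → ℝ≥0∞} (hh : ∀ x, AEMeasurable (h x)) :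
    ∫⁻ x, (∫⁻ y, ENNReal.ofReal (G s (x - y)) * h x y) ^ 2
      ≤ ∫⁻ x, ∫⁻ y, ENNReal.ofReal (G s (x - y)) * h x y ^ 2 := by
  refine lintegral_mono fun x => ?_
  have h0 := meas_Gl s x
  have h1 := sq_lint h0 (hh x)
  rw [lint_G' hs, one_mul] at h1
  exact h1

theorem jen' {s : ℝ} (hs : 0 < s) {h : ℂ → ℝ≥0∞} (hh : AEMeasurable h) :
    ∫⁻ x, (∫⁻ y, ENNReal.ofReal (G s (x - y)) * h y) ^ 2 ≤ ∫⁻ y, h y ^ 2 := by
  refine (jen hs (h := fun _ => h) fun _ => hh).trans (le_of_eq ?_)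
  rw [lintegral_lintegral_swap]
  · refine lintegral_congr fun y => ?_
    have h0 := meas_Gr s y
    rw [lintegral_mul_const _ h0, lint_G'' hs, one_mul]
  · have h1 : AEMeasurable (fun p : ℂ × ℂ => h p.2 ^ 2) (volume.prod volume) :=
      (hh.comp_snd (μ := volume)).pow_const 2
    exact (meas_G s).aemeasurable.mul h1

theorem G_memLp {s : ℝ} (hs : 0 < s) : MemLp (G s) 2 volume := by
  rw [memLp_two_iff_integrable_sq (H8.G_meas s).aestronglyMeasurable]
  have h1 : Integrable fun z => G s z * G s z := by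
    refine (H8.G_integrable hs).bdd_mul (c := (4 * Real.pi * s)⁻¹)
      (H8.G_meas s).aestronglyMeasurable (Eventually.of_forall fun z => ?_)
    rw [Real.norm_of_nonneg (H8.G_nonneg hs _)]
    exact H8.G_le hs z
  refine h1.congr (Eventually.of_forall fun z => ?_)
  simp only
  ring

theorem G_memLp' {s : ℝ} (hs : 0 < s) (x : ℂ) : MemLp (fun y => G s (x - y)) 2 volume :=
  (G_memLp hs).comp_measurePreserving (Measure.measurePreserving_sub_left volume x)

section
variable {s : ℝ} {K : ℂ → ℂ → ℝ}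

theorem KB.sl (hK : KB s K) (hs : 0 < s) (x : ℂ) : MemLp (fun y => ((K x y : ℝ) : ℂ)) 2 volume := by
  refine (G_memLp' hs x).mono ?_ (Eventually.of_forall fun y => ?_)
  · exact (Complex.measurable_ofReal.comp
      (hK.meas.comp measurable_prodMk_left)).aestronglyMeasurable
  · rw [Complex.norm_real, Real.norm_of_nonneg (hK.nn x y), Real.norm_of_nonneg (H8.G_nonneg hs _)]
    exact hK.le x y

theorem KB.int (hK : KB s K) (hs : 0 < s) (x : ℂ) {f : ℂ → ℂ} (hf : MemLp f 2 volume) :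
    Integrable fun y => ((K x y : ℝ) : ℂ) * f y :=
  MemLp.integrable_mul (hK.sl hs x) hf

theorem KB.enorm_le (hK : KB s K) (f : ℂ → ℂ) (x : ℂ) :
    ‖∫ y, ((K x y : ℝ) : ℂ) * f y‖ₑ ≤ ∫⁻ y, ENNReal.ofReal (G s (x - y)) * ‖f y‖ₑ := by
  refine (enorm_integral_le_lintegral_enorm _).trans (lintegral_mono fun y => ?_)
  rw [enorm_mul]
  gcongr
  rw [← ofReal_norm, Complex.norm_real, Real.norm_of_nonneg (hK.nn x y)]
  exact ENNReal.ofReal_le_ofReal (hK.le x y)

theorem two_eLp {f : ℂ → ℂ} : eLpNorm f 2 volume = (∫⁻ x, ‖f x‖ₑ ^ 2) ^ (1 / 2 : ℝ) := by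
  rw [eLpNorm_eq_lintegral_rpow_enorm_toReal (by norm_num) (by norm_num)]
  norm_num

theorem KB.lp (hK : KB s K) (hs : 0 < s) {f : ℂ → ℂ} (hf : MemLp f 2 volume) :
    MemLp (fun x => ∫ y, ((K x y : ℝ) : ℂ) * f y) 2 volume ∧
      eLpNorm (fun x => ∫ y, ((K x y : ℝ) : ℂ) * f y) 2 volume ≤ eLpNorm f 2 volume := by
  have h1 : AEStronglyMeasurable (fun x => ∫ y, ((K x y : ℝ) : ℂ) * f y) volume := by
    have h2 : AEStronglyMeasurable (fun p : ℂ × ℂ => ((K p.1 p.2 : ℝ) : ℂ) * f p.2)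
        (volume.prod volume) :=
      (Complex.measurable_ofReal.comp hK.meas).aestronglyMeasurable.mul hf.1.comp_snd
    exact h2.integral_prod_right'
  have h2 : eLpNorm (fun x => ∫ y, ((K x y : ℝ) : ℂ) * f y) 2 volume ≤ eLpNorm f 2 volume := by
    rw [two_eLp, two_eLp]
    gcongr ?_ ^ _
    refine le_trans (lintegral_mono fun x => ?_) (jen' hs hf.1.enorm)
    exact pow_le_pow_left₀ zero_le (hK.enorm_le f x) 2
  exact ⟨⟨h1, h2.trans_lt hf.2⟩, h2⟩

/-- the operator `T` has the kernel `K` -/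
def HasKer (T : HH →L[ℂ] HH) (K : ℂ → ℂ → ℝ) : Prop :=
  ∀ f : HH, T f =ᵐ[volume] fun x => ∫ y, ((K x y : ℝ) : ℂ) * f y

theorem KB.exists_op (hK : KB s K) (hs : 0 < s) : ∃ T : HH →L[ℂ] HH, ‖T‖ ≤ 1 ∧ HasKer T K := by
  have hm : ∀ f : HH, MemLp (fun x => ∫ y, ((K x y : ℝ) : ℂ) * f y) 2 volume := fun f =>
    (hK.lp hs (Lp.memLp f)).1
  let L : HH →ₗ[ℂ] HH :=
    { toFun := fun f => (hm f).toLp
      map_add' := fun f g => by
        apply Lp.ext
        filter_upwards [(hm (f + g)).coeFn_toLp, (hm f).coeFn_toLp, (hm g).coeFn_toLp,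
          Lp.coeFn_add ((hm f).toLp) ((hm g).toLp)] with x h1 h2 h3 h4
        rw [h1, h4, Pi.add_apply, h2, h3,
          ← integral_add (hK.int hs x (Lp.memLp f)) (hK.int hs x (Lp.memLp g))]
        refine integral_congr_ae ?_
        filter_upwards [Lp.coeFn_add f g] with y hy
        rw [hy, Pi.add_apply, mul_add]
      map_smul' := fun c f => by
        apply Lp.ext
        filter_upwards [(hm (c • f)).coeFn_toLp, (hm f).coeFn_toLp,
          Lp.coeFn_smul c ((hm f).toLp)] with x h1 h2 h3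
        simp only [RingHom.id_apply]
        rw [h1, h3, Pi.smul_apply, h2, smul_eq_mul, ← integral_const_mul]
        refine integral_congr_ae ?_
        filter_upwards [Lp.coeFn_smul c f] with y hy
        rw [hy, Pi.smul_apply, smul_eq_mul]
        ring }
  have hb : ∀ f : HH, ‖L f‖ ≤ 1 * ‖f‖ := by
    intro f
    rw [one_mul]
    show ‖(hm f).toLp‖ ≤ ‖f‖
    rw [Lp.norm_toLp, Lp.norm_def]
    exact ENNReal.toReal_mono (Lp.memLp f).2.ne (hK.lp hs (Lp.memLp f)).2
  refine ⟨L.mkContinuous 1 hb, L.mkContinuous_norm_le zero_le_one hb, fun f => ?_⟩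
  exact (hm f).coeFn_toLp

/-- the absolute version of the kernel integral -/
theorem KB.abs_int (hK : KB s K) (hs : 0 < s) {f g : ℂ → ℂ} (hf : MemLp f 2 volume)
    (hg : MemLp g 2 volume) :
    Integrable (fun p : ℂ × ℂ => ((K p.1 p.2 : ℝ) : ℂ) * (g p.1 * f p.2)) (volume.prod volume) := by
  have hmeas : AEStronglyMeasurable
      (fun p : ℂ × ℂ => ((K p.1 p.2 : ℝ) : ℂ) * (g p.1 * f p.2)) (volume.prod volume) :=
    (Complex.measurable_ofReal.comp hK.meas).aestronglyMeasurable.mul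
      (hg.1.comp_fst.mul hf.1.comp_snd)
  rw [integrable_prod_iff hmeas]
  constructor
  · refine Eventually.of_forall fun x => ?_
    refine ((hK.int hs x hf).const_mul (g x)).congr (Eventually.of_forall fun y => ?_)
    simp only
    ring
  · have h1 := (hK.lp hs (f := fun y => ((‖f y‖ : ℝ) : ℂ)) (by
      refine hf.mono ?_ (Eventually.of_forall fun y => ?_)
      · exact Complex.continuous_ofReal.comp_aestronglyMeasurable hf.1.norm
      · simp)).1
    have h2 := (MemLp.integrable_mul hg h1).norm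
    refine h2.congr (Eventually.of_forall fun x => ?_)
    simp only [Pi.mul_apply, norm_mul, Complex.norm_real, Real.norm_eq_abs]
    have e1 : ∀ y, |K x y| * (‖g x‖ * ‖f y‖) = ‖g x‖ * (K x y * ‖f y‖) := by
      intro y
      rw [abs_of_nonneg (hK.nn x y)]
      ring
    simp_rw [e1]
    rw [integral_const_mul]
    congr 1
    have e2 : ∀ y, ((K x y : ℝ) : ℂ) * ((‖f y‖ : ℝ) : ℂ) = ((K x y * ‖f y‖ : ℝ) : ℂ) := by
      intro y; push_cast; ring
    simp_rw [e2]
    rw [integral_complex_ofReal, Complex.norm_real, Real.norm_of_nonneg]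
    exact integral_nonneg fun y => mul_nonneg (hK.nn x y) (norm_nonneg _)

/-- the sesquilinear form of a kernel operator -/
theorem HasKer.inner {T : HH →L[ℂ] HH} (hT : HasKer T K) (hK : KB s K) (hs : 0 < s) (f g : HH) :
    ⟪g, T f⟫_ℂ = ∫ p : ℂ × ℂ, ((K p.1 p.2 : ℝ) : ℂ) * ((starRingEnd ℂ) (g p.1) * f p.2)
      ∂(volume.prod volume) := by
  have hg : MemLp (fun x => (starRingEnd ℂ) (g x)) 2 volume := by
    refine (Lp.memLp g).mono ?_ (Eventually.of_forall fun y => ?_)
    · exact Complex.continuous_conj.comp_aestronglyMeasurable (Lp.memLp g).1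
    · simp
  rw [L2.inner_def, integral_prod _ (hK.abs_int hs (Lp.memLp f) hg)]
  refine integral_congr_ae ?_
  filter_upwards [hT f] with x hx
  rw [hx]
  simp only [RCLike.inner_apply]
  rw [mul_comm, ← integral_const_mul]
  refine integral_congr_ae (Eventually.of_forall fun y => ?_)
  simp only
  ring

theorem HasKer.selfAdjoint {T : HH →L[ℂ] HH} (hT : HasKer T K) (hK : KB s K) (hs : 0 < s)
    (hsym : ∀ x y, K x y = K y x) : IsSelfAdjoint T := by
  rw [ContinuousLinearMap.isSelfAdjoint_iff_isSymmetric]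
  intro f g
  show ⟪T f, g⟫_ℂ = ⟪f, T g⟫_ℂ
  rw [← inner_conj_symm, hT.inner hK hs, hT.inner hK hs, ← integral_conj,
    ← integral_prod_swap]
  refine integral_congr_ae (Eventually.of_forall fun p => ?_)
  simp only [Prod.fst_swap, Prod.snd_swap, map_mul, Complex.conj_conj, Complex.conj_ofReal]
  rw [hsym p.2 p.1]
  ring

/-- composition of kernel operators -/
theorem HasKer.comp {T S : HH →L[ℂ] HH} {L : ℂ → ℂ → ℝ} (hT : HasKer T K) (hS : HasKer S L)
    (hK : KB s K) (hL : KB s L) (hs : 0 < s) :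
    HasKer (T * S) (fun x y => ∫ z, K x z * L z y) := by
  intro f
  have h1 : (T * S) f = T (S f) := rfl
  rw [h1]
  filter_upwards [hT (S f)] with x hx
  rw [hx]
  have h2 : ∫ z, ((K x z : ℝ) : ℂ) * S f z =
      ∫ z, ∫ y, ((K x z : ℝ) : ℂ) * (((L z y : ℝ) : ℂ) * f y) := by
    refine integral_congr_ae ?_
    filter_upwards [hS f] with z hz
    rw [hz, integral_const_mul]
  rw [h2]
  have hmeas : AEStronglyMeasurable
      (fun p : ℂ × ℂ => ((K x p.1 : ℝ) : ℂ) * (((L p.1 p.2 : ℝ) : ℂ) * f p.2))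
      (volume.prod volume) := by
    have a1 : Measurable fun p : ℂ × ℂ => ((K x p.1 : ℝ) : ℂ) :=
      Complex.measurable_ofReal.comp ((hK.meas.comp measurable_prodMk_left).comp measurable_fst)
    exact a1.aestronglyMeasurable.mul
      ((Complex.measurable_ofReal.comp hL.meas).aestronglyMeasurable.mul
        (Lp.memLp f).1.comp_snd)
  have hint : Integrable
      (fun p : ℂ × ℂ => ((K x p.1 : ℝ) : ℂ) * (((L p.1 p.2 : ℝ) : ℂ) * f p.2))
      (volume.prod volume) := by
    have h3 := hL.abs_int hs (Lp.memLp f) (hK.sl hs x)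
    refine h3.congr (Eventually.of_forall fun p => ?_)
    simp only
    ring
  rw [integral_integral_swap (f := fun z y => ((K x z : ℝ) : ℂ) * (((L z y : ℝ) : ℂ) * f y)) hint]
  refine integral_congr_ae (Eventually.of_forall fun y => ?_)
  simp only
  rw [← integral_complex_ofReal, ← integral_mul_const]
  refine integral_congr_ae (Eventually.of_forall fun z => ?_)
  simp only
  push_cast
  ring

end

end Pool.Agent.H16F.H67
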