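import Pool.Agent.Helper67_Fine.Conc

/-!
BR, part 5: the generator of the heat operators on test functions.
-/

namespace Pool.Agent.H16F.H67

open MeasureTheory Complex Filter Topology Pool.Agent.H16Iso Pool.Agent.H62T
open scoped ENNReal NNReal InnerProductSpace ContDiff

section
variable {φ : ℂ → ℝ}

/-- second derivative -/
noncomputable def D2 (φ : ℂ → ℝ) : ℂ → ℂ →L[ℝ] ℂ →L[ℝ] ℝ := fderiv ℝ (fderiv ℝ φ)

theorem lap_eq (hφ : ContDiff ℝ ∞ φ) (x : ℂ) : lap φ x = D2 φ x 1 1 + D2 φ x I I := by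
  have h1 : Differentiable ℝ (fderiv ℝ φ) :=
    (hφ.fderiv_right (m := ∞) (by simp)).differentiable (by simp)
  have h2 : ∀ v : ℂ, fderiv ℝ (fun y => fderiv ℝ φ y v) x = (D2 φ x).flip v := by
    intro v
    ext w
    have h3 := (h1 x).hasFDerivAt.clm_apply (hasFDerivAt_const v x)
    rw [h3.fderiv]
    simp [D2]
  unfold lap
  rw [h2 1, h2 I]
  simp

/-- the second order Taylor remainder -/
noncomputable def rho (φ : ℂ → ℝ) (x y : ℂ) : ℝ :=
  φ y - φ x - fderiv ℝ φ x (y - x) - D2 φ x (y - x) (y - x) / 2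

theorem rho_cont (hφ : ContDiff ℝ ∞ φ) : Continuous (Function.uncurry (rho φ)) := by
  have h1 : Continuous (fderiv ℝ φ) := hφ.continuous_fderiv (by simp)
  have h2 : Continuous (D2 φ) :=
    (hφ.fderiv_right (m := ∞) (by simp)).continuous_fderiv (by simp)
  have h3 := hφ.continuous
  unfold rho Function.uncurry
  fun_prop

theorem tay_deriv (hφ : ContDiff ℝ ∞ φ) (x h : ℂ) (s : ℝ) :
    HasDerivAt (fun s : ℝ => fderiv ℝ φ (x + s • h) h - fderiv ℝ φ x h - s * D2 φ x h h)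
      (D2 φ (x + s • h) h h - D2 φ x h h) s := by
  have hd1 : ContDiff ℝ ∞ (fderiv ℝ φ) := hφ.fderiv_right (m := ∞) (by simp)
  have hγ : HasDerivAt (fun s : ℝ => x + s • h) h s := by
    have := ((hasDerivAt_id s).smul_const h).const_add x
    simpa using this
  have e1 : HasDerivAt (fun s : ℝ => fderiv ℝ φ (x + s • h)) (D2 φ (x + s • h) h) s :=
    ((hd1.differentiable (by simp)) (x + s • h)).hasFDerivAt.comp_hasDerivAt s hγ
  have e2 : HasDerivAt (fun s : ℝ => fderiv ℝ φ (x + s • h) h) (D2 φ (x + s • h) h h) s := by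
    have := e1.clm_apply (hasDerivAt_const s h)
    simpa using this
  have e3 : HasDerivAt (fun s : ℝ => s * D2 φ x h h) (D2 φ x h h) s := by
    have := (hasDerivAt_id s).mul_const (D2 φ x h h)
    simpa using this
  exact (e2.sub_const _).sub e3

theorem tay_deriv' (hφ : ContDiff ℝ ∞ φ) (x h : ℂ) (s : ℝ) :
    HasDerivAt (fun s : ℝ => φ (x + s • h) - s * fderiv ℝ φ x h - s ^ 2 * (D2 φ x h h / 2))
      (fderiv ℝ φ (x + s • h) h - fderiv ℝ φ x h - s * D2 φ x h h) s := by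
  have hγ : HasDerivAt (fun s : ℝ => x + s • h) h s := by
    have := ((hasDerivAt_id s).smul_const h).const_add x
    simpa using this
  have e1 : HasDerivAt (fun s : ℝ => φ (x + s • h)) (fderiv ℝ φ (x + s • h) h) s :=
    ((hφ.differentiable (by simp)) (x + s • h)).hasFDerivAt.comp_hasDerivAt s hγ
  have e2 : HasDerivAt (fun s : ℝ => s * fderiv ℝ φ x h) (fderiv ℝ φ x h) s := by
    have := (hasDerivAt_id s).mul_const (fderiv ℝ φ x h)
    simpa using this
  have e3 : HasDerivAt (fun s : ℝ => s ^ 2 * (D2 φ x h h / 2)) (s * D2 φ x h h) s := by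
    have := (hasDerivAt_pow 2 s).mul_const (D2 φ x h h / 2)
    refine this.congr_deriv ?_
    simp
    ring
  exact (e1.sub e2).sub e3

theorem rho_le (hφ : ContDiff ℝ ∞ φ) {M : ℝ} (hM0 : 0 ≤ M)
    (hlip : ∀ x y, ‖D2 φ y - D2 φ x‖ ≤ M * ‖y - x‖) (x y : ℂ) :
    |rho φ x y| ≤ M * ‖x - y‖ ^ 3 := by
  obtain ⟨h, hh⟩ : ∃ h, h = y - x := ⟨_, rfl⟩
  have hqb : ∀ s ∈ Set.Icc (0 : ℝ) 1, ‖fderiv ℝ φ (x + s • h) h - fderiv ℝ φ x h
      - s * D2 φ x h h‖ ≤ M * ‖h‖ ^ 3 := by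
    intro s hs
    have hb : ∀ z ∈ Set.Ico (0 : ℝ) 1, ‖D2 φ (x + z • h) h h - D2 φ x h h‖ ≤ M * ‖h‖ ^ 3 := by
      intro z hz
      have e2 : D2 φ (x + z • h) h h - D2 φ x h h = (D2 φ (x + z • h) - D2 φ x) h h := by
        simp
      rw [e2]
      refine (ContinuousLinearMap.le_opNorm₂ _ _ _).trans ?_
      have e3 := hlip x (x + z • h)
      rw [add_sub_cancel_left, norm_smul, Real.norm_of_nonneg hz.1] at e3
      have e4 : M * (z * ‖h‖) ≤ M * ‖h‖ :=
        mul_le_mul_of_nonneg_left (mul_le_of_le_one_left (norm_nonneg _) hz.2.le) hM0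
      have e5 := e3.trans e4
      calc _ ≤ M * ‖h‖ * ‖h‖ * ‖h‖ := by gcongr
        _ = _ := by ring
    have e1 := norm_image_sub_le_of_norm_deriv_le_segment'
      (fun z _ => (tay_deriv hφ x h z).hasDerivWithinAt) hb s hs
    simp only [zero_smul, add_zero, zero_mul, sub_self, sub_zero] at e1
    refine e1.trans ?_
    exact mul_le_of_le_one_right (by positivity) hs.2
  have e1 := norm_image_sub_le_of_norm_deriv_le_segment_01'
    (fun s _ => (tay_deriv' hφ x h s).hasDerivWithinAt) (fun s hs => hqb s ⟨hs.1, hs.2.le⟩)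
  have hy : x + h = y := by rw [hh]; ring
  have e2 : rho φ x y = (φ (x + (1 : ℝ) • h) - 1 * fderiv ℝ φ x h
      - 1 ^ 2 * (D2 φ x h h / 2)) - (φ (x + (0 : ℝ) • h) - 0 * fderiv ℝ φ x h
      - 0 ^ 2 * (D2 φ x h h / 2)) := by
    unfold rho
    rw [← hh, one_smul, zero_smul, add_zero, hy]
    ring
  rw [e2, ← Real.norm_eq_abs, norm_sub_rev x y, ← hh]
  exact e1

theorem rho_zero (hφ : HasCompactSupport φ) : ∃ R : ℝ, 0 ≤ R ∧
    ∀ x y, R < ‖x‖ → R < ‖y‖ → rho φ x y = 0 := by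
  obtain ⟨R, hR⟩ := hφ.isCompact.isBounded.exists_norm_le
  refine ⟨max R 0, le_max_right _ _, ?_⟩
  intro x y hx hy
  have key : ∀ z, max R 0 < ‖z‖ → z ∉ tsupport φ := fun z hz h => by
    have := hR z h
    have h4 : R ≤ max R 0 := le_max_left _ _
    linarith
  have kx := key x hx
  have ky := key y hy
  have a1 : φ x = 0 := image_eq_zero_of_notMem_tsupport kx
  have a2 : φ y = 0 := image_eq_zero_of_notMem_tsupport ky
  have k1 : x ∉ tsupport (fderiv ℝ φ) := fun h => kx (tsupport_fderiv_subset ℝ h)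
  have a3 : fderiv ℝ φ x = 0 := image_eq_zero_of_notMem_tsupport k1
  have k2 : x ∉ tsupport (D2 φ) := fun h => k1 (tsupport_fderiv_subset ℝ h)
  have a4 : D2 φ x = 0 := image_eq_zero_of_notMem_tsupport k2
  unfold rho
  rw [a1, a2, a3, a4]
  simp

theorem D2_lipA (hd2 : ContDiff ℝ ∞ (D2 φ)) (hc2 : HasCompactSupport (D2 φ)) :
    ∃ C, LipschitzWith C (D2 φ) :=
  ContDiff.lipschitzWith_of_hasCompactSupport hc2 hd2 (by simp)

theorem D2_lipB (hφ : ContDiff ℝ ∞ φ) (hc : HasCompactSupport φ) :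
    ∃ C, LipschitzWith C (D2 φ) := by
  have hd1 : ContDiff ℝ ∞ (fderiv ℝ φ) := hφ.fderiv_right (m := ∞) (by simp)
  have hd2 : ContDiff ℝ ∞ (D2 φ) := hd1.fderiv_right (m := ∞) (by simp)
  have hc2 : HasCompactSupport (D2 φ) := (hc.fderiv ℝ).fderiv ℝ
  exact D2_lipA hd2 hc2

theorem D2_lip (hφ : ContDiff ℝ ∞ φ) (hc : HasCompactSupport φ) : ∃ M : ℝ, 0 ≤ M ∧
    ∀ x y : ℂ, ‖D2 φ y - D2 φ x‖ ≤ M * ‖y - x‖ := by
  obtain ⟨C, hC⟩ := D2_lipB hφ hc
  refine ⟨C, C.2, fun x y => ?_⟩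
  have := hC.dist_le_mul y x
  rwa [dist_eq_norm, dist_eq_norm] at this

theorem rho_bound (hφ : φ ∈ Test Set.univ) : ∃ M R : ℝ, 0 ≤ M ∧ 0 ≤ R ∧
    (∀ x y, |rho φ x y| ≤ M * ‖x - y‖ ^ 3) ∧ ∀ x y, R < ‖x‖ → R < ‖y‖ → rho φ x y = 0 := by
  obtain ⟨M, hM0, hM⟩ := D2_lip hφ.1 hφ.2.1
  obtain ⟨R, hR0, hR⟩ := rho_zero hφ.2.1
  exact ⟨M, R, hM0, hR0, rho_le hφ.1 hM0 hM, hR⟩

theorem G_mom1 {s : ℝ} (hs : 0 < s) (L : ℂ →L[ℝ] ℝ) :
    Integrable (fun z => G s z * L z) ∧ ∫ z, G s z * L z = 0 := by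
  constructor
  · have h1 : Integrable fun z => ‖L‖ * (G s z + G s z * ‖z‖ ^ 2) :=
      ((H8.G_integrable hs).add (H8.G_norm_sq_integrable hs)).const_mul _
    refine h1.mono' ((H8.G_cont s).mul L.continuous).aestronglyMeasurable
      (Eventually.of_forall fun z => ?_)
    rw [norm_mul, Real.norm_of_nonneg (H8.G_nonneg hs _)]
    have h2 := L.le_opNorm z
    have h3 : ‖z‖ ≤ 1 + ‖z‖ ^ 2 := by nlinarith [sq_nonneg (‖z‖ - 1), norm_nonneg z]
    have h4 := H8.G_nonneg hs z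
    calc G s z * ‖L z‖ ≤ G s z * (‖L‖ * (1 + ‖z‖ ^ 2)) := by gcongr; exact h2.trans (by gcongr)
      _ = _ := by ring
  · have h1 := integral_neg_eq_self (fun z : ℂ => G s z * L z) volume
    have h2 : ∀ z, G s (-z) * L (-z) = -(G s z * L z) := fun z => by
      rw [H8.G_neg, map_neg]; ring
    simp_rw [h2] at h1
    rw [integral_neg] at h1
    linarith

theorem G_mom2 {s : ℝ} (hs : 0 < s) (B : ℂ →L[ℝ] ℂ →L[ℝ] ℝ) :
    Integrable (fun z => G s z * B z z) ∧ ∫ z, G s z * B z z = 2 * s * (B 1 1 + B I I) := by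
  obtain ⟨m1, m2, m3⟩ := H8.G_re_sq hs
  have hre : Integrable fun z : ℂ => G s z * z.re ^ 2 :=
    H8.G_mul_integrable hs (by fun_prop) (c := 1) fun z => by
      rw [abs_of_nonneg (sq_nonneg _), H8.norm_sq_eq]; nlinarith [sq_nonneg z.im]
  have him : Integrable fun z : ℂ => G s z * z.im ^ 2 :=
    H8.G_mul_integrable hs (by fun_prop) (c := 1) fun z => by
      rw [abs_of_nonneg (sq_nonneg _), H8.norm_sq_eq]; nlinarith [sq_nonneg z.re]
  have hri : Integrable fun z : ℂ => G s z * (z.re * z.im) :=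
    H8.G_mul_integrable hs (by fun_prop) (c := 1) fun z => by
      rw [H8.norm_sq_eq, abs_le]
      constructor <;> nlinarith [sq_nonneg (z.re - z.im), sq_nonneg (z.re + z.im)]
  have e : ∀ z : ℂ, G s z * B z z = B 1 1 * (G s z * z.re ^ 2) +
      (B 1 I + B I 1) * (G s z * (z.re * z.im)) + B I I * (G s z * z.im ^ 2) := by
    intro z
    have e2 : z = z.re • (1 : ℂ) + z.im • I := by
      apply Complex.ext <;> simp
    have e3 : B z z = z.re ^ 2 * B 1 1 + z.re * z.im * (B 1 I + B I 1) + z.im ^ 2 * B I I := by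
      conv_lhs => rw [e2]
      simp only [map_add, map_smul, add_apply, smul_apply,
        smul_eq_mul]
      ring
    rw [e3]
    ring
  simp_rw [e]
  refine ⟨((hre.const_mul _).add (hri.const_mul _)).add (him.const_mul _), ?_⟩
  rw [H8.integral_add3 (hre.const_mul _) (hri.const_mul _) (him.const_mul _), integral_const_mul,
    integral_const_mul, integral_const_mul, m1, m2, m3]
  ring

theorem rho_int (hφ : φ ∈ Test Set.univ) {s : ℝ} (hs : 0 < s) (x : ℂ) :
    ∫ y, G s (x - y) * rho φ x y = (∫ y, G s (x - y) * φ y) - φ x - s * lap φ x := by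
  obtain ⟨h1, h2, h3⟩ := hφ
  have i0 : Integrable fun y => G s (x - y) * φ y :=
    H8.int_kernel hs (h1.continuous.integrable_of_hasCompactSupport h2) x
  have i1 : Integrable fun y => G s (x - y) * φ x :=
    ((H8.G_integrable hs).comp_sub_left x).mul_const _
  have i2 : Integrable fun y => G s (x - y) * fderiv ℝ φ x (x - y) :=
    (G_mom1 hs (fderiv ℝ φ x)).1.comp_sub_left x
  have i3 : Integrable fun y => G s (x - y) * D2 φ x (x - y) (x - y) :=
    (G_mom2 hs (D2 φ x)).1.comp_sub_left x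
  have e : ∀ y, G s (x - y) * rho φ x y = G s (x - y) * φ y - G s (x - y) * φ x
      + G s (x - y) * fderiv ℝ φ x (x - y)
      - (1 / 2) * (G s (x - y) * D2 φ x (x - y) (x - y)) := by
    intro y
    unfold rho
    have e1 : y - x = -(x - y) := by ring
    rw [e1, map_neg, map_neg]
    simp
    ring
  simp_rw [e]
  have j1 : Integrable fun y => G s (x - y) * φ y - G s (x - y) * φ x := i0.sub i1
  have j2 : Integrable fun y => G s (x - y) * φ y - G s (x - y) * φ x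
      + G s (x - y) * fderiv ℝ φ x (x - y) := j1.add i2
  rw [integral_sub j2 (i3.const_mul _), integral_add j1 i2, integral_sub i0 i1,
    integral_const_mul, integral_mul_const,
    integral_sub_left_eq_self (fun z => G s z) volume x, H8.G_integral hs,
    integral_sub_left_eq_self (fun z => G s z * fderiv ℝ φ x z) volume x, (G_mom1 hs _).2,
    integral_sub_left_eq_self (fun z => G s z * D2 φ x z z) volume x, (G_mom2 hs _).2,
    lap_eq h1]
  ring

end

/-- the sixth moment -/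
theorem G_six {s : ℝ} (hs : 0 < s) (z : ℂ) : G s z * (‖z‖ ^ 3) ^ 2 ≤ 6144 * s ^ 3 * G (2 * s) z := by
  rw [H8.G_eq hs, H8.G_eq (by positivity : 0 < 2 * s)]
  set u := ‖z‖ ^ 2 / (8 * s) with hu
  have hu0 : 0 ≤ u := by positivity
  have e1 : Real.exp (-(4 * s)⁻¹ * ‖z‖ ^ 2) = Real.exp (-u) * Real.exp (-u) := by
    rw [← Real.exp_add]; congr 1; rw [hu]; field_simp; ring
  have e2 : Real.exp (-(4 * (2 * s))⁻¹ * ‖z‖ ^ 2) = Real.exp (-u) := by
    congr 1; rw [hu]; field_simp; ring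
  have e3 : ‖z‖ ^ 2 = 8 * s * u := by rw [hu]; field_simp
  have e4 : (‖z‖ ^ 3) ^ 2 = 512 * s ^ 3 * u ^ 3 := by
    have : (‖z‖ ^ 3) ^ 2 = (‖z‖ ^ 2) ^ 3 := by ring
    rw [this, e3]; ring
  have h1 : u ^ 3 / 6 ≤ Real.exp u := by
    have := Real.pow_div_factorial_le_exp u hu0 3
    norm_num [Nat.factorial] at this
    exact this
  have h2 : Real.exp (-u) * u ^ 3 ≤ 6 := by
    have h3 : Real.exp (-u) * Real.exp u = 1 := by rw [← Real.exp_add]; simp
    have h4 := mul_le_mul_of_nonneg_left h1 (Real.exp_pos (-u)).le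
    rw [h3] at h4
    linarith
  rw [e1, e2, e4]
  have h5 : 0 ≤ (4 * Real.pi * s)⁻¹ * Real.exp (-u) * (512 * s ^ 3) := by positivity
  calc (4 * Real.pi * s)⁻¹ * (Real.exp (-u) * Real.exp (-u)) * (512 * s ^ 3 * u ^ 3)
      = (4 * Real.pi * s)⁻¹ * Real.exp (-u) * (512 * s ^ 3) * (Real.exp (-u) * u ^ 3) := by ring
    _ ≤ (4 * Real.pi * s)⁻¹ * Real.exp (-u) * (512 * s ^ 3) * 6 :=
        mul_le_mul_of_nonneg_left h2 h5
    _ = _ := by
        have e5 : (4 * Real.pi * (2 * s))⁻¹ = (4 * Real.pi * s)⁻¹ / 2 := by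
          have := Real.pi_pos
          field_simp
        rw [e5]
        ring

theorem norm_le_of_lint {w : HH} {a : ℝ} (ha : 0 ≤ a)
    (h : ∫⁻ x, ‖w x‖ₑ ^ 2 ≤ ENNReal.ofReal (a ^ 2)) : ‖w‖ ≤ a := by
  rw [Lp.norm_def]
  refine ENNReal.toReal_le_of_le_ofReal ha ?_
  rw [two_eLp]
  have h1 : ENNReal.ofReal a = ENNReal.ofReal (a ^ 2) ^ (1 / 2 : ℝ) := by
    rw [ENNReal.ofReal_rpow_of_nonneg (by positivity) (by norm_num), ← Real.sqrt_eq_rpow,
      Real.sqrt_sq ha]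
  rw [h1]
  gcongr

theorem lint_two {s : ℝ} (hs : 0 < s) {B : Set ℂ} (hB : MeasurableSet B) :
    ∫⁻ x, ∫⁻ y, ENNReal.ofReal (G s (x - y)) *
      (B.indicator (fun _ => (1 : ℝ≥0∞)) x + B.indicator (fun _ => (1 : ℝ≥0∞)) y) =
    2 * volume B := by
  have hm : Measurable (B.indicator (fun _ => (1 : ℝ≥0∞))) := measurable_const.indicator hB
  have e1 : ∀ x, ∫⁻ y, ENNReal.ofReal (G s (x - y)) *
      (B.indicator (fun _ => (1 : ℝ≥0∞)) x + B.indicator (fun _ => (1 : ℝ≥0∞)) y) =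
      B.indicator (fun _ => (1 : ℝ≥0∞)) x +
        ∫⁻ y, ENNReal.ofReal (G s (x - y)) * B.indicator (fun _ => (1 : ℝ≥0∞)) y := by
    intro x
    simp_rw [mul_add]
    rw [lintegral_add_left ((meas_Gl s x).mul_const _), lintegral_mul_const _ (meas_Gl s x),
      lint_G' hs, one_mul]
  simp_rw [e1]
  rw [lintegral_add_left hm, lintegral_lintegral_swap]
  · have e2 : ∀ y, ∫⁻ x, ENNReal.ofReal (G s (x - y)) * B.indicator (fun _ => (1 : ℝ≥0∞)) y =
        B.indicator (fun _ => (1 : ℝ≥0∞)) y := by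
      intro y
      rw [lintegral_mul_const _ (meas_Gr s y), lint_G'' hs, one_mul]
    simp_rw [e2]
    rw [lintegral_indicator hB]
    simp
    ring
  · exact ((meas_G s).mul (hm.comp measurable_snd)).aemeasurable

theorem test_memLp {φ : ℂ → ℝ} {D : Set ℂ} (hφ : φ ∈ Test D) : MemLp φ 2 volume :=
  hφ.1.continuous.memLp_of_hasCompactSupport hφ.2.1

theorem lap_test {φ : ℂ → ℝ} {D : Set ℂ} (hφ : φ ∈ Test D) : lap φ ∈ Test D := by
  obtain ⟨h1, h2, h3⟩ := hφ
  have hd : ∀ (ψ : ℂ → ℝ) (v : ℂ), ψ ∈ Test D → (fun y => fderiv ℝ ψ y v) ∈ Test D := by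
    intro ψ v hψ
    obtain ⟨k1, k2, k3⟩ := hψ
    refine ⟨(k1.fderiv_right (m := ∞) (by simp)).clm_apply contDiff_const, ?_, ?_⟩
    · exact (k2.fderiv ℝ).comp_left (g := fun L : ℂ →L[ℝ] ℝ => L v) (by simp)
    · refine (closure_mono ?_).trans ((tsupport_fderiv_subset ℝ (f := ψ)).trans k3)
      intro x hx hx'
      apply hx
      simp [hx']
  have ha := hd _ 1 (hd φ 1 ⟨h1, h2, h3⟩)
  have hb := hd _ I (hd φ I ⟨h1, h2, h3⟩)
  exact (Test D).add_mem ha hb

theorem gen_bound {φ : ℂ → ℝ} (hφ : φ ∈ Test Set.univ) : ∃ C : ℝ, 0 ≤ C ∧ ∀ s : ℝ, 0 < s →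
    ‖((1 / s : ℝ) : ℂ) • (QQ s (cx (test_memLp hφ)) - cx (test_memLp hφ)) -
      cx (test_memLp (lap_test hφ))‖ ≤ C * Real.sqrt s := by
  obtain ⟨M, R, hM0, hR0, hM, hR⟩ := rho_bound hφ
  set B : Set ℂ := Metric.closedBall (0 : ℂ) R with hB
  have hBm : MeasurableSet B := measurableSet_closedBall
  have hBf : volume B ≠ ⊤ := (isCompact_closedBall (0 : ℂ) R).measure_lt_top.ne
  set C := Real.sqrt (12288 * M ^ 2 * (volume B).toReal) with hC
  refine ⟨C, Real.sqrt_nonneg _, fun s hs => ?_⟩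
  set w : HH := ((1 / s : ℝ) : ℂ) • (QQ s (cx (test_memLp hφ)) - cx (test_memLp hφ)) -
      cx (test_memLp (lap_test hφ)) with hw
  have hwx : ∀ᵐ x, w x = (((1 / s) * ∫ y, G s (x - y) * rho φ x y : ℝ) : ℂ) := by
    filter_upwards [Lp.coeFn_sub
      (((1 / s : ℝ) : ℂ) • (QQ s (cx (test_memLp hφ)) - cx (test_memLp hφ)))
      (cx (test_memLp (lap_test hφ))),
      Lp.coeFn_smul ((1 / s : ℝ) : ℂ) (QQ s (cx (test_memLp hφ)) - cx (test_memLp hφ)),
      Lp.coeFn_sub (QQ s (cx (test_memLp hφ))) (cx (test_memLp hφ)),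
      (QQ_spec hs).2 (cx (test_memLp hφ)), cx_coe (test_memLp hφ),
      cx_coe (test_memLp (lap_test hφ))] with x h1 h2 h3 h4 h5 h6
    rw [hw, h1, Pi.sub_apply, h2, Pi.smul_apply, h3, Pi.sub_apply, h4, h5, h6,
      rho_int hφ hs x]
    have e1 : ∫ y, ((G s (x - y) : ℝ) : ℂ) * (cx (test_memLp hφ)) y =
        ((∫ y, G s (x - y) * φ y : ℝ) : ℂ) := by
      rw [← integral_complex_ofReal]
      refine integral_congr_ae ?_
      filter_upwards [cx_coe (test_memLp hφ)] with y hy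
      rw [hy]
      push_cast
      ring
    rw [e1, smul_eq_mul]
    push_cast
    have : (s : ℂ) ≠ 0 := by exact_mod_cast hs.ne'
    field_simp
  refine norm_le_of_lint (by positivity) ?_
  have h1 : ∀ᵐ x, ‖w x‖ₑ ^ 2 ≤ ENNReal.ofReal (1 / s) ^ 2 *
      (∫⁻ y, ENNReal.ofReal (G s (x - y)) * ENNReal.ofReal |rho φ x y|) ^ 2 := by
    filter_upwards [hwx] with x hx
    rw [← mul_pow]
    refine pow_le_pow_left₀ zero_le ?_ 2
    rw [hx, ← ofReal_norm, Complex.norm_real, norm_mul, ENNReal.ofReal_mul (norm_nonneg _),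
      Real.norm_of_nonneg (by positivity : 0 ≤ 1 / s)]
    gcongr
    rw [ofReal_norm]
    refine (enorm_integral_le_lintegral_enorm _).trans (lintegral_mono fun y => ?_)
    rw [← ofReal_norm, norm_mul, Real.norm_of_nonneg (H8.G_nonneg hs _), Real.norm_eq_abs,
      ENNReal.ofReal_mul (H8.G_nonneg hs _)]
  have hrm : Measurable fun p : ℂ × ℂ => ENNReal.ofReal |rho φ p.1 p.2| :=
    (rho_cont hφ.1).abs.measurable.ennreal_ofReal
  have h2 : ∀ x y, ENNReal.ofReal (G s (x - y)) * ENNReal.ofReal |rho φ x y| ^ 2 ≤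
      ENNReal.ofReal (6144 * M ^ 2 * s ^ 3) * (ENNReal.ofReal (G (2 * s) (x - y)) *
      (B.indicator (fun _ => (1 : ℝ≥0∞)) x + B.indicator (fun _ => (1 : ℝ≥0∞)) y)) := by
    intro x y
    by_cases hxy : x ∈ B ∨ y ∈ B
    · have h3 : (1 : ℝ≥0∞) ≤ B.indicator (fun _ => (1 : ℝ≥0∞)) x +
          B.indicator (fun _ => (1 : ℝ≥0∞)) y := by
        rcases hxy with h | h
        · rw [Set.indicator_of_mem h]; exact le_self_add
        · rw [Set.indicator_of_mem h]; exact le_add_self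
      have h4 : ENNReal.ofReal (G s (x - y)) * ENNReal.ofReal |rho φ x y| ^ 2 ≤
          ENNReal.ofReal (6144 * M ^ 2 * s ^ 3) * ENNReal.ofReal (G (2 * s) (x - y)) := by
        rw [← ENNReal.ofReal_pow (abs_nonneg _), ← ENNReal.ofReal_mul (H8.G_nonneg hs _),
          ← ENNReal.ofReal_mul (by positivity)]
        apply ENNReal.ofReal_le_ofReal
        have h5 : |rho φ x y| ^ 2 ≤ (M * ‖x - y‖ ^ 3) ^ 2 :=
          pow_le_pow_left₀ (abs_nonneg _) (hM x y) 2
        have h6 := G_six hs (x - y)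
        have h7 := H8.G_nonneg hs (x - y)
        calc G s (x - y) * |rho φ x y| ^ 2 ≤ G s (x - y) * (M * ‖x - y‖ ^ 3) ^ 2 := by gcongr
          _ = M ^ 2 * (G s (x - y) * (‖x - y‖ ^ 3) ^ 2) := by ring
          _ ≤ M ^ 2 * (6144 * s ^ 3 * G (2 * s) (x - y)) := by gcongr
          _ = _ := by ring
      calc _ ≤ ENNReal.ofReal (6144 * M ^ 2 * s ^ 3) * ENNReal.ofReal (G (2 * s) (x - y)) * 1 := by
            rw [mul_one]; exact h4
        _ ≤ ENNReal.ofReal (6144 * M ^ 2 * s ^ 3) * ENNReal.ofReal (G (2 * s) (x - y)) *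
            (B.indicator (fun _ => (1 : ℝ≥0∞)) x + B.indicator (fun _ => (1 : ℝ≥0∞)) y) := by
            gcongr
        _ = _ := by rw [mul_assoc]
    · push Not at hxy
      have hx : R < ‖x‖ := by
        by_contra h
        exact hxy.1 (by rw [hB, Metric.mem_closedBall, dist_zero_right]; linarith)
      have hy : R < ‖y‖ := by
        by_contra h
        exact hxy.2 (by rw [hB, Metric.mem_closedBall, dist_zero_right]; linarith)
      rw [hR x y hx hy]
      simp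
  have hs2 : 0 < 2 * s := by positivity
  calc ∫⁻ x, ‖w x‖ₑ ^ 2 ≤ ∫⁻ x, ENNReal.ofReal (1 / s) ^ 2 *
        (∫⁻ y, ENNReal.ofReal (G s (x - y)) * ENNReal.ofReal |rho φ x y|) ^ 2 :=
        lintegral_mono_ae h1
    _ = ENNReal.ofReal (1 / s) ^ 2 * ∫⁻ x,
        (∫⁻ y, ENNReal.ofReal (G s (x - y)) * ENNReal.ofReal |rho φ x y|) ^ 2 := by
        rw [lintegral_const_mul' _ _ (by simp)]
    _ ≤ ENNReal.ofReal (1 / s) ^ 2 * ∫⁻ x, ∫⁻ y,
        ENNReal.ofReal (G s (x - y)) * ENNReal.ofReal |rho φ x y| ^ 2 := by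
        refine mul_le_mul' le_rfl (jen hs (h := fun x y => ENNReal.ofReal |rho φ x y|)
          fun x => (hrm.comp measurable_prodMk_left).aemeasurable)
    _ ≤ ENNReal.ofReal (1 / s) ^ 2 * ∫⁻ x, ∫⁻ y,
        ENNReal.ofReal (6144 * M ^ 2 * s ^ 3) * (ENNReal.ofReal (G (2 * s) (x - y)) *
        (B.indicator (fun _ => (1 : ℝ≥0∞)) x + B.indicator (fun _ => (1 : ℝ≥0∞)) y)) := by
        exact mul_le_mul' le_rfl (lintegral_mono fun x => lintegral_mono fun y => h2 x y)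
    _ = ENNReal.ofReal (1 / s) ^ 2 * (ENNReal.ofReal (6144 * M ^ 2 * s ^ 3) *
        (2 * volume B)) := by
        congr 1
        rw [← lint_two hs2 hBm, ← lintegral_const_mul' _ _ (by simp)]
        refine lintegral_congr fun x => ?_
        rw [← lintegral_const_mul' _ _ (by simp)]
    _ = ENNReal.ofReal ((C * Real.sqrt s) ^ 2) := by
        rw [← ENNReal.ofReal_pow (by positivity), ← ENNReal.ofReal_toReal hBf,
          show (2 : ℝ≥0∞) = ENNReal.ofReal 2 by simp, ← ENNReal.ofReal_mul (by norm_num),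
          ← ENNReal.ofReal_mul (by positivity), ← ENNReal.ofReal_mul (by positivity)]
        congr 1
        rw [mul_pow, Real.sq_sqrt hs.le, hC, Real.sq_sqrt (by positivity)]
        field_simp
        ring

/-- the heat operators tend to the identity on test functions -/
theorem gen_tendsto {φ : ℂ → ℝ} (hφ : φ ∈ Test Set.univ) {t : ℝ} (ht : 0 < t) :
    Tendsto (fun m : ℕ => ((2 ^ m / t : ℝ) : ℂ) •
      (QQ (t / 2 ^ m) (cx (test_memLp hφ)) - cx (test_memLp hφ))) atTop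
      (𝓝 (cx (test_memLp (lap_test hφ)))) ∧
    Tendsto (fun m : ℕ => QQ (t / 2 ^ m) (cx (test_memLp hφ))) atTop
      (𝓝 (cx (test_memLp hφ))) := by
  obtain ⟨C, hC0, hC⟩ := gen_bound hφ
  have hlim : Tendsto (fun m : ℕ => t / 2 ^ m) atTop (𝓝 0) := by
    have h1 : Tendsto (fun n : ℕ => t * (1 / 2) ^ n) atTop (𝓝 (t * 0)) :=
      Tendsto.const_mul _ (tendsto_pow_atTop_nhds_zero_of_lt_one (by norm_num) (by norm_num))
    rw [mul_zero] at h1
    refine h1.congr fun n => ?_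
    rw [one_div, inv_pow]; rfl
  have h1 : Tendsto (fun m : ℕ => ((2 ^ m / t : ℝ) : ℂ) •
      (QQ (t / 2 ^ m) (cx (test_memLp hφ)) - cx (test_memLp hφ))) atTop
      (𝓝 (cx (test_memLp (lap_test hφ)))) := by
    rw [tendsto_iff_norm_sub_tendsto_zero]
    have h2 : Tendsto (fun m : ℕ => C * Real.sqrt (t / 2 ^ m)) atTop (𝓝 0) := by
      have h3 := ((Real.continuous_sqrt.tendsto 0).comp hlim).const_mul C
      rw [Real.sqrt_zero, mul_zero] at h3
      exact h3
    refine squeeze_zero (fun _ => norm_nonneg _) (fun m => ?_) h2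
    have h3 := hC (t / 2 ^ m) (by positivity)
    rw [one_div_div] at h3
    exact h3
  refine ⟨h1, ?_⟩
  have hlimc : Tendsto (fun m : ℕ => ((t / 2 ^ m : ℝ) : ℂ)) atTop (𝓝 0) := by
    have h5 := (Complex.continuous_ofReal.tendsto 0).comp hlim
    rw [Complex.ofReal_zero] at h5
    exact h5
  have h2 := (hlimc.smul h1).add_const (cx (test_memLp hφ))
  rw [zero_smul, zero_add] at h2
  refine h2.congr fun m => ?_
  rw [smul_smul, ← Complex.ofReal_mul]
  have h3 : t / 2 ^ m * (2 ^ m / t) = 1 := by field_simp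
  rw [h3, Complex.ofReal_one, one_smul]
  abel

end Pool.Agent.H16F.H67
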