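import Pool.Agent.Helper67_Fine.TrnB
import Pool.Agent.Helper8_Fine.Area

/-!
TRN: the trace identity.
-/

namespace Pool.Agent.H16F.H67

open MeasureTheory Complex Filter Topology Pool.Agent.H16Iso Pool.Agent.H62T
open scoped ENNReal NNReal InnerProductSpace ContDiff

/-! ### The domains -/

theorem convex_Hh : Convex ℝ Hh := convex_halfSpace_im_gt 0

theorem convex_lin (a b c : ℝ) : Convex ℝ {x : ℂ | c < x.re * a + x.im * b} := by
  intro x hx y hy p q hp hq hpq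
  have hx' : c < x.re * a + x.im * b := hx
  have hy' : c < y.re * a + y.im * b := hy
  show c < (p • x + q • y).re * a + (p • x + q • y).im * b
  have e : (p • x + q • y).re * a + (p • x + q • y).im * b =
      p * (x.re * a + x.im * b) + q * (y.re * a + y.im * b) := by
    simp
    ring
  rw [e]
  rcases hp.eq_or_lt with h | h
  · subst h
    have : q = 1 := by linarith
    subst this
    linarith
  · have h1 : p * c < p * (x.re * a + x.im * b) := mul_lt_mul_of_pos_left hx' h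
    have h2 : q * c ≤ q * (y.re * a + y.im * b) := mul_le_mul_of_nonneg_left hy'.le hq
    have h3 : p * c + q * c = c := by rw [← add_mul, hpq, one_mul]
    linarith

theorem convex_W1 (β : ℝ) : Convex ℝ (W1 β) :=
  convex_Hh.inter (convex_lin (Real.sin β) (Real.cos β) 0)

theorem convex_W2 (β : ℝ) : Convex ℝ (W2 β) := by
  have h : W2 β = Hh ∩ {x : ℂ | -Real.sin β < x.re * (-Real.sin β) + x.im * Real.cos β} := by
    ext x
    simp only [W2, Hh, Set.mem_inter_iff, Set.mem_ofPred_eq]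
    constructor
    · rintro ⟨h1, h2⟩
      exact ⟨h1, by linarith⟩
    · rintro ⟨h1, h2⟩
      exact ⟨h1, by linarith⟩
  rw [h]
  exact convex_Hh.inter (convex_lin _ _ _)

theorem convex_Om (β β' : ℝ) : Convex ℝ (Om β β') := (convex_W1 β).inter (convex_W2 β')

theorem mem_Om {β β' : ℝ} (h1 : 0 < β) (h2 : β < Real.pi / 2) (h3 : 0 < β')
    (h4 : β' < Real.pi / 2) : (⟨1 / 2, 1⟩ : ℂ) ∈ Om β β' := by
  have hs : 0 < Real.sin β := Real.sin_pos_of_pos_of_lt_pi h1 (by linarith [Real.pi_pos])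
  have hs' : 0 < Real.sin β' := Real.sin_pos_of_pos_of_lt_pi h3 (by linarith [Real.pi_pos])
  have hc : 0 < Real.cos β := Real.cos_pos_of_mem_Ioo ⟨by linarith, h2⟩
  have hc' : 0 < Real.cos β' := Real.cos_pos_of_mem_Ioo ⟨by linarith, h4⟩
  refine ⟨⟨?_, ?_⟩, ⟨?_, ?_⟩⟩
  · simp
  · show 0 < 1 / 2 * Real.sin β + 1 * Real.cos β
    linarith
  · simp
  · show 1 / 2 * Real.sin β' - 1 * Real.cos β' < Real.sin β'
    linarith

theorem Sol.ml {κ : ℝ} {D : Set ℂ} {f u : ℂ → ℝ} (h : Sol κ D f u) : MemLp u 2 volume := by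
  obtain ⟨⟨g, hg⟩, -⟩ := h.mem
  exact hg.memf

theorem int4 {a b c d : ℂ → ℝ} {f : ℂ → ℝ} (hf : MemLp f 2 volume) (ha : MemLp a 2 volume)
    (hb : MemLp b 2 volume) (hc : MemLp c 2 volume) (hd : MemLp d 2 volume) :
    ∫ x, (a x - b x - c x + d x) * f x =
      (∫ x, a x * f x) - (∫ x, b x * f x) - (∫ x, c x * f x) + ∫ x, d x * f x := by
  have i1 : Integrable fun x => a x * f x := MemLp.integrable_mul ha hf
  have i2 : Integrable fun x => b x * f x := MemLp.integrable_mul hb hf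
  have i3 : Integrable fun x => c x * f x := MemLp.integrable_mul hc hf
  have i4 : Integrable fun x => d x * f x := MemLp.integrable_mul hd hf
  have i5 : Integrable fun x => a x * f x - b x * f x := i1.sub i2
  have i6 : Integrable fun x => a x * f x - b x * f x - c x * f x := i5.sub i3
  rw [← integral_sub i1 i2, ← integral_sub i5 i3, ← integral_add i6 i4]
  refine integral_congr_ae (Eventually.of_forall fun x => ?_)
  simp only
  ring

/-- the alternating sum of the heat kernels on the diagonal -/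
noncomputable def Zz (β β' t : ℝ) (x : ℂ) : ℝ :=
  pD (Om β β') t x x - pD (W1 β) t x x - pD (W2 β') t x x + pD Hh t x x

/-- the trace identity in a disc -/
theorem trn_disc (hPdk : PdkStatement) (hBr : BrStatement) (hRes : ResStatement) {β β' : ℝ}
    (hβ0 : 0 < β) (hβ : β < Real.pi / 2) (hβ'0 : 0 < β') (hβ' : β' < Real.pi / 2) {κ κ' : ℝ}
    (hκ : 0 < κ) (hκ' : κ < κ') {ι : Type} [MeasurableSpace ι] {μ μ' : Measure ι} [SFinite μ]
    [SFinite μ'] {P Q P' Q' : ι → ℂ → ℝ} (hR : Rk κ β β' μ P Q) (hR' : Rk κ' β β' μ' P' Q')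
    {R : ℝ} (hRp : 0 < R) :
    IntegrableOn (fun t => ww κ κ' t * ∫ x in Metric.ball (0 : ℂ) R, Zz β β' t x) (Set.Ioi 0) ∧
    (∫ s, (∫ x in Metric.ball (0 : ℂ) R, P s x * Q s x) ∂μ) -
      (∫ s, (∫ x in Metric.ball (0 : ℂ) R, P' s x * Q' s x) ∂μ') =
      ∫ t in Set.Ioi (0 : ℝ), ww κ κ' t * ∫ x in Metric.ball (0 : ℂ) R, Zz β β' t x := by
  obtain ⟨φ, hφ⟩ := exists_ons hRp
  set B := Metric.ball (0 : ℂ) R with hBdef
  have hB : MeasurableSet B := measurableSet_ball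
  have hBf : volume B ≠ ⊤ := Metric.isBounded_ball.measure_lt_top.ne
  have hk'0 : 0 < κ' := hκ.trans hκ'
  have oO := H8.isOpen_Om β β'
  have o1 := H8.isOpen_W1 β
  have o2 := H8.isOpen_W2 β'
  have oH := H8.isOpen_Hh
  have cO := convex_Om β β'
  have c1 := convex_W1 β
  have c2 := convex_W2 β'
  have cH := convex_Hh
  have hm := mem_Om hβ0 hβ hβ'0 hβ'
  have nO : (Om β β').Nonempty := ⟨_, hm⟩
  have n1 : (W1 β).Nonempty := ⟨_, hm.1⟩
  have n2 : (W2 β').Nonempty := ⟨_, hm.2⟩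
  have nH : Hh.Nonempty := ⟨_, hm.1.1⟩
  have wO := wtr_int hPdk oO hBf hκ hκ'
  have w1 := wtr_int hPdk o1 hBf hκ hκ'
  have w2 := wtr_int hPdk o2 hBf hκ hκ'
  have wH := wtr_int hPdk oH hBf hκ hκ'
  have hk : ∀ k, (∫ s, (∫ x, P s x * φ k x) * (∫ y, Q s y * φ k y) ∂μ) -
      (∫ s, (∫ x, P' s x * φ k x) * (∫ y, Q' s y * φ k y) ∂μ') =
      (∫ t in Set.Ioi (0 : ℝ), ww κ κ' t * hq (Om β β') t (φ k)) -
      (∫ t in Set.Ioi (0 : ℝ), ww κ κ' t * hq (W1 β) t (φ k)) -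
      (∫ t in Set.Ioi (0 : ℝ), ww κ κ' t * hq (W2 β') t (φ k)) +
      ∫ t in Set.Ioi (0 : ℝ), ww κ κ' t * hq Hh t (φ k) := by
    intro k
    have hf := hφ.meas k
    have hf2 := hφ.memLp k
    obtain ⟨uO, hO⟩ := (hRes κ _ hκ oO cO nO).1 _ hf2
    obtain ⟨u1, h1⟩ := (hRes κ _ hκ o1 c1 n1).1 _ hf2
    obtain ⟨u2, h2⟩ := (hRes κ _ hκ o2 c2 n2).1 _ hf2
    obtain ⟨uH, hH⟩ := (hRes κ _ hκ oH cH nH).1 _ hf2
    obtain ⟨vO, gO⟩ := (hRes κ' _ hk'0 oO cO nO).1 _ hf2
    obtain ⟨v1, g1⟩ := (hRes κ' _ hk'0 o1 c1 n1).1 _ hf2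
    obtain ⟨v2, g2⟩ := (hRes κ' _ hk'0 o2 c2 n2).1 _ hf2
    obtain ⟨vH, gH⟩ := (hRes κ' _ hk'0 oH cH nH).1 _ hf2
    have e1 := rk_int hR.measP hR.measQ hR.fin hf hf2 (hR.eq _ _ _ _ _ hf2 hH h1 h2 hO)
    have e2 := rk_int hR'.measP hR'.measQ hR'.fin hf hf2 (hR'.eq _ _ _ _ _ hf2 gH g1 g2 gO)
    rw [int4 hf2 (Sol.ml hO) (Sol.ml h1) (Sol.ml h2) (Sol.ml hH)] at e1
    rw [int4 hf2 (Sol.ml gO) (Sol.ml g1) (Sol.ml g2) (Sol.ml gH)] at e2
    rw [← e1, ← e2, ← res_diff hPdk hBr oO cO nO hκ hκ' hf hf2 hO gO,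
      ← res_diff hPdk hBr o1 c1 n1 hκ hκ' hf hf2 h1 g1,
      ← res_diff hPdk hBr o2 c2 n2 hκ hκ' hf hf2 h2 g2,
      ← res_diff hPdk hBr oH cH nH hκ hκ' hf hf2 hH gH]
    ring
  have s1 := (rk_sum hR.measP hR.measQ hR.fin hB hφ).sub
    (rk_sum hR'.measP hR'.measQ hR'.fin hB hφ)
  have s2 := (((wtr_sum hPdk oO hB hBf hφ hκ hκ').sub (wtr_sum hPdk o1 hB hBf hφ hκ hκ')).sub
    (wtr_sum hPdk o2 hB hBf hφ hκ hκ')).add (wtr_sum hPdk oH hB hBf hφ hκ hκ')
  have s3 := s1.unique (s2.congr_fun fun k => hk k)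
  have hZ : ∀ t ∈ Set.Ioi (0 : ℝ), ww κ κ' t * ∫ x in B, Zz β β' t x =
      ww κ κ' t * (∫ x in B, pD (Om β β') t x x) - ww κ κ' t * (∫ x in B, pD (W1 β) t x x) -
      ww κ κ' t * (∫ x in B, pD (W2 β') t x x) + ww κ κ' t * ∫ x in B, pD Hh t x x := by
    intro t ht
    have ht' : 0 < t := ht
    have i1 := (tr_bd hPdk oO hBf ht').1
    have i2 := (tr_bd hPdk o1 hBf ht').1
    have i3 := (tr_bd hPdk o2 hBf ht').1
    have i4 := (tr_bd hPdk oH hBf ht').1
    have i5 : Integrable (fun x => pD (Om β β') t x x - pD (W1 β) t x x) (volume.restrict B) :=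
      i1.sub i2
    have i6 : Integrable (fun x => pD (Om β β') t x x - pD (W1 β) t x x - pD (W2 β') t x x)
      (volume.restrict B) := i5.sub i3
    unfold Zz
    rw [integral_add i6 i4, integral_sub i5 i3, integral_sub i1 i2]
    ring
  have j1 : Integrable (fun t => ww κ κ' t * (∫ x in B, pD (Om β β') t x x) -
      ww κ κ' t * (∫ x in B, pD (W1 β) t x x)) (volume.restrict (Set.Ioi 0)) := wO.sub w1
  have j2 : Integrable (fun t => ww κ κ' t * (∫ x in B, pD (Om β β') t x x) -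
      ww κ κ' t * (∫ x in B, pD (W1 β) t x x) - ww κ κ' t * (∫ x in B, pD (W2 β') t x x))
      (volume.restrict (Set.Ioi 0)) := j1.sub w2
  have j3 : Integrable (fun t => ww κ κ' t * (∫ x in B, pD (Om β β') t x x) -
      ww κ κ' t * (∫ x in B, pD (W1 β) t x x) - ww κ κ' t * (∫ x in B, pD (W2 β') t x x) +
      ww κ κ' t * (∫ x in B, pD Hh t x x))
      (volume.restrict (Set.Ioi 0)) := j2.add wH
  refine ⟨IntegrableOn.congr_fun j3 (fun t ht => (hZ t ht).symm) measurableSet_Ioi, ?_⟩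
  rw [s3, setIntegral_congr_fun measurableSet_Ioi hZ, integral_add j2 wH, integral_sub j1 w2,
    integral_sub wO w1]

/-- TRN -/
theorem trn (hPdk : PdkStatement) (hBr : BrStatement) (hRes : ResStatement)
    (hArea : AreaStatement) : TrnStatement := by
  intro β β' hβ0 hβ hβ'0 hβ' κ κ' hκ hκ' ι _ μ μ' _ _ P Q P' Q' hR hR'
  set A := (∫ s, (∫ x, P s x * Q s x) ∂μ) - ∫ s, (∫ x, P' s x * Q' s x) ∂μ' with hA
  let B : ℕ → Set ℂ := fun n => Metric.ball (0 : ℂ) ((n : ℝ) + 1)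
  have hBmono : Monotone B := by
    intro a b hab
    refine Metric.ball_subset_ball ?_
    have : (a : ℝ) ≤ b := by exact_mod_cast hab
    linarith
  have hBU : ⋃ n, B n = Set.univ := by
    rw [Set.eq_univ_iff_forall]
    intro x
    obtain ⟨n, hn⟩ := exists_nat_gt ‖x‖
    refine Set.mem_iUnion.2 ⟨n, ?_⟩
    show x ∈ Metric.ball (0 : ℂ) ((n : ℝ) + 1)
    rw [Metric.mem_ball, dist_zero_right]
    linarith
  have hd := fun n : ℕ => trn_disc hPdk hBr hRes hβ0 hβ hβ'0 hβ' hκ hκ' hR hR'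
    (R := (n : ℝ) + 1) (by positivity)
  have hlim : Tendsto (fun n : ℕ => ∫ t in Set.Ioi (0 : ℝ), ww κ κ' t * ∫ x in B n, Zz β β' t x)
      atTop (𝓝 A) := by
    have h1 := (rk_lim hR.measP hR.measQ hR.fin).sub (rk_lim hR'.measP hR'.measQ hR'.fin)
    refine h1.congr fun n => ?_
    exact (hd n).2
  have har := fun t (ht : t ∈ Set.Ioi (0 : ℝ)) => hArea β β' hβ0 hβ hβ'0 hβ' t ht
  have hpos : ∀ᵐ t ∂(volume.restrict (Set.Ioi (0 : ℝ))), ∀ n,
      0 ≤ ww κ κ' t * ∫ x in B n, Zz β β' t x := by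
    refine (ae_restrict_iff' measurableSet_Ioi).2 (Eventually.of_forall fun t ht n => ?_)
    exact mul_nonneg (ww_bd hκ hκ' ht).1 (integral_nonneg fun x => (har t ht).1 x)
  have hmono : ∀ᵐ t ∂(volume.restrict (Set.Ioi (0 : ℝ))),
      Monotone fun n => ww κ κ' t * ∫ x in B n, Zz β β' t x := by
    refine (ae_restrict_iff' measurableSet_Ioi).2 (Eventually.of_forall fun t ht a b hab => ?_)
    refine mul_le_mul_of_nonneg_left ?_ (ww_bd hκ hκ' ht).1
    exact setIntegral_mono_set (har t ht).2.1.integrableOn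
      (Eventually.of_forall fun x => (har t ht).1 x) (hBmono hab).eventuallyLE
  have hpt : ∀ᵐ t ∂(volume.restrict (Set.Ioi (0 : ℝ))),
      Tendsto (fun n => ww κ κ' t * ∫ x in B n, Zz β β' t x) atTop
        (𝓝 (ww κ κ' t * (Phi β β' (1 / Real.sqrt t) / (4 * Real.pi)))) := by
    refine (ae_restrict_iff' measurableSet_Ioi).2 (Eventually.of_forall fun t ht => ?_)
    refine Tendsto.const_mul _ ?_
    have h1 := tendsto_setIntegral_of_monotone (μ := (volume : Measure ℂ))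
      (f := fun x => Zz β β' t x) (s := B) (fun n => measurableSet_ball) hBmono
      (har t ht).2.1.integrableOn
    rw [hBU, Measure.restrict_univ] at h1
    have h2 : ∫ x, Zz β β' t x = Phi β β' (1 / Real.sqrt t) / (4 * Real.pi) := (har t ht).2.2
    rwa [h2] at h1
  have hA0 : 0 ≤ A := by
    refine ge_of_tendsto' hlim fun n => ?_
    refine integral_nonneg_of_ae ?_
    filter_upwards [hpos] with t ht
    exact ht n
  have hl := lintegral_tendsto_of_tendsto_of_monotone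
    (μ := volume.restrict (Set.Ioi (0 : ℝ)))
    (f := fun n t => ENNReal.ofReal (ww κ κ' t * ∫ x in B n, Zz β β' t x))
    (F := fun t => ENNReal.ofReal (ww κ κ' t * (Phi β β' (1 / Real.sqrt t) / (4 * Real.pi))))
    (fun n => (hd n).1.aestronglyMeasurable.aemeasurable.ennreal_ofReal)
    (by
      filter_upwards [hmono] with t ht a b hab
      exact ENNReal.ofReal_le_ofReal (ht hab))
    (by
      filter_upwards [hpt] with t ht
      exact (ENNReal.continuous_ofReal.tendsto _).comp ht)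
  have hl2 : Tendsto (fun n => ∫⁻ t in Set.Ioi (0 : ℝ),
      ENNReal.ofReal (ww κ κ' t * ∫ x in B n, Zz β β' t x)) atTop (𝓝 (ENNReal.ofReal A)) := by
    have h1 := (ENNReal.continuous_ofReal.tendsto _).comp hlim
    refine h1.congr fun n => ?_
    simp only [Function.comp_apply]
    rw [ofReal_integral_eq_lintegral_ofReal (hd n).1]
    filter_upwards [hpos] with t ht
    exact ht n
  have hl3 := tendsto_nhds_unique hl hl2
  have hgm : AEStronglyMeasurable
      (fun t => ww κ κ' t * (Phi β β' (1 / Real.sqrt t) / (4 * Real.pi)))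
      (volume.restrict (Set.Ioi (0 : ℝ))) :=
    aestronglyMeasurable_of_tendsto_ae atTop (fun n => (hd n).1.aestronglyMeasurable) hpt
  have hg0 : 0 ≤ᵐ[volume.restrict (Set.Ioi (0 : ℝ))]
      fun t => ww κ κ' t * (Phi β β' (1 / Real.sqrt t) / (4 * Real.pi)) := by
    filter_upwards [hpos, hpt] with t h1 h2
    exact ge_of_tendsto' h2 h1
  show ∫ t in Set.Ioi (0 : ℝ), ww κ κ' t * (Phi β β' (1 / Real.sqrt t) / (4 * Real.pi)) = A
  rw [integral_eq_lintegral_of_nonneg_ae hg0 hgm, hl3, ENNReal.toReal_ofReal hA0]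

end Pool.Agent.H16F.H67
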