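import Pool.Agent.Helper67_Fine.BrMain
import Pool.Agent.Helper8_TRI.EIG

/-!
TRN, part 1: Parseval in a disc, traces of heat kernels.
-/

namespace Pool.Agent.H16F.H67

open MeasureTheory Complex Filter Topology Pool.Agent.H16Iso Pool.Agent.H62T
open scoped ENNReal NNReal InnerProductSpace ContDiff

/-- a complete orthonormal system of the functions on a disc -/
structure Ons (B : Set ℂ) (φ : ℕ → ℂ → ℝ) : Prop where
  meas : ∀ k, Measurable (φ k)
  memLp : ∀ k, MemLp (φ k) 2 volume
  supp : ∀ k, ∀ x ∉ B, φ k x = 0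
  complete : ∀ f : ℂ → ℝ, MemLp f 2 volume → (∀ x ∉ B, f x = 0) →
    HasSum (fun k => (∫ x, f x * φ k x) ^ 2) (∫ x, f x ^ 2)

theorem exists_ons {R : ℝ} (hR : 0 < R) : ∃ φ, Ons (Metric.ball (0 : ℂ) R) φ := by
  obtain ⟨μ, φ, -, -, h3, h4, h5, -, -, h8⟩ := H8.exists_eig (Ω := Metric.ball (0 : ℂ) R)
    Metric.isOpen_ball Metric.isBounded_ball ⟨0, Metric.mem_ball_self hR⟩ one_pos
  exact ⟨φ, h3, h4, h5, h8⟩

section
variable {B : Set ℂ} {φ : ℕ → ℂ → ℝ}

theorem Ons.ind (h : Ons B φ) (g : ℂ → ℝ) (k : ℕ) :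
    ∫ x, B.indicator g x * φ k x = ∫ x, g x * φ k x := by
  refine integral_congr_ae (Eventually.of_forall fun x => ?_)
  simp only
  by_cases hx : x ∈ B
  · rw [Set.indicator_of_mem hx]
  · rw [h.supp k x hx, mul_zero, mul_zero]

/-- Parseval -/
theorem Ons.pars (h : Ons B φ) (hB : MeasurableSet B) {g g' : ℂ → ℝ} (hg : MemLp g 2 volume)
    (hg' : MemLp g' 2 volume) :
    HasSum (fun k => (∫ x, g x * φ k x) * ∫ x, g' x * φ k x) (∫ x in B, g x * g' x) := by
  have m1 : MemLp (B.indicator g) 2 volume := hg.indicator hB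
  have m2 : MemLp (B.indicator g') 2 volume := hg'.indicator hB
  have h1 := h.complete (B.indicator g + B.indicator g') (m1.add m2) fun x hx => by
    simp [Set.indicator_of_notMem hx]
  have h2 := h.complete (B.indicator g - B.indicator g') (m1.sub m2) fun x hx => by
    simp [Set.indicator_of_notMem hx]
  have h3 := (h1.sub h2).mul_left (1 / 4)
  have i1 : ∀ k, Integrable fun x => B.indicator g x * φ k x := fun k =>
    MemLp.integrable_mul m1 (h.memLp k)
  have i2 : ∀ k, Integrable fun x => B.indicator g' x * φ k x := fun k =>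
    MemLp.integrable_mul m2 (h.memLp k)
  have e1 : ∀ k, ∫ x, (B.indicator g + B.indicator g') x * φ k x =
      (∫ x, g x * φ k x) + ∫ x, g' x * φ k x := by
    intro k
    rw [← h.ind g k, ← h.ind g' k, ← integral_add (i1 k) (i2 k)]
    refine integral_congr_ae (Eventually.of_forall fun x => ?_)
    simp only [Pi.add_apply]
    ring
  have e2 : ∀ k, ∫ x, (B.indicator g - B.indicator g') x * φ k x =
      (∫ x, g x * φ k x) - ∫ x, g' x * φ k x := by
    intro k
    rw [← h.ind g k, ← h.ind g' k, ← integral_sub (i1 k) (i2 k)]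
    refine integral_congr_ae (Eventually.of_forall fun x => ?_)
    simp only [Pi.sub_apply]
    ring
  have e3 : 1 / 4 * ((∫ x, (B.indicator g + B.indicator g') x ^ 2) -
      ∫ x, (B.indicator g - B.indicator g') x ^ 2) = ∫ x in B, g x * g' x := by
    rw [← integral_sub (m1.add m2).integrable_sq (m1.sub m2).integrable_sq, ← integral_const_mul,
      ← integral_indicator hB]
    refine integral_congr_ae (Eventually.of_forall fun x => ?_)
    simp only [Pi.add_apply, Pi.sub_apply]
    by_cases hx : x ∈ B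
    · simp only [Set.indicator_of_mem hx]
      ring
    · simp only [Set.indicator_of_notMem hx]
      ring
  have e4 : (fun k => (∫ x, g x * φ k x) * ∫ x, g' x * φ k x) = fun k =>
      1 / 4 * ((∫ x, (B.indicator g + B.indicator g') x * φ k x) ^ 2 -
        (∫ x, (B.indicator g - B.indicator g') x * φ k x) ^ 2) := by
    funext k
    rw [e1 k, e2 k]
    ring
  rw [← e3, e4]
  exact h3

end

/-! ### Heat kernels -/

theorem form_real {K : ℂ → ℂ → ℝ} {T : HH →L[ℂ] HH}
    (hT : HasKer T K) {f : ℂ → ℝ} (hf : MemLp f 2 volume) :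
    (⟪cx hf, T (cx hf)⟫_ℂ).re = ∫ x, ∫ y, f x * K x y * f y := by
  rw [cx_inner]
  refine integral_congr_ae ?_
  filter_upwards [hT (cx hf)] with x hx
  rw [hx]
  have h1 : ∫ y, ((K x y : ℝ) : ℂ) * (cx hf) y = ((∫ y, K x y * f y : ℝ) : ℂ) := by
    rw [← integral_complex_ofReal]
    refine integral_congr_ae ?_
    filter_upwards [cx_coe hf] with y hy
    rw [hy]
    push_cast
    ring
  rw [h1, Complex.ofReal_re, ← integral_const_mul]
  refine integral_congr_ae (Eventually.of_forall fun y => ?_)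
  simp only
  ring

theorem ker_sq {K : ℂ → ℂ → ℝ} {T : HH →L[ℂ] HH}
    (hT : HasKer T K) {f : ℂ → ℝ} (hf : MemLp f 2 volume) :
    ‖T (cx hf)‖ ^ 2 = ∫ x, (∫ y, K x y * f y) ^ 2 := by
  have h1 : ‖T (cx hf)‖ ^ 2 = (⟪T (cx hf), T (cx hf)⟫_ℂ).re := by
    rw [inner_self_eq_norm_sq_to_K]
    norm_cast
  rw [h1, L2.inner_def]
  have h3 : Integrable (fun x => ⟪T (cx hf) x, T (cx hf) x⟫_ℂ) volume := L2.integrable_inner _ _
  have h4 := Complex.reCLM.integral_comp_comm h3
  simp only [Complex.reCLM_apply] at h4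
  rw [← h4]
  refine integral_congr_ae ?_
  filter_upwards [hT (cx hf)] with x hx
  rw [hx]
  have h1 : ∫ y, ((K x y : ℝ) : ℂ) * (cx hf) y = ((∫ y, K x y * f y : ℝ) : ℂ) := by
    rw [← integral_complex_ofReal]
    refine integral_congr_ae ?_
    filter_upwards [cx_coe hf] with y hy
    rw [hy]
    push_cast
    ring
  rw [h1, inner_self_eq_norm_sq_to_K, Complex.norm_real, Real.norm_eq_abs]
  have h5 : ((|∫ y, K x y * f y| : ℝ) : ℂ) ^ 2 = ((|∫ y, K x y * f y| ^ 2 : ℝ) : ℂ) := by
    push_cast; ring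
  show (((|∫ y, K x y * f y| : ℝ) : ℂ) ^ 2).re = _
  rw [h5, Complex.ofReal_re, sq_abs]

section
variable {D : Set ℂ}

/-- the heat quadratic form -/
noncomputable def hq (D : Set ℂ) (t : ℝ) (f : ℂ → ℝ) : ℝ := ∫ x, ∫ y, f x * pD D t x y * f y

theorem hq_eq (hPdk : PdkStatement) (hD : IsOpen D) {t : ℝ} (ht : 0 < t) {f : ℂ → ℝ}
    (hf : MemLp f 2 volume) :
    hq D t f = ∫ x, (∫ y, pD D (t / 2) x y * f y) ^ 2 ∧ 0 ≤ hq D t f ∧ hq D t f ≤ ∫ x, f x ^ 2 := by
  have ht2 : 0 < t / 2 := by positivity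
  obtain ⟨T, hTn, hT⟩ := (kbD hD ht2).exists_op ht2
  obtain ⟨-, -, hsym, hck, -, -⟩ := (hPdk D hD).2 (t / 2) ht2
  have hsa := hT.selfAdjoint (kbD hD ht2) ht2 hsym
  have hTT : HasKer (T * T) (pD D t) := by
    have h1 := hT.comp hT (kbD hD ht2) (kbD hD ht2) ht2
    have h2 : (fun x y => ∫ z, pD D (t / 2) x z * pD D (t / 2) z y) = pD D t := by
      funext x y
      rw [← hck x y]
      congr 1
      ring
    rwa [h2] at h1
  have h1 := form_real hTT hf
  have h2 : ⟪cx hf, (T * T) (cx hf)⟫_ℂ = ⟪T (cx hf), T (cx hf)⟫_ℂ :=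
    ((ContinuousLinearMap.isSelfAdjoint_iff_isSymmetric.1 hsa) (cx hf) (T (cx hf))).symm
  have h3 : (⟪T (cx hf), T (cx hf)⟫_ℂ).re = ‖T (cx hf)‖ ^ 2 := by
    rw [inner_self_eq_norm_sq_to_K]
    norm_cast
  rw [h2, h3] at h1
  have h4 : hq D t f = ‖T (cx hf)‖ ^ 2 := h1.symm
  refine ⟨?_, ?_, ?_⟩
  · rw [h4, ker_sq hT hf]
  · rw [h4]; positivity
  · rw [h4]
    have h5 : ‖T (cx hf)‖ ≤ ‖cx hf‖ :=
      (T.le_opNorm _).trans (mul_le_of_le_one_left (norm_nonneg _) hTn)
    have h6 : ‖cx hf‖ ^ 2 = ∫ x, f x ^ 2 := by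
      have h7 : ‖cx hf‖ ^ 2 = (⟪cx hf, cx hf⟫_ℂ).re := by
        rw [inner_self_eq_norm_sq_to_K]
        norm_cast
      rw [h7, cx_inner]
      refine integral_congr_ae ?_
      filter_upwards [cx_coe hf] with x hx
      rw [hx, Complex.ofReal_re]
      ring
    rw [← h6]
    exact pow_le_pow_left₀ (norm_nonneg _) h5 2

theorem pD_memLp (hD : IsOpen D) {t : ℝ} (ht : 0 < t) (x : ℂ) :
    MemLp (fun y => pD D t x y) 2 volume := by
  refine (G_memLp' ht x).mono ((pD_meas hD ht).comp measurable_prodMk_left).aestronglyMeasurable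
    (Eventually.of_forall fun y => ?_)
  rw [Real.norm_of_nonneg (pD_bd hD ht x y).1, Real.norm_of_nonneg (H8.G_nonneg ht _)]
  exact (pD_bd hD ht x y).2

/-- the trace over a disc -/
theorem heat_trace (hPdk : PdkStatement) (hD : IsOpen D) {t : ℝ} (ht : 0 < t) {B : Set ℂ}
    (hB : MeasurableSet B) (hBf : volume B ≠ ⊤) {φ : ℕ → ℂ → ℝ} (hφ : Ons B φ) :
    HasSum (fun k => hq D t (φ k)) (∫ x in B, pD D t x x) := by
  have ht2 : 0 < t / 2 := by positivity
  obtain ⟨-, -, hsym, hck, -, -⟩ := (hPdk D hD).2 (t / 2) ht2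
  have hfin : IsFiniteMeasure (volume.restrict B) :=
    ⟨by rw [Measure.restrict_apply_univ]; exact hBf.lt_top⟩
  have hcm : ∀ k, AEStronglyMeasurable (fun x => ∫ y, pD D (t / 2) x y * φ k y) volume := by
    intro k
    have h2 : AEStronglyMeasurable (fun p : ℂ × ℂ => pD D (t / 2) p.1 p.2 * φ k p.2)
        (volume.prod volume) :=
      (pD_meas hD ht2).aestronglyMeasurable.mul
        ((hφ.meas k).comp measurable_snd).aestronglyMeasurable
    exact h2.integral_prod_right'
  have hpar : ∀ x, HasSum (fun k => (∫ y, pD D (t / 2) x y * φ k y) ^ 2)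
      (∫ y in B, pD D (t / 2) x y ^ 2) := by
    intro x
    have h1 := hφ.pars hB (pD_memLp hD ht2 x) (pD_memLp hD ht2 x)
    simpa only [← sq] using h1
  have hprod : Integrable (fun p : ℂ × ℂ => pD D (t / 2) p.1 p.2 ^ 2)
      (volume.prod (volume.restrict B)) := by
    have h1 : Integrable (fun p : ℂ × ℂ => G (t / 2) (p.1 - p.2) * B.indicator (fun _ => (1 : ℝ)) p.2)
        (volume.prod volume) := by
      refine (conv_int (H8.G_integrable ht2) ?_).1
      rw [integrable_indicator_iff hB]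
      exact integrableOn_const hBf
    have h2 : Integrable (fun p : ℂ × ℂ => G (t / 2) (p.1 - p.2))
        (volume.prod (volume.restrict B)) := by
      have e : (volume : Measure ℂ).prod (volume.restrict B) =
          (volume.prod volume).restrict (Set.univ ×ˢ B) := by
        rw [← Measure.prod_restrict, Measure.restrict_univ]
      rw [e]
      have h3 : IntegrableOn (fun p : ℂ × ℂ =>
          G (t / 2) (p.1 - p.2) * B.indicator (fun _ => (1 : ℝ)) p.2) (Set.univ ×ˢ B)
          (volume.prod volume) := h1.integrableOn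
      refine h3.congr_fun (fun p hp => ?_) (MeasurableSet.univ.prod hB)
      simp only
      rw [Set.indicator_of_mem hp.2, mul_one]
    refine (h2.const_mul ((4 * Real.pi * (t / 2))⁻¹)).mono'
      ((pD_meas hD ht2).pow_const 2).aestronglyMeasurable (Eventually.of_forall fun p => ?_)
    rw [Real.norm_of_nonneg (sq_nonneg _), sq]
    have a1 := pD_bd hD ht2 p.1 p.2
    exact mul_le_mul (a1.2.trans (H8.G_le ht2 _)) a1.2 a1.1 (by positivity)
  have hsum := hasSum_integral_of_dominated_convergence (μ := (volume : Measure ℂ))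
    (F := fun k x => (∫ y, pD D (t / 2) x y * φ k y) ^ 2)
    (f := fun x => ∫ y in B, pD D (t / 2) x y ^ 2)
    (fun k x => (∫ y, pD D (t / 2) x y * φ k y) ^ 2) (fun k => (hcm k).pow 2)
    (fun k => Eventually.of_forall fun x => by rw [Real.norm_of_nonneg (sq_nonneg _)])
    (Eventually.of_forall fun x => (hpar x).summable)
    (by
      refine (hprod.integral_prod_left).congr (Eventually.of_forall fun x => ?_)
      simp only
      rw [(hpar x).tsum_eq])
    (Eventually.of_forall hpar)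
  have e1 : ∀ k, ∫ x, (∫ y, pD D (t / 2) x y * φ k y) ^ 2 = hq D t (φ k) := fun k =>
    (hq_eq hPdk hD ht (hφ.memLp k)).1.symm
  have e2 : ∫ x, ∫ y in B, pD D (t / 2) x y ^ 2 = ∫ x in B, pD D t x x := by
    rw [integral_integral_swap (f := fun x y => pD D (t / 2) x y ^ 2) hprod]
    refine integral_congr_ae (Eventually.of_forall fun y => ?_)
    simp only
    have h1 := hck y y
    rw [show 2 * (t / 2) = t by ring] at h1
    rw [h1]
    refine integral_congr_ae (Eventually.of_forall fun x => ?_)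
    simp only
    rw [hsym y x, sq]
  rw [e2] at hsum
  simp_rw [e1] at hsum
  exact hsum

end

end Pool.Agent.H16F.H67
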