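import Pool.Agent.Helper67_Fine.TrnA

/-!
TRN, part 2: Laplace transforms of the traces, superpositions of operators of rank one.
-/

namespace Pool.Agent.H16F.H67

open MeasureTheory Complex Filter Topology Pool.Agent.H16Iso Pool.Agent.H62T
open scoped ENNReal NNReal InnerProductSpace ContDiff

/-! ### The weight -/

/-- the weight -/
noncomputable def ww (κ κ' t : ℝ) : ℝ := Real.exp (-(κ ^ 2 * t)) - Real.exp (-(κ' ^ 2 * t))

theorem ww_cont (κ κ' : ℝ) : Continuous (ww κ κ') := by unfold ww; fun_prop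

theorem ww_bd {κ κ' t : ℝ} (hκ : 0 < κ) (hκ' : κ < κ') (ht : 0 < t) :
    0 ≤ ww κ κ' t ∧ ww κ κ' t ≤ (κ' ^ 2 - κ ^ 2) * t * Real.exp (-(κ ^ 2 * t)) := by
  have h1 : κ ^ 2 ≤ κ' ^ 2 := pow_le_pow_left₀ hκ.le hκ'.le 2
  unfold ww
  constructor
  · rw [sub_nonneg]
    apply Real.exp_le_exp.2
    nlinarith
  · have h2 : Real.exp (-(κ' ^ 2 * t)) =
        Real.exp (-(κ ^ 2 * t)) * Real.exp (-((κ' ^ 2 - κ ^ 2) * t)) := by
      rw [← Real.exp_add]; congr 1; ring
    have h3 := Real.add_one_le_exp (-((κ' ^ 2 - κ ^ 2) * t))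
    have h4 := Real.exp_pos (-(κ ^ 2 * t))
    rw [h2]
    nlinarith

section
variable {D : Set ℂ}

theorem hq_meas (hPdk : PdkStatement) (hD : IsOpen D) {f : ℂ → ℝ} (hf : Measurable f) :
    Measurable fun t => hq D t f := by
  have h0 := (hPdk D hD).1
  have h1 : StronglyMeasurable fun q : (ℝ × ℂ) × ℂ => f q.1.2 * pD D q.1.1 q.1.2 q.2 * f q.2 := by
    refine Measurable.stronglyMeasurable ?_
    have h2 : Measurable fun q : (ℝ × ℂ) × ℂ => pD D q.1.1 q.1.2 q.2 :=
      h0.comp (by fun_prop : Measurable fun q : (ℝ × ℂ) × ℂ => (q.1.1, q.1.2, q.2))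
    exact ((hf.comp (by fun_prop)).mul h2).mul (hf.comp (by fun_prop))
  have h3 := h1.integral_prod_right' (ν := (volume : Measure ℂ))
  exact (h3.integral_prod_right' (ν := (volume : Measure ℂ))).measurable

theorem tr_meas (hPdk : PdkStatement) (hD : IsOpen D) (B : Set ℂ) :
    Measurable fun t => ∫ x in B, pD D t x x := by
  have h0 := (hPdk D hD).1
  have h2 : StronglyMeasurable fun q : ℝ × ℂ => pD D q.1 q.2 q.2 :=
    (h0.comp (by fun_prop : Measurable fun q : ℝ × ℂ => (q.1, q.2, q.2))).stronglyMeasurable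
  exact (h2.integral_prod_right' (ν := (volume.restrict B : Measure ℂ))).measurable

theorem tr_bd (hPdk : PdkStatement) (hD : IsOpen D) {B : Set ℂ} (hBf : volume B ≠ ⊤) {t : ℝ}
    (ht : 0 < t) : IntegrableOn (fun x => pD D t x x) B ∧ 0 ≤ ∫ x in B, pD D t x x ∧
      ∫ x in B, pD D t x x ≤ (4 * Real.pi * t)⁻¹ * (volume B).toReal := by
  have hfin : IsFiniteMeasure (volume.restrict B) :=
    ⟨by rw [Measure.restrict_apply_univ]; exact hBf.lt_top⟩
  have h0 := (hPdk D hD).1
  have hm : Measurable fun x => pD D t x x :=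
    h0.comp (by fun_prop : Measurable fun x : ℂ => (t, x, x))
  have hle : ∀ x, pD D t x x ≤ (4 * Real.pi * t)⁻¹ := fun x =>
    (pD_bd hD ht x x).2.trans (H8.G_le ht _)
  have hi : IntegrableOn (fun x => pD D t x x) B := by
    refine (integrable_const ((4 * Real.pi * t)⁻¹)).mono' hm.aestronglyMeasurable
      (Eventually.of_forall fun x => ?_)
    rw [Real.norm_of_nonneg (pD_bd hD ht x x).1]
    exact hle x
  refine ⟨hi, integral_nonneg fun x => (pD_bd hD ht x x).1, ?_⟩
  calc ∫ x in B, pD D t x x ≤ ∫ x in B, (4 * Real.pi * t)⁻¹ :=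
        integral_mono hi (integrable_const _) hle
    _ = _ := by
        rw [integral_const, smul_eq_mul, mul_comm]
        congr 1
        rw [Measure.real, Measure.restrict_apply_univ]

theorem wtr_int (hPdk : PdkStatement) (hD : IsOpen D) {B : Set ℂ} (hBf : volume B ≠ ⊤)
    {κ κ' : ℝ} (hκ : 0 < κ) (hκ' : κ < κ') :
    IntegrableOn (fun t => ww κ κ' t * ∫ x in B, pD D t x x) (Set.Ioi 0) := by
  have h1 : κ ^ 2 ≤ κ' ^ 2 := pow_le_pow_left₀ hκ.le hκ'.le 2
  have h2 : IntegrableOn (fun t : ℝ => (κ' ^ 2 - κ ^ 2) * (4 * Real.pi)⁻¹ * (volume B).toReal *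
      Real.exp (-κ ^ 2 * t)) (Set.Ioi 0) :=
    (exp_neg_integrableOn_Ioi 0 (by positivity : 0 < κ ^ 2)).const_mul _
  refine h2.mono' ((ww_cont κ κ').measurable.mul (tr_meas hPdk hD B)).aestronglyMeasurable ?_
  refine (ae_restrict_iff' measurableSet_Ioi).2 (Eventually.of_forall fun t ht => ?_)
  have ht' : 0 < t := ht
  obtain ⟨a1, a2⟩ := ww_bd hκ hκ' ht'
  obtain ⟨-, b1, b2⟩ := tr_bd hPdk hD hBf ht'
  rw [norm_mul, Real.norm_of_nonneg a1, Real.norm_of_nonneg b1]
  calc ww κ κ' t * ∫ x in B, pD D t x x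
      ≤ ((κ' ^ 2 - κ ^ 2) * t * Real.exp (-(κ ^ 2 * t))) *
        ((4 * Real.pi * t)⁻¹ * (volume B).toReal) := mul_le_mul a2 b2 b1 (a1.trans a2)
    _ = _ := by
        have := Real.pi_pos
        have e : Real.exp (-κ ^ 2 * t) = Real.exp (-(κ ^ 2 * t)) := by congr 1; ring
        rw [e]
        field_simp

/-- the Laplace transform of the trace -/
theorem wtr_sum (hPdk : PdkStatement) (hD : IsOpen D) {B : Set ℂ} (hB : MeasurableSet B)
    (hBf : volume B ≠ ⊤) {φ : ℕ → ℂ → ℝ} (hφ : Ons B φ) {κ κ' : ℝ} (hκ : 0 < κ) (hκ' : κ < κ') :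
    HasSum (fun k => ∫ t in Set.Ioi (0 : ℝ), ww κ κ' t * hq D t (φ k))
      (∫ t in Set.Ioi (0 : ℝ), ww κ κ' t * ∫ x in B, pD D t x x) := by
  have hs : ∀ᵐ t ∂(volume.restrict (Set.Ioi (0 : ℝ))),
      HasSum (fun k => ww κ κ' t * hq D t (φ k)) (ww κ κ' t * ∫ x in B, pD D t x x) := by
    refine (ae_restrict_iff' measurableSet_Ioi).2 (Eventually.of_forall fun t ht => ?_)
    exact (heat_trace hPdk hD ht hB hBf hφ).mul_left _
  refine hasSum_integral_of_dominated_convergence (fun k t => ww κ κ' t * hq D t (φ k))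
    (fun k => ((ww_cont κ κ').measurable.mul
      (hq_meas hPdk hD (hφ.meas k))).aestronglyMeasurable) (fun k => ?_) ?_ ?_ hs
  · refine (ae_restrict_iff' measurableSet_Ioi).2 (Eventually.of_forall fun t ht => ?_)
    rw [Real.norm_of_nonneg]
    exact mul_nonneg (ww_bd hκ hκ' ht).1 (hq_eq hPdk hD ht (hφ.memLp k)).2.1
  · filter_upwards [hs] with t ht
    exact ht.summable
  · refine (wtr_int hPdk hD hBf hκ hκ').congr ?_
    filter_upwards [hs] with t ht
    exact ht.tsum_eq.symm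

/-- differences of resolvents -/
theorem res_diff (hPdk : PdkStatement) (hBr : BrStatement) (hD : IsOpen D) (hc : Convex ℝ D)
    (hne : D.Nonempty) {κ κ' : ℝ} (hκ : 0 < κ) (hκ' : κ < κ') {f u u' : ℂ → ℝ}
    (hf : Measurable f) (hf2 : MemLp f 2 volume) (hu : Sol κ D f u) (hu' : Sol κ' D f u') :
    (∫ x, u x * f x) - ∫ x, u' x * f x = ∫ t in Set.Ioi (0 : ℝ), ww κ κ' t * hq D t f := by
  have hi : ∀ k : ℝ, 0 < k →
      IntegrableOn (fun t => Real.exp (-(k ^ 2 * t)) * hq D t f) (Set.Ioi 0) := by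
    intro k hk
    have h2 : IntegrableOn (fun t : ℝ => (∫ x, f x ^ 2) * Real.exp (-k ^ 2 * t)) (Set.Ioi 0) :=
      (exp_neg_integrableOn_Ioi 0 (by positivity : 0 < k ^ 2)).const_mul _
    have h3 : Measurable fun t : ℝ => Real.exp (-(k ^ 2 * t)) := by fun_prop
    refine h2.mono' (h3.mul (hq_meas hPdk hD hf)).aestronglyMeasurable ?_
    refine (ae_restrict_iff' measurableSet_Ioi).2 (Eventually.of_forall fun t ht => ?_)
    obtain ⟨-, a1, a2⟩ := hq_eq hPdk hD ht hf2
    rw [norm_mul, Real.norm_of_nonneg (Real.exp_pos _).le, Real.norm_of_nonneg a1, mul_comm]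
    have e : Real.exp (-k ^ 2 * t) = Real.exp (-(k ^ 2 * t)) := by congr 1; ring
    rw [e]
    exact mul_le_mul_of_nonneg_right a2 (Real.exp_pos _).le
  rw [hBr κ D hκ hD hc hne f u hf2 hu, hBr κ' D (hκ.trans hκ') hD hc hne f u' hf2 hu']
  show (∫ t in Set.Ioi (0 : ℝ), Real.exp (-(κ ^ 2 * t)) * hq D t f) -
    (∫ t in Set.Ioi (0 : ℝ), Real.exp (-(κ' ^ 2 * t)) * hq D t f) = _
  rw [← integral_sub (hi κ hκ) (hi κ' (hκ.trans hκ'))]
  refine setIntegral_congr_fun measurableSet_Ioi fun t _ => ?_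
  simp only [ww, hq]
  ring

end

/-! ### Superpositions of operators of rank one -/

section
variable {ι : Type} [MeasurableSpace ι] {μ : Measure ι} [SFinite μ] {P Q : ι → ℂ → ℝ}

theorem meas_norm (hP : Measurable (Function.uncurry P)) :
    Measurable fun s => eLpNorm (P s) 2 volume := by
  have h1 : ∀ s, eLpNorm (P s) 2 volume = (∫⁻ x, ‖P s x‖ₑ ^ 2) ^ (1 / 2 : ℝ) := by
    intro s
    rw [eLpNorm_eq_lintegral_rpow_enorm_toReal (by norm_num) (by norm_num)]
    norm_num
  simp_rw [h1]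
  have h2 : Measurable fun p : ι × ℂ => ‖P p.1 p.2‖ₑ ^ 2 := by
    have h3 : Measurable fun p : ι × ℂ => P p.1 p.2 := hP
    exact (measurable_enorm.comp h3).pow_const 2
  exact (h2.lintegral_prod_right').pow_const _

theorem hold {g f : ℂ → ℝ} (hg : AEStronglyMeasurable g volume)
    (hf : AEStronglyMeasurable f volume) :
    ∫⁻ x, ‖g x * f x‖ₑ ≤ eLpNorm g 2 volume * eLpNorm f 2 volume := by
  have e : ∀ u : ℂ → ℝ, eLpNorm u 2 volume = (∫⁻ x, ‖u x‖ₑ ^ (2 : ℝ)) ^ (1 / 2 : ℝ) := by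
    intro u
    rw [eLpNorm_eq_lintegral_rpow_enorm_toReal (by norm_num) (by norm_num)]
    norm_num
  have h1 := ENNReal.lintegral_mul_le_Lp_mul_Lq volume (p := 2) (q := 2)
    (by rw [Real.holderConjugate_iff]; norm_num) (f := fun y => ‖g y‖ₑ) (g := fun y => ‖f y‖ₑ)
    hg.enorm hf.enorm
  rw [e, e]
  refine le_trans (le_of_eq ?_) h1
  refine lintegral_congr fun x => ?_
  rw [enorm_mul]
  rfl

theorem hold' {g f : ℂ → ℝ} (hg : AEStronglyMeasurable g volume)
    (hf : AEStronglyMeasurable f volume) (B : Set ℂ) :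
    ‖∫ x in B, g x * f x‖ₑ ≤ eLpNorm g 2 volume * eLpNorm f 2 volume :=
  (enorm_integral_le_lintegral_enorm _).trans
    ((lintegral_mono' Measure.restrict_le_self le_rfl).trans (hold hg hf))

theorem meas_pair (hP : Measurable (Function.uncurry P)) {f : ℂ → ℝ} (hf : Measurable f) :
    StronglyMeasurable fun s => ∫ x, P s x * f x := by
  have h1 : StronglyMeasurable fun p : ι × ℂ => P p.1 p.2 * f p.2 := by
    have h3 : Measurable fun p : ι × ℂ => P p.1 p.2 := hP
    exact (h3.mul (hf.comp measurable_snd)).stronglyMeasurable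
  exact h1.integral_prod_right' (ν := (volume : Measure ℂ))

theorem rk_int (hP : Measurable (Function.uncurry P)) (hQ : Measurable (Function.uncurry Q))
    (hfin : ∫⁻ s, eLpNorm (P s) 2 volume * eLpNorm (Q s) 2 volume ∂μ < ⊤) {f : ℂ → ℝ}
    (hf : Measurable f) (hf2 : MemLp f 2 volume) {v : ℂ → ℝ}
    (hv : ∀ᵐ x, v x = ∫ s, P s x * (∫ y, Q s y * f y) ∂μ) :
    ∫ x, v x * f x = ∫ s, (∫ x, P s x * f x) * (∫ y, Q s y * f y) ∂μ := by
  set c : ι → ℝ := fun s => ∫ y, Q s y * f y with hc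
  have hcm : StronglyMeasurable c := meas_pair hQ hf
  have hP' : Measurable fun p : ι × ℂ => P p.1 p.2 := hP
  have hPs : ∀ s, Measurable (P s) := fun s => hP.comp measurable_prodMk_left
  have hQs : ∀ s, Measurable (Q s) := fun s => hQ.comp measurable_prodMk_left
  have hm : Measurable fun p : ℂ × ι => P p.2 p.1 * c p.2 * f p.1 :=
    ((hP'.comp measurable_swap).mul (hcm.measurable.comp measurable_snd)).mul
      (hf.comp measurable_fst)
  have hint : Integrable (fun p : ℂ × ι => P p.2 p.1 * c p.2 * f p.1) (volume.prod μ) := by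
    refine ⟨hm.aestronglyMeasurable, ?_⟩
    show ∫⁻ p : ℂ × ι, ‖P p.2 p.1 * c p.2 * f p.1‖ₑ ∂(volume.prod μ) < ⊤
    rw [lintegral_prod_symm' _ hm.enorm]
    have h1 : ∀ s, ∫⁻ x, ‖P s x * c s * f x‖ₑ ≤
        (eLpNorm (P s) 2 volume * eLpNorm (Q s) 2 volume) *
          (eLpNorm f 2 volume * eLpNorm f 2 volume) := by
      intro s
      have h2 : ∀ x, ‖P s x * c s * f x‖ₑ = ‖c s‖ₑ * ‖P s x * f x‖ₑ := by
        intro x
        rw [← enorm_mul]
        congr 1
        ring
      simp_rw [h2]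
      rw [lintegral_const_mul' _ _ enorm_ne_top]
      have h3 := hold (hPs s).aestronglyMeasurable hf.aestronglyMeasurable
      have h4 : ‖c s‖ₑ ≤ eLpNorm (Q s) 2 volume * eLpNorm f 2 volume := by
        have := hold' (hQs s).aestronglyMeasurable hf.aestronglyMeasurable Set.univ
        rwa [Measure.restrict_univ] at this
      calc _ ≤ (eLpNorm (Q s) 2 volume * eLpNorm f 2 volume) *
            (eLpNorm (P s) 2 volume * eLpNorm f 2 volume) := mul_le_mul' h4 h3
        _ = _ := by ring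
    refine (lintegral_mono h1).trans_lt ?_
    rw [lintegral_mul_const' _ _ (ENNReal.mul_ne_top hf2.2.ne hf2.2.ne)]
    exact ENNReal.mul_lt_top hfin (ENNReal.mul_lt_top hf2.2 hf2.2)
  have h1 : ∫ x, v x * f x = ∫ x, ∫ s, P s x * c s * f x ∂μ := by
    refine integral_congr_ae ?_
    filter_upwards [hv] with x hx
    rw [hx, ← integral_mul_const]
  rw [h1, integral_integral_swap (f := fun x s => P s x * c s * f x) hint]
  refine integral_congr_ae (Eventually.of_forall fun s => ?_)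
  simp only
  rw [← integral_mul_const]
  refine integral_congr_ae (Eventually.of_forall fun x => ?_)
  simp only
  ring

theorem toReal_int (hP : Measurable (Function.uncurry P)) (hQ : Measurable (Function.uncurry Q))
    (hfin : ∫⁻ s, eLpNorm (P s) 2 volume * eLpNorm (Q s) 2 volume ∂μ < ⊤) :
    Integrable (fun s => (eLpNorm (P s) 2 volume * eLpNorm (Q s) 2 volume).toReal) μ :=
  integrable_toReal_of_lintegral_ne_top ((meas_norm hP).mul (meas_norm hQ)).aemeasurable hfin.ne

theorem norm_le_of_hold {a : ℝ} {b : ℝ≥0∞} (hb : b < ⊤) (h : ‖a‖ₑ ≤ b) : ‖a‖ ≤ b.toReal := by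
  rw [← toReal_enorm]
  exact ENNReal.toReal_mono hb.ne h

/-- squares -/
theorem int_sq_eq {g : ℂ → ℝ} (hg : MemLp g 2 volume) :
    Real.sqrt (∫ x, g x ^ 2) = (eLpNorm g 2 volume).toReal := by
  rw [← Lp.norm_toLp g hg]
  have h1 : ‖hg.toLp‖ ^ 2 = ∫ x, g x ^ 2 := by
    rw [← real_inner_self_eq_norm_sq, L2.inner_def]
    refine integral_congr_ae ?_
    filter_upwards [hg.coeFn_toLp] with x hx
    rw [hx]
    simp [sq]
  rw [← h1, Real.sqrt_sq (norm_nonneg _)]

theorem good_or {a b : ℝ≥0∞} (h : a * b < ⊤) : (a < ⊤ ∧ b < ⊤) ∨ a = 0 ∨ b = 0 := by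
  by_cases ha : a = 0
  · exact Or.inr (Or.inl ha)
  by_cases hb : b = 0
  · exact Or.inr (Or.inr hb)
  refine Or.inl ⟨?_, ?_⟩
  · by_contra h1
    rw [not_lt, top_le_iff] at h1
    rw [h1, ENNReal.top_mul hb] at h
    exact lt_irrefl _ h
  · by_contra h1
    rw [not_lt, top_le_iff] at h1
    rw [h1, ENNReal.mul_top ha] at h
    exact lt_irrefl _ h

theorem rk_sum (hP : Measurable (Function.uncurry P)) (hQ : Measurable (Function.uncurry Q))
    (hfin : ∫⁻ s, eLpNorm (P s) 2 volume * eLpNorm (Q s) 2 volume ∂μ < ⊤) {B : Set ℂ}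
    (hB : MeasurableSet B) {φ : ℕ → ℂ → ℝ} (hφ : Ons B φ) :
    HasSum (fun k => ∫ s, (∫ x, P s x * φ k x) * (∫ y, Q s y * φ k y) ∂μ)
      (∫ s, (∫ x in B, P s x * Q s x) ∂μ) := by
  have hPs : ∀ s, Measurable (P s) := fun s => hP.comp measurable_prodMk_left
  have hQs : ∀ s, Measurable (Q s) := fun s => hQ.comp measurable_prodMk_left
  have hae : ∀ᵐ s ∂μ, eLpNorm (P s) 2 volume * eLpNorm (Q s) 2 volume < ⊤ :=
    ae_lt_top ((meas_norm hP).mul (meas_norm hQ)) hfin.ne
  have hN := toReal_int hP hQ hfin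
  -- zero functions
  have hz : ∀ {g : ℂ → ℝ}, Measurable g → eLpNorm g 2 volume = 0 → ∀ h : ℂ → ℝ, ∀ A : Set ℂ,
      ∫ x in A, g x * h x = 0 := by
    intro g hg h0 h A
    have h1 : g =ᵐ[volume] 0 := (eLpNorm_eq_zero_iff hg.aestronglyMeasurable (by norm_num)).1 h0
    apply integral_eq_zero_of_ae
    refine ae_restrict_of_ae ?_
    filter_upwards [h1] with x hx
    rw [hx]
    simp
  have hz' : ∀ {g : ℂ → ℝ}, Measurable g → eLpNorm g 2 volume = 0 → ∀ h : ℂ → ℝ,
      ∫ x, g x * h x = 0 := by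
    intro g hg h0 h
    have := hz hg h0 h Set.univ
    rwa [Measure.restrict_univ] at this
  have hpt : ∀ᵐ s ∂μ, HasSum (fun k => (∫ x, P s x * φ k x) * ∫ y, Q s y * φ k y)
      (∫ x in B, P s x * Q s x) ∧ ∀ F : Finset ℕ,
      ∑ k ∈ F, ‖(∫ x, P s x * φ k x) * ∫ y, Q s y * φ k y‖ ≤
        (eLpNorm (P s) 2 volume * eLpNorm (Q s) 2 volume).toReal := by
    filter_upwards [hae] with s hs
    rcases good_or hs with ⟨h1, h2⟩ | h1 | h1
    · have mP : MemLp (P s) 2 volume := ⟨(hPs s).aestronglyMeasurable, h1⟩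
      have mQ : MemLp (Q s) 2 volume := ⟨(hQs s).aestronglyMeasurable, h2⟩
      refine ⟨hφ.pars hB mP mQ, fun F => ?_⟩
      have hsq : ∀ {g : ℂ → ℝ}, MemLp g 2 volume →
          ∑ k ∈ F, (∫ x, g x * φ k x) ^ 2 ≤ ∫ x, g x ^ 2 := by
        intro g hg
        have h3 := hφ.pars hB hg hg
        have h4 : HasSum (fun k => (∫ x, g x * φ k x) ^ 2) (∫ x in B, g x ^ 2) := by
          simpa only [← sq] using h3
        refine (sum_le_hasSum F (fun k _ => sq_nonneg _) h4).trans ?_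
        exact setIntegral_le_integral hg.integrable_sq (Eventually.of_forall fun x => sq_nonneg _)
      have h3 : (∑ k ∈ F, ‖(∫ x, P s x * φ k x) * ∫ y, Q s y * φ k y‖) ^ 2 ≤
          (∑ k ∈ F, (∫ x, P s x * φ k x) ^ 2) * ∑ k ∈ F, (∫ x, Q s x * φ k x) ^ 2 := by
        have h4 := Finset.sum_mul_sq_le_sq_mul_sq F (fun k => |∫ x, P s x * φ k x|)
          (fun k => |∫ x, Q s x * φ k x|)
        simp only [sq_abs] at h4
        simpa only [norm_mul, Real.norm_eq_abs] using h4
      rw [ENNReal.toReal_mul, ← int_sq_eq mP, ← int_sq_eq mQ]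
      refine abs_le_of_sq_le_sq' ?_ (by positivity) |>.2
      rw [mul_pow, Real.sq_sqrt (integral_nonneg fun x => sq_nonneg _),
        Real.sq_sqrt (integral_nonneg fun x => sq_nonneg _)]
      exact h3.trans (mul_le_mul (hsq mP) (hsq mQ) (Finset.sum_nonneg fun k _ => sq_nonneg _)
        (integral_nonneg fun x => sq_nonneg _))
    · rw [hz (hPs s) h1]
      have : ∀ k, (∫ x, P s x * φ k x) = 0 := fun k => hz' (hPs s) h1 _
      simp only [this, zero_mul]
      refine ⟨hasSum_zero, fun F => ?_⟩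
      simp only [norm_zero, Finset.sum_const_zero]
      exact ENNReal.toReal_nonneg
    · have h3 : ∫ x in B, P s x * Q s x = 0 := by
        simp_rw [mul_comm (P s _)]
        exact hz (hQs s) h1 _ _
      rw [h3]
      have : ∀ k, (∫ x, Q s x * φ k x) = 0 := fun k => hz' (hQs s) h1 _
      simp only [this, mul_zero]
      refine ⟨hasSum_zero, fun F => ?_⟩
      simp only [norm_zero, Finset.sum_const_zero]
      exact ENNReal.toReal_nonneg
  have hmeas : ∀ k, AEStronglyMeasurable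
      (fun s => (∫ x, P s x * φ k x) * ∫ y, Q s y * φ k y) μ := fun k =>
    ((meas_pair hP (hφ.meas k)).mul (meas_pair hQ (hφ.meas k))).aestronglyMeasurable
  have hInt : ∀ k, Integrable (fun s => (∫ x, P s x * φ k x) * ∫ y, Q s y * φ k y) μ := by
    intro k
    refine hN.mono' (hmeas k) ?_
    filter_upwards [hpt] with s hs
    simpa using hs.2 {k}
  have hsumm : Summable fun k => ∫ s, ‖(∫ x, P s x * φ k x) * ∫ y, Q s y * φ k y‖ ∂μ := by
    refine summable_of_sum_le (fun k => integral_nonneg fun s => norm_nonneg _)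
      (c := ∫ s, (eLpNorm (P s) 2 volume * eLpNorm (Q s) 2 volume).toReal ∂μ) fun F => ?_
    rw [← integral_finsetSum F fun k _ => (hInt k).norm]
    refine integral_mono_ae (integrable_finsetSum F fun k _ => (hInt k).norm) hN ?_
    filter_upwards [hpt] with s hs
    exact hs.2 F
  have h1 := hasSum_integral_of_summable_integral_norm hInt hsumm
  have h2 : ∫ s, (∫ x in B, P s x * Q s x) ∂μ =
      ∫ s, (∑' k, (∫ x, P s x * φ k x) * ∫ y, Q s y * φ k y) ∂μ := by
    refine integral_congr_ae ?_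
    filter_upwards [hpt] with s hs
    exact hs.1.tsum_eq.symm
  rw [h2]
  exact h1

/-- from the discs to the plane -/
theorem rk_lim (hP : Measurable (Function.uncurry P)) (hQ : Measurable (Function.uncurry Q))
    (hfin : ∫⁻ s, eLpNorm (P s) 2 volume * eLpNorm (Q s) 2 volume ∂μ < ⊤) :
    Tendsto (fun n : ℕ => ∫ s, (∫ x in Metric.ball (0 : ℂ) ((n : ℝ) + 1), P s x * Q s x) ∂μ) atTop
      (𝓝 (∫ s, (∫ x, P s x * Q s x) ∂μ)) := by
  have hPs : ∀ s, Measurable (P s) := fun s => hP.comp measurable_prodMk_left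
  have hQs : ∀ s, Measurable (Q s) := fun s => hQ.comp measurable_prodMk_left
  have hae : ∀ᵐ s ∂μ, eLpNorm (P s) 2 volume * eLpNorm (Q s) 2 volume < ⊤ :=
    ae_lt_top ((meas_norm hP).mul (meas_norm hQ)) hfin.ne
  refine tendsto_integral_of_dominated_convergence
    (fun s => (eLpNorm (P s) 2 volume * eLpNorm (Q s) 2 volume).toReal) (fun n => ?_)
    (toReal_int hP hQ hfin) (fun n => ?_) ?_
  · have h1 : StronglyMeasurable fun p : ι × ℂ => P p.1 p.2 * Q p.1 p.2 := by
      have h3 : Measurable fun p : ι × ℂ => P p.1 p.2 := hP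
      have h4 : Measurable fun p : ι × ℂ => Q p.1 p.2 := hQ
      exact (h3.mul h4).stronglyMeasurable
    exact (h1.integral_prod_right'
      (ν := (volume.restrict (Metric.ball (0 : ℂ) ((n : ℝ) + 1))))).aestronglyMeasurable
  · filter_upwards [hae] with s hs
    exact norm_le_of_hold hs
      (hold' (hPs s).aestronglyMeasurable (hQs s).aestronglyMeasurable _)
  · filter_upwards [hae] with s hs
    have hi : Integrable fun x => P s x * Q s x :=
      ⟨((hPs s).mul (hQs s)).aestronglyMeasurable,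
        (hold (hPs s).aestronglyMeasurable (hQs s).aestronglyMeasurable).trans_lt hs⟩
    have hmono : Monotone fun n : ℕ => Metric.ball (0 : ℂ) ((n : ℝ) + 1) := by
      intro a b hab
      refine Metric.ball_subset_ball ?_
      have : (a : ℝ) ≤ b := by exact_mod_cast hab
      linarith
    have h1 := tendsto_setIntegral_of_monotone (μ := (volume : Measure ℂ))
      (f := fun x => P s x * Q s x) (fun n : ℕ => (Metric.isOpen_ball
      (x := (0 : ℂ)) (ε := (n : ℝ) + 1)).measurableSet) hmono hi.integrableOn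
    have h2 : ⋃ n : ℕ, Metric.ball (0 : ℂ) ((n : ℝ) + 1) = Set.univ := by
      rw [Set.eq_univ_iff_forall]
      intro x
      obtain ⟨n, hn⟩ := exists_nat_gt ‖x‖
      refine Set.mem_iUnion.2 ⟨n, ?_⟩
      rw [Metric.mem_ball, dist_zero_right]
      linarith
    rw [h2, Measure.restrict_univ] at h1
    exact h1

end

end Pool.Agent.H16F.H67
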